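import Pool.Agent.Lib.DN.IfaceF
import Pool.Agent.Lib.DN.Base
import Pool.Agent.Lib.DT.F4.DisV

/-!
# Theorem DN, part F: the contradiction (`S_FH`) from the generic form `DN.F4.fh`
-/

set_option autoImplicit false

open scoped Pointwise

noncomputable section

namespace Pool.Agent.DN

open Pool.Agent.MuZ Pool.Agent.FW NumberField
open Pool.Agent.DI (io ofC io_inj exists_io io_ofC ofC_io VP MP UP TP ex)
open _root_.DN.F4 _root_.DI.F4

namespace FHm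

variable {n t : ℕ}

/-- `V_P` as a valuation subring -/
def VPv (P : Ideal ZZ) [P.IsPrime] : ValuationSubring Om where
  carrier := {x | VP P x}
  mul_mem' := fun ha hb => DI.VP.mul ha hb
  one_mem' := DI.VP.one
  add_mem' := fun ha hb => DI.VP.add ha hb
  zero_mem' := DI.VP.zero
  neg_mem' := fun ha => DI.VP.neg ha
  mem_or_inv_mem' := fun x => DI.VP.or_vp_inv x

theorem mem_VPv {P : Ideal ZZ} [P.IsPrime] {x : Om} : x ∈ VPv P ↔ VP P x := Iff.rfl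

/-- `c3 ^ 3 = 2`. -/
theorem c3_cube : c3 ^ 3 = 2 := by
  have h : ∃ y : Om, y ^ 3 = 2 := IsAlgClosed.exists_pow_nat_eq (2 : Om) (by norm_num)
  unfold c3
  rw [dif_pos h]
  exact h.choose_spec

theorem c3_ne : c3 ≠ 0 := by
  intro h
  have := c3_cube
  rw [h] at this
  norm_num at this

theorem c3_mp {P : Ideal ZZ} [P.IsPrime] (h2 : MP P 2) : MP P c3 := by
  refine DI.MP.of_pow (n := 3) ?_
  rw [c3_cube]
  exact h2

/-- The point of order two: `c3 ^ 2 X(1/2)` is a unit. -/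
theorem half_unit [Ine n t] (hB1 : S_B1) (hB2 : S_B2) (hR1 : S_R1) (hR2 : S_R2) (hL6 : S_L6)
    {P : Ideal ZZ} (hP : Ab2 P) :
    4 * xO (⊤ : Ideal (OO n t)) (1 / 2) ^ 3 +
      (a1O (⊤ : Ideal (OO n t)) * xO (⊤ : Ideal (OO n t)) (1 / 2) + a3O (⊤ : Ideal (OO n t))) ^ 2 = 0 ∧
    UP P (c3 ^ 2 * xO (⊤ : Ideal (OO n t)) (1 / 2)) := by
  have hPp : P.IsPrime := hP.1.1
  have ht : (⊤ : Ideal (OO n t)) ≠ ⊥ := top_ne_bot
  have hG : G15 (⊤ : Ideal (OO n t)) := ⟨ht, top_sup_eq _⟩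
  have h1 : (1 / 2 : ℂ) ∉ Lam (⊤ : Ideal (OO n t)) := by
    intro h
    have h3 := (hL6.1 n t ⊤ 2 ht (by norm_num) (top_sup_eq _) 1).1 (by
      rw [toC_one]
      exact_mod_cast h)
    have h4 : (2 : ℤ) ∣ (1 : OO n t).re := ((nat_dvd_iff 2 (1 : OO n t)).1 h3).1
    rw [re_one] at h4
    norm_num at h4
  have h2 : 2 * (1 / 2 : ℂ) ∈ Lam (⊤ : Ideal (OO n t)) :=
    lam_top.2 ⟨1, by rw [toC_one]; norm_num⟩
  obtain ⟨-, -, -, -, b1, -⟩ := hB1 n t ⊤ ht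
  obtain ⟨-, b2⟩ := hB2 n t ⊤ ht (1 / 2) h1
  obtain ⟨b3, -⟩ := b2 hG.cop
  have hW : WC (⊤ : Ideal (OO n t)) (1 / 2) = 0 := by
    unfold WC
    rw [(b1 (1 / 2) h1).2 h2, zero_div]
  rw [hW] at b3
  obtain ⟨r1, r2, r3, -⟩ := hR1.1 n t |>.1 ⊤ hG
  have hT : Tor n t (1 / 2 : ℂ) := ⟨1, 2, by norm_num, by rw [toC_one]; norm_num⟩
  have r4 := (r3 _ hT).1
  have e1 : 4 * xO (⊤ : Ideal (OO n t)) (1 / 2) ^ 3 +
      (a1O (⊤ : Ideal (OO n t)) * xO (⊤ : Ideal (OO n t)) (1 / 2) + a3O (⊤ : Ideal (OO n t))) ^ 2 =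
        0 := by
    apply io_inj
    rw [map_zero, map_add, map_mul, map_pow, map_pow, map_add, map_mul, map_ofNat, r1, r2, r4, ← b3]
    ring
  refine ⟨e1, ?_⟩
  obtain ⟨g1, g2⟩ := (hR2 n t).1 P hP
  obtain ⟨-, u3, -⟩ := g1.2 ⊤ hG
  obtain ⟨y, hy, ey⟩ := g2 ⊤ hG
  set e := xO (⊤ : Ideal (OO n t)) (1 / 2) with he
  set A1' := a1O (⊤ : Ideal (OO n t)) with hA1
  set A3' := a3O (⊤ : Ideal (OO n t)) with hA3
  have hc := c3_cube
  have hcm := c3_mp hP.2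
  -- `g = c3 ^ 2 e`, `g ^ 3 + (c3 y g + A3) ^ 2 = 0`
  have e2 : (c3 ^ 2 * e) ^ 3 + (c3 * y * (c3 ^ 2 * e) + A3') ^ 2 = 0 := by
    have e3 : c3 * y * (c3 ^ 2 * e) = A1' * e := by
      rw [ey, ← hc]
      ring
    have e4 : (c3 ^ 2 * e) ^ 3 = 4 * e ^ 3 := by
      have : (c3 ^ 2 * e) ^ 3 = (c3 ^ 3) ^ 2 * e ^ 3 := by ring
      rw [this, hc]
      ring
    rw [e3, e4]
    exact e1
  set g := c3 ^ 2 * e with hg
  have hgV : VP P g := by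
    by_contra h
    obtain ⟨h0, h5⟩ := DI.VP.not_iff.1 h
    -- divide by `g ^ 3`
    have h6 : (1 : Om) = -(g⁻¹ * (c3 * y + A3' * g⁻¹) ^ 2) := by
      have e5 : g ^ 3 * (1 + g⁻¹ * (c3 * y + A3' * g⁻¹) ^ 2) = 0 := by
        have e6 : g ^ 3 * (1 + g⁻¹ * (c3 * y + A3' * g⁻¹) ^ 2) =
            g ^ 3 + (c3 * y * g + A3') ^ 2 := by
          field_simp
        rw [e6, e2]
      have e7 := (mul_eq_zero.1 e5).resolve_left (pow_ne_zero 3 h0)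
      linear_combination e7
    have h7 : MP P (1 : Om) := by
      rw [h6]
      refine DI.MP.neg (DI.MP.mul_right h5 (DI.VP.pow (DI.VP.add (DI.VP.mul hcm.vp hy)
        (DI.VP.mul u3.1 h5.vp)) 2))
    exact DI.MP.one_not h7
  have h8 : UP P (c3 * y * g + A3') := by
    refine u3.congr ?_
    have : c3 * y * g + A3' - A3' = c3 * (y * g) := by ring
    rw [this]
    exact DI.MP.mul_right hcm (DI.VP.mul hy hgV)
  have h9 : UP P (g ^ 3) := by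
    have : g ^ 3 = -(c3 * y * g + A3') ^ 2 := by linear_combination e2
    rw [this]
    exact (h8.pow 2).neg
  exact DI.UP.of_pow (by norm_num) h9

end FHm

open FHm

/-- **S_FH.** -/
theorem tFH (hL6 : S_L6) (hB1 : S_B1) (hB2 : S_B2) (hR1 : S_R1) (hR2 : S_R2) (hKf : S_Kf)
    (hLead : S_Lead) : S_FH := by
  intro n t _ f k m R hm hR hRC P hP hk σ hσ c hc N0 β hβ hV hu1 T W ψ Q1 Q2 hTW hψ hQ2 hQ K' hK'
    hQ1k hQ2k vQ1 vQ2
  have hPp : P.IsPrime := hP.1.1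
  obtain ⟨e1, eU⟩ := half_unit (n := n) (t := t) hB1 hB2 hR1 hR2 hL6 hP
  obtain ⟨g1, g2⟩ := (hR2 n t).1 P hP
  have hG : G15 (⊤ : Ideal (OO n t)) := ⟨top_ne_bot, top_sup_eq _⟩
  obtain ⟨-, u3, -⟩ := g1.2 ⊤ hG
  obtain ⟨y, hy, ey⟩ := g2 ⊤ hG
  obtain ⟨l1, l2, -⟩ := hLead n t f m R hm hR hRC σ hσ N0 β hβ
  obtain ⟨kf, -⟩ := (hKf n t f hm.odd hm.dvd).1 (2 * f) (Or.inr rfl)
  obtain ⟨r, hr⟩ : ∃ r : Om, r ^ 2 = -(c3 ^ 2 * xO (⊤ : Ideal (OO n t)) (1 / 2)) :=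
    IsAlgClosed.exists_pow_nat_eq _ (by norm_num)
  have hrU : UP P r := by
    refine DI.UP.of_pow (n := 2) (by norm_num) ?_
    rw [hr]
    exact eU.neg
  -- the field of coefficients
  let S0 : Set Om := {c3, r, a1O (⊤ : Ideal (OO n t)), a3O (⊤ : Ideal (OO n t))}
  have : FiniteDimensional ℚ (IntermediateField.adjoin ℚ S0) :=
    IntermediateField.finiteDimensional_adjoin fun x _ => (Algebra.IsAlgebraic.isAlgebraic x).isIntegral
  let K1 : IntermediateField ℚ Om :=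
    K' ⊔ (Kf n t (2 * f) ⊔ ((Kf n t (2 * f)).map (c : Om →ₐ[ℚ] Om) ⊔ IntermediateField.adjoin ℚ S0))
  have : FiniteDimensional ℚ K1 := inferInstance
  have hK'1 : K' ≤ K1 := le_sup_left
  have hK2 : Kf n t (2 * f) ≤ K1 := le_sup_left.trans le_sup_right
  have hK3 : (Kf n t (2 * f)).map (c : Om →ₐ[ℚ] Om) ≤ K1 :=
    (le_sup_left.trans le_sup_right).trans le_sup_right
  have hK4 : IntermediateField.adjoin ℚ S0 ≤ K1 :=
    (le_sup_right.trans le_sup_right).trans le_sup_right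
  have hS0 : ∀ x ∈ S0, x ∈ K1 := fun x hx => hK4 (IntermediateField.subset_adjoin ℚ S0 hx)
  have h2V : (2 : Om)⁻¹ ∉ VPv P := by
    intro h1
    have h3 : VP P (2 : Om)⁻¹ := h1
    have h4 := DI.MP.mul_left h3 hP.2
    rw [inv_mul_cancel₀ two_ne_zero] at h4
    exact DI.MP.one_not h4
  obtain ⟨ϖ, hϖ⟩ := _root_.DT.F4.disV Om (VPv P) K1 2 (by norm_num) (by exact_mod_cast h2V)
  have hcu : ∀ j, PowerSeries.coeff j (uF f m R σ c N0 β) = cF f m R σ c N0 β j := fun j => by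
    unfold uF
    rw [PowerSeries.coeff_mk]
  have hu1' : UP P (PowerSeries.coeff 1 (uF f m R σ c N0 β) / c3 ^ k) := by
    rw [hcu]
    exact hu1
  refine fh (V := VPv P) (S := K1.toSubfield) hϖ h2V (c := c3) (a := a1O ⊤) (b := a3O ⊤)
    (e := xO ⊤ (1 / 2)) (r := r) (k := k) hk c3_cube (hS0 _ (by simp [S0])) ?_
    (hS0 _ (by simp [S0])) u3.1 (hS0 _ (by simp [S0])) hrU.1 hrU.ne_zero hrU.inv.1
    (hS0 _ (by simp [S0])) hr (u := uF f m R σ c N0 β) (T := T) (W := W) (ψ := ψ) (Q1 := Q1)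
    (Q2 := Q2) ?_ ?_ ?_ ?_ hu1'.inv.1 hTW hψ hQ2 hQ (fun j => hK'1 (hQ1k j))
    (fun j => hK'1 (hQ2k j)) vQ1 vQ2
  · rw [ey, mul_div_cancel_left₀ _ (two_ne_zero)]
    exact hy
  · intro j
    rw [hcu]
    exact hV j
  · intro j
    rw [hcu]
    unfold cF
    exact add_mem (hK2 (l1 j)) (hK3 ⟨_, l1 j, rfl⟩)
  · rw [hcu]
    unfold cF
    rw [l2, map_zero, add_zero]
  · intro h
    have h1 := hu1'.ne_zero
    rw [h, zero_div] at h1
    exact h1 rfl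

end Pool.Agent.DN
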