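import Pool.Agent.Lib.DN.IfaceF
import Pool.Agent.Lib.DN.O.All
import Pool.Agent.Lib.DN.E.SpecB

/-!
# Theorem DN, part F: elementary lemmas (complete; no task), author helper79

Ideals prime to `N` (`PN N`; `FB f` is the same as `PN (2 * f)`), the ray class relation (`ray_..`), representatives
(`rep`), sums over a system of representatives (`sum_rep`, `sum_mul`, `sum_cj`), the conditions `FM`, `IsLv`, complex
conjugation on `Om` (`cj_..`), fractions `b / d` (`g0_..`, `den_cop`).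
-/

set_option autoImplicit false
set_option linter.unusedSectionVars false

open scoped Pointwise Topology
open Filter

noncomputable section

namespace Pool.Agent.DN.F

open Pool.Agent.MuZ Pool.Agent.FW NumberField IsDedekindDomain Pool.Agent.DN
open Pool.Agent.DI (io ofC io_inj exists_io io_ofC ofC_io VP MP UP TP ex)

variable {n t : ℕ} [SqN n t]

/-! ## Ideals -/

theorem sp_one : sp (1 : OO n t) = ⊤ := Ideal.span_singleton_one

theorem cjI_top : cjI (⊤ : Ideal (OO n t)) = ⊤ := by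
  have h := (aO3 n t).2.2.2.1 (1 : OO n t)
  rw [cjO_one] at h
  rwa [sp_one] at h

theorem cjI_cjI (a : Ideal (OO n t)) : cjI (cjI a) = a := ((aO3 n t).2.2.1 a).1

theorem NI_cjI (a : Ideal (OO n t)) : NI (cjI a) = NI a := ((aO3 n t).2.2.1 a).2.1

theorem mul_cjI (a : Ideal (OO n t)) : a * cjI a = sp (NI a : OO n t) := ((aO3 n t).2.2.1 a).2.2

theorem cjI_ne {a : Ideal (OO n t)} (h : a ≠ ⊥) : cjI a ≠ ⊥ := Eb.ne_cj aO3 h

theorem cjI_mul (a b : Ideal (OO n t)) : cjI (a * b) = cjI a * cjI b := (aO3 n t).2.1 a b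

theorem cjI_sp (v : OO n t) : cjI (sp v) = sp (cjO v) := (aO3 n t).2.2.2.1 v

theorem mem_cjI {a : Ideal (OO n t)} {v : OO n t} : v ∈ cjI a ↔ cjO v ∈ a := (aO3 n t).1 a v

theorem pri_cj {a : Ideal (OO n t)} {N : ℕ} : PrI (cjI a) N ↔ PrI a N := (aO3 n t).2.2.2.2.1 a N

theorem NI_mul (a b : Ideal (OO n t)) : NI (a * b) = NI a * NI b := (aO2 n t).2.2.2.2.1 a b

theorem NI_sp (v : OO n t) : (NI (sp v) : ℤ) = Nm v := (aO2 n t).2.2.2.1 v

theorem NI_top : NI (⊤ : Ideal (OO n t)) = 1 := by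
  have h := NI_sp (1 : OO n t)
  rw [sp_one, Nm_one] at h
  exact_mod_cast h

theorem NI_pos {a : Ideal (OO n t)} (h : a ≠ ⊥) : 0 < NI a :=
  Nat.pos_of_ne_zero fun h1 => h (((aO2 n t).2.2.2.2.2.1 a).1 h1)

/-- Multiplication by a nonzero principal ideal is injective. -/
theorem sp_cancel {α : OO n t} (hα : α ≠ 0) {a b : Ideal (OO n t)} (h : sp α * a = sp α * b) : a = b :=
  (Ideal.span_singleton_mul_right_inj hα).1 h

theorem sp_mul (α β : OO n t) : sp (α * β) = sp α * sp β :=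
  (Ideal.span_singleton_mul_span_singleton α β).symm

theorem mul_cancel {a b c : Ideal (OO n t)} (hc : c ≠ ⊥) (h : a * c = b * c) : a = b := by
  rw [← Ideal.zero_eq_bot] at hc
  exact mul_right_cancel₀ hc h

theorem mul_cancel' {a b c : Ideal (OO n t)} (hc : c ≠ ⊥) (h : c * a = c * b) : a = b :=
  mul_cancel hc (by rwa [mul_comm a c, mul_comm b c])

theorem ne_bot_of_le {a b : Ideal (OO n t)} (h : a ≤ b) (ha : a ≠ ⊥) : b ≠ ⊥ := by
  rintro rfl
  exact ha (le_bot_iff.1 h)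

/-! ## Coprimality -/

/-- The conditions on `b`, for the modulus `N`. -/
structure PN (N : ℕ) (b : Ideal (OO n t)) : Prop where
  ne : b ≠ ⊥
  cop : PrI b N

theorem pri_mulN {a : Ideal (OO n t)} {N N' : ℕ} : PrI a (N * N') ↔ PrI a N ∧ PrI a N' :=
  (aO6 n t).2.1 N N' a

theorem pri_mulI {a b : Ideal (OO n t)} {N : ℕ} : PrI (a * b) N ↔ PrI a N ∧ PrI b N :=
  (aO6 n t).1 N a b

theorem pri_NI {a : Ideal (OO n t)} {N : ℕ} (hN : 0 < N) : PrI a N ↔ (NI a).Coprime N :=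
  (aO6 n t).2.2.1 N a hN

theorem pri_sp {v : OO n t} {N : ℕ} (hN : 0 < N) : PrI (sp v) N ↔ Cop v N :=
  (aO6 n t).2.2.2.1 N v hN

/-- `PrI (sp α) N` for `α = 1` modulo `N`. -/
theorem pri_of_one {N : ℕ} {α : OO n t} (h : (N : OO n t) ∣ α - 1) : PrI (sp α) N := by
  unfold PrI
  rw [Ideal.eq_top_iff_one]
  have h1 : (1 : OO n t) = α - (α - 1) := by ring
  rw [h1]
  exact Ideal.sub_mem _ (Ideal.mem_sup_left (Ideal.mem_span_singleton_self α))
    (Ideal.mem_sup_right (Ideal.mem_span_singleton.2 h))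

theorem cop_of_one {N : ℕ} {α : OO n t} (h : (N : OO n t) ∣ α - 1) : Cop α N := by
  have h5 : (N : OO n t) ∣ 1 - α := by
    rw [← neg_sub]
    exact (dvd_neg).2 h
  exact cop_congr h5 (cop_one N)

theorem pn_top (N : ℕ) : PN N (⊤ : Ideal (OO n t)) := ⟨Eb.ne_top, Eb.pri_top N⟩

theorem pn_mul {N : ℕ} {a b : Ideal (OO n t)} (h : PN N a) (h' : PN N b) : PN N (a * b) :=
  ⟨Eb.ne_mul h.ne h'.ne, Eb.pri_mul h.cop h'.cop⟩

theorem pn_of_mul {N : ℕ} {a b : Ideal (OO n t)} (h : PN N (a * b)) : PN N a ∧ PN N b := by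
  have h1 := pri_mulI.1 h.cop
  refine ⟨⟨?_, h1.1⟩, ⟨?_, h1.2⟩⟩
  · rintro rfl
    exact h.ne (by simp)
  · rintro rfl
    exact h.ne (by simp)

theorem pn_cj {N : ℕ} {a : Ideal (OO n t)} (h : PN N a) : PN N (cjI a) :=
  ⟨cjI_ne h.ne, pri_cj.2 h.cop⟩

theorem pn_dvd {N M : ℕ} {a : Ideal (OO n t)} (h : PN N a) (hM : M ∣ N) : PN M a :=
  ⟨h.ne, Eb.pri_dvd h.cop hM⟩

theorem pn_psi {N : ℕ} {τ : Gal(Om/ℚ)} {a : Ideal (OO n t)} (h : Psi τ N a) : PN N a :=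
  ⟨h.ne, Eb.psi_pri h⟩

theorem pn_ray {N : ℕ} (hN : 0 < N) {a b : Ideal (OO n t)} (h : Ray N a b) (ha : PN N a) : PN N b := by
  obtain ⟨h1, h2⟩ := (aO7 n t N hN).2.2.2.2.2.1 a b h
  exact ⟨h1.1 ha.ne, h2.1 ha.cop⟩

/-! ## `FB`, `FM`, `IsLv` -/

theorem fb_pn {f : ℕ} {b : Ideal (OO n t)} (h : FB f b) : PN (2 * f) b := ⟨h.ne, h.cop⟩

theorem pn_fb {f : ℕ} {b : Ideal (OO n t)} (h : PN (2 * f) b) : FB f b := ⟨h.ne, h.cop⟩

theorem fb_top (f : ℕ) : FB f (⊤ : Ideal (OO n t)) := ⟨Eb.ne_top, Eb.pri_top _⟩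

theorem fb_mul {f : ℕ} {a b : Ideal (OO n t)} (h : FB f a) (h' : FB f b) : FB f (a * b) :=
  ⟨Eb.ne_mul h.ne h'.ne, Eb.pri_mul h.cop h'.cop⟩

theorem fb_of_mul {f : ℕ} {a b : Ideal (OO n t)} (h : FB f (a * b)) : FB f a ∧ FB f b :=
  ⟨pn_fb (pn_of_mul (fb_pn h)).1, pn_fb (pn_of_mul (fb_pn h)).2⟩

theorem fb_cj {f : ℕ} {a : Ideal (OO n t)} (h : FB f a) : FB f (cjI a) := pn_fb (pn_cj (fb_pn h))

theorem fb_psi {f : ℕ} {τ : Gal(Om/ℚ)} {a : Ideal (OO n t)} (h : Psi τ (2 * f) a) : FB f a :=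
  pn_fb (pn_psi h)

theorem fb_ray {f : ℕ} (hf : 0 < f) {a b : Ideal (OO n t)} (h : Ray (2 * f) a b) (ha : FB f a) :
    FB f b := pn_fb (pn_ray (by omega) h (fb_pn ha))

theorem fb_two {f : ℕ} {b : Ideal (OO n t)} (h : FB f b) : PN 2 b := ⟨h.ne, Eb.pri_dvd h.cop (Dvd.intro _ rfl)⟩

theorem fb_f {f : ℕ} {b : Ideal (OO n t)} (h : FB f b) : PN f b :=
  ⟨h.ne, Eb.pri_dvd h.cop (Dvd.intro_left _ rfl)⟩

theorem fb_of {f : ℕ} {b : Ideal (OO n t)} (h : PN 2 b) (h' : PN f b) : FB f b :=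
  ⟨h.ne, pri_mulN.2 ⟨h.cop, h'.cop⟩⟩

theorem fb_15 {f : ℕ} (h15 : 15 ∣ f) {b : Ideal (OO n t)} (h : FB f b) : G15 b :=
  ⟨h.ne, Eb.pri_dvd h.cop (h15.mul_left 2)⟩

theorem fm_pos {f : ℕ} {m : Ideal (OO n t)} (h : FM f m) : 0 < f := h.odd.pos

theorem fm_fb {f : ℕ} {m : Ideal (OO n t)} (h : FM f m) : FB f m := ⟨h.ne, pri_mulN.2 ⟨h.two, h.cop⟩⟩

theorem fm_cj {f : ℕ} {m : Ideal (OO n t)} (h : FM f m) : FM f (cjI m) :=
  ⟨h.odd, h.dvd, cjI_ne h.ne, pri_cj.2 h.two, pri_cj.2 h.cop⟩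

theorem fm_15 {f : ℕ} {m : Ideal (OO n t)} (h : FM f m) : G15 m := fb_15 h.dvd (fm_fb h)

theorem fm_odd {f : ℕ} {m : Ideal (OO n t)} (h : FM f m) : Odd (NI m) := by
  have h1 := (pri_NI (n := n) (t := t) (by norm_num)).1 h.two
  exact (Nat.coprime_two_right).1 h1

theorem fm_copf {f : ℕ} {m : Ideal (OO n t)} (h : FM f m) : (NI m).Coprime f :=
  (pri_NI (fm_pos h)).1 h.cop

theorem lv_cj {f M : ℕ} {m : Ideal (OO n t)} {R : Finset (Ideal (OO n t))} (h : IsLv f m R M) :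
    IsLv f (cjI m) R M := by
  refine ⟨h.odd, h.three, ?_⟩
  have h1 : lev f (cjI m) R = lev f m R := by
    unfold lev
    rw [NI_cjI]
  rw [h1]
  exact h.dvd

theorem lv_one {f M : ℕ} {m : Ideal (OO n t)} {R : Finset (Ideal (OO n t))} (h : IsLv f m R M)
    {b : Ideal (OO n t)} (hb : b ∈ R) : IsLv f m {b} M := by
  refine ⟨h.odd, h.three, dvd_trans ?_ h.dvd⟩
  unfold lev
  rw [Finset.prod_singleton]
  exact mul_dvd_mul_left _ (pow_dvd_pow_of_dvd (mul_dvd_mul_left _ (Finset.dvd_prod_of_mem _ hb)) 3)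

theorem lv_top {f M : ℕ} {m : Ideal (OO n t)} {R : Finset (Ideal (OO n t))} (h : IsLv f m R M) :
    IsLv f m {(⊤ : Ideal (OO n t))} M := by
  refine ⟨h.odd, h.three, dvd_trans ?_ h.dvd⟩
  unfold lev
  rw [Finset.prod_singleton, NI_top, mul_one]
  exact mul_dvd_mul_left _ (pow_dvd_pow_of_dvd (Dvd.intro _ rfl) 3)

theorem lv_m {f M : ℕ} {m : Ideal (OO n t)} {R : Finset (Ideal (OO n t))} (h : IsLv f m R M) :
    NI m ∣ M := by
  refine dvd_trans ?_ h.dvd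
  unfold lev
  refine Dvd.dvd.mul_left ?_ _
  exact dvd_trans (Dvd.intro _ rfl) (dvd_pow_self _ (by norm_num))

theorem lv_pos {f M : ℕ} {m : Ideal (OO n t)} {R : Finset (Ideal (OO n t))} (h : IsLv f m R M) :
    0 < M := h.odd.pos

/-! ## The ray class relation modulo `N` -/

theorem ray_refl {N : ℕ} (hN : 0 < N) (a : Ideal (OO n t)) : Ray N a a := (aO7 n t N hN).1 a

theorem ray_symm {N : ℕ} (hN : 0 < N) {a b : Ideal (OO n t)} (h : Ray N a b) : Ray N b a :=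
  (aO7 n t N hN).2.1 a b h

theorem ray_trans {N : ℕ} (hN : 0 < N) {a b c : Ideal (OO n t)} (h : Ray N a b) (h' : Ray N b c) :
    Ray N a c := (aO7 n t N hN).2.2.1 a b c h h'

theorem ray_mul {N : ℕ} (hN : 0 < N) {a b c d : Ideal (OO n t)} (h : Ray N a b) (h' : Ray N c d) :
    Ray N (a * c) (b * d) := (aO7 n t N hN).2.2.2.1 a b c d h h'

theorem ray_cancel {N : ℕ} (hN : 0 < N) {a b c : Ideal (OO n t)} (hc : PN N c)
    (h : Ray N (a * c) (b * c)) : Ray N a b := (aO7 n t N hN).2.2.2.2.1 a b c hc.ne hc.cop h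

theorem ray_cancel' {N : ℕ} (hN : 0 < N) {a b c : Ideal (OO n t)} (hc : PN N c)
    (h : Ray N (c * a) (c * b)) : Ray N a b :=
  ray_cancel hN hc (by rwa [mul_comm a c, mul_comm b c])

theorem ray_dvd {N M : ℕ} (hN : 0 < N) (hM : M ∣ N) {a b : Ideal (OO n t)} (h : Ray N a b) :
    Ray M a b := (aO7 n t N hN).2.2.2.2.2.2.1 M a b hM h

theorem ray_cj {N : ℕ} {a b : Ideal (OO n t)} (h : Ray N a b) : Ray N (cjI a) (cjI b) :=
  (aO3 n t).2.2.2.2.2 N a b h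

theorem ray_inv {N : ℕ} (hN : 0 < N) {a : Ideal (OO n t)} (ha : PN N a) :
    ∃ a', PN N a' ∧ Ray N (a * a') ⊤ := by
  obtain ⟨a', h1, h2, h3⟩ := (aO7 n t N hN).2.2.2.2.2.2.2.2.2.1 a ha.ne ha.cop
  exact ⟨a', ⟨h1, h2⟩, h3⟩

theorem exists_rc {N : ℕ} (hN : 0 < N) : ∃ R : Finset (Ideal (OO n t)), IsRC N R :=
  (aO7 n t N hN).2.2.2.2.2.2.2.2.2.2

/-- The normalised form of the relation. -/
theorem ray_norm {N : ℕ} {a b : Ideal (OO n t)} (h : Ray N a b) :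
    ∃ α α' : OO n t, α ≠ 0 ∧ α' ≠ 0 ∧ (N : OO n t) ∣ α - 1 ∧ (N : OO n t) ∣ α' - 1 ∧
      sp α * a = sp α' * b := by
  obtain ⟨α, α', h1, h2, h3, h4, h5, h6⟩ := h
  obtain ⟨β, h7, h8⟩ := cop_inv h3
  rcases eq_or_ne β 0 with rfl | hβ
  · -- `N = 1`
    rw [mul_zero, zero_sub] at h8
    have h9 : (N : OO n t) ∣ 1 := (dvd_neg).1 h8
    exact ⟨α, α', h1, h2, h9.trans (one_dvd _), h9.trans (one_dvd _), h6⟩
  · refine ⟨β * α, β * α', mul_ne_zero hβ h1, mul_ne_zero hβ h2, ?_, ?_, ?_⟩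
    · rw [mul_comm β α]
      exact h8
    · have h9 : β * α' - 1 = (α * β - 1) - β * (α - α') := by ring
      rw [h9]
      exact dvd_sub h8 (h5.mul_left _)
    · have h6' : sp α * a = sp α' * b := h6
      rw [sp_mul, sp_mul, mul_assoc, mul_assoc, h6']

theorem ray_of {N : ℕ} {a b : Ideal (OO n t)} {α α' : OO n t} (h1 : α ≠ 0) (h2 : α' ≠ 0)
    (h3 : (N : OO n t) ∣ α - 1) (h4 : (N : OO n t) ∣ α' - 1) (h : sp α * a = sp α' * b) : Ray N a b := by
  refine ⟨α, α', h1, h2, cop_of_one h3, cop_of_one h4, ?_, h⟩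
  have h7 : α - α' = (α - 1) - (α' - 1) := by ring
  rw [h7]
  exact dvd_sub h3 h4

/-- `(α) a ~ a` for `α = 1` modulo `N`. -/
theorem ray_sp {N : ℕ} {α : OO n t} (hα : α ≠ 0) (h : (N : OO n t) ∣ α - 1) (a : Ideal (OO n t)) :
    Ray N (sp α * a) a := by
  refine ray_of (α := 1) (α' := α) one_ne_zero hα (by simp) h ?_
  rw [sp_one, Ideal.top_mul]

/-- The relation modulo `f` in terms of the relation modulo `2 f`: `α = 1` modulo `f`, prime to `2`. -/
theorem ray_split {f : ℕ} (hf : Odd f) {a b : Ideal (OO n t)} (ha : FB f a) (hb : FB f b)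
    (h : Ray f a b) : ∃ α : OO n t, α ≠ 0 ∧ (f : OO n t) ∣ α - 1 ∧ Cop α 2 ∧ Ray (2 * f) a (sp α * b) := by
  have h2f : 0 < 2 * f := by have := hf.pos; omega
  obtain ⟨c, hc, hbc⟩ := ray_inv h2f (fb_pn hb)
  have hac : Ray f (a * c) ⊤ := by
    have e1 : Ray f (a * c) (b * c) := ray_mul hf.pos h (ray_refl hf.pos c)
    exact ray_trans hf.pos e1 (ray_dvd h2f (Dvd.intro_left _ rfl) hbc)
  obtain ⟨x, x', g1, g2, g3, g4, g5⟩ := ray_norm hac
  have hx' : x' ∈ sp x * (a * c) := by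
    rw [g5, Ideal.mul_top]
    exact Ideal.mem_span_singleton_self _
  obtain ⟨y, hy, hxy⟩ := Ideal.mem_span_singleton_mul.1 hx'
  have hy0 : y ≠ 0 := by
    rintro rfl
    rw [mul_zero] at hxy
    exact g2 hxy.symm
  have hac' : a * c = sp y := by
    have e1 : sp x * (a * c) = sp x * sp y := by
      rw [g5, Ideal.mul_top, ← sp_mul, hxy]
    exact sp_cancel g1 e1
  have hyf : (f : OO n t) ∣ y - 1 := by
    have e1 : x * y - 1 = x' - 1 := by rw [hxy]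
    have e2 : y - 1 = (x' - 1) - (x - 1) * y := by rw [← hxy]; ring
    rw [e2]
    exact dvd_sub g4 (g3.mul_right _)
  have hy2 : Cop y 2 := by
    have e1 : PrI (sp y) (2 * f) := by
      rw [← hac']
      exact (pn_mul (fb_pn ha) hc).cop
    exact cop_dvd ((pri_sp h2f).1 e1) (Dvd.intro _ rfl)
  refine ⟨y, hy0, hyf, hy2, ?_⟩
  have e1 : Ray (2 * f) (a * c) (sp y * (b * c)) := by
    have e2 : Ray (2 * f) (sp y * (b * c)) (sp y * ⊤) := ray_mul h2f (ray_refl h2f _) hbc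
    rw [Ideal.mul_top] at e2
    rw [hac']
    exact ray_symm h2f e2
  rw [← mul_assoc] at e1
  exact ray_cancel h2f hc e1

/-! ## Representatives -/

open Classical in
/-- The representative of `b` in `R`. -/
def rep (N : ℕ) (R : Finset (Ideal (OO n t))) (b : Ideal (OO n t)) : Ideal (OO n t) :=
  if h : ∃ b' ∈ R, Ray N b b' then h.choose else ⊤

theorem rep_spec {N : ℕ} {R : Finset (Ideal (OO n t))} (hR : IsRC N R) {b : Ideal (OO n t)}
    (hb : PN N b) : rep N R b ∈ R ∧ Ray N b (rep N R b) := by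
  have h := hR.ex b hb.ne hb.cop
  unfold rep
  rw [dif_pos h]
  exact h.choose_spec

theorem rc_pn {N : ℕ} {R : Finset (Ideal (OO n t))} (hR : IsRC N R) {b : Ideal (OO n t)}
    (hb : b ∈ R) : PN N b := ⟨(hR.mem b hb).1, (hR.mem b hb).2⟩

theorem rc_fb {f : ℕ} {R : Finset (Ideal (OO n t))} (hR : IsRC (2 * f) R) {b : Ideal (OO n t)}
    (hb : b ∈ R) : FB f b := pn_fb (rc_pn hR hb)

theorem rc_fr {f : ℕ} {R : Finset (Ideal (OO n t))} (hR : IsRC (2 * f) R) : FR f R :=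
  fun _ hb => rc_fb hR hb

/-- **Reindexing.** `F` is a class function, `g` is injective on the classes. -/
theorem sum_rep {A : Type} [AddCommMonoid A] {N : ℕ} (hN : 0 < N) {R : Finset (Ideal (OO n t))}
    (hR : IsRC N R) (g : Ideal (OO n t) → Ideal (OO n t)) (hg : ∀ b, PN N b → PN N (g b))
    (hinj : ∀ b b', PN N b → PN N b' → Ray N (g b) (g b') → Ray N b b')
    (F : Ideal (OO n t) → A) (hF : ∀ b b', PN N b → PN N b' → Ray N b b' → F b = F b') :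
    ∑ b ∈ R, F (g b) = ∑ b ∈ R, F b := by
  classical
  have h1 : ∀ b ∈ R, rep N R (g b) ∈ R := fun b hb => (rep_spec hR (hg b (rc_pn hR hb))).1
  have h2 : ∀ b ∈ R, F (g b) = F (rep N R (g b)) := fun b hb =>
    hF _ _ (hg b (rc_pn hR hb)) (rc_pn hR (h1 b hb)) (rep_spec hR (hg b (rc_pn hR hb))).2
  have h3 : ∀ b ∈ R, ∀ b' ∈ R, rep N R (g b) = rep N R (g b') → b = b' := by
    intro b hb b' hb' h
    apply hR.uni b hb b' hb'
    apply hinj b b' (rc_pn hR hb) (rc_pn hR hb')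
    have h4 := (rep_spec hR (hg b (rc_pn hR hb))).2
    have h5 := (rep_spec hR (hg b' (rc_pn hR hb'))).2
    rw [h] at h4
    exact ray_trans hN h4 (ray_symm hN h5)
  rw [Finset.sum_congr rfl h2]
  have h4 : R.image (fun b => rep N R (g b)) = R := by
    apply Finset.eq_of_subset_of_card_le
    · intro b hb
      rw [Finset.mem_image] at hb
      obtain ⟨b', hb', rfl⟩ := hb
      exact h1 b' hb'
    · rw [Finset.card_image_of_injOn]
      intro b hb b' hb' h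
      exact h3 b hb b' hb' h
  conv_rhs => rw [← h4]
  rw [Finset.sum_image (fun b hb b' hb' h => h3 b hb b' hb' h)]

/-- Reindexing by multiplication with `a`. -/
theorem sum_mul {A : Type} [AddCommMonoid A] {N : ℕ} (hN : 0 < N) {R : Finset (Ideal (OO n t))}
    (hR : IsRC N R) {a : Ideal (OO n t)} (ha : PN N a)
    (F : Ideal (OO n t) → A) (hF : ∀ b b', PN N b → PN N b' → Ray N b b' → F b = F b') :
    ∑ b ∈ R, F (a * b) = ∑ b ∈ R, F b :=
  sum_rep hN hR (fun b => a * b) (fun _ hb => pn_mul ha hb)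
    (fun _ _ _ _ h => ray_cancel' hN ha h) F hF

/-- Reindexing by conjugation. -/
theorem sum_cj {A : Type} [AddCommMonoid A] {N : ℕ} (hN : 0 < N) {R : Finset (Ideal (OO n t))}
    (hR : IsRC N R)
    (F : Ideal (OO n t) → A) (hF : ∀ b b', PN N b → PN N b' → Ray N b b' → F b = F b') :
    ∑ b ∈ R, F (cjI b) = ∑ b ∈ R, F b :=
  sum_rep hN hR (fun b => cjI b) (fun _ hb => pn_cj hb)
    (fun b b' _ _ h => by
      have h1 := ray_cj h
      rwa [cjI_cjI, cjI_cjI] at h1) F hF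

/-- The class of the leading coefficient exists and is unique in `R`: for every `c` prime to `N`. -/
theorem exists_rep {N : ℕ} (hN : 0 < N) {m : Ideal (OO n t)} (hm : PN N m)
    {R : Finset (Ideal (OO n t))} (hR : IsRC N R) {c : Ideal (OO n t)} (hc : PN N c) :
    ∃ b1 ∈ R, Ray N (m * b1) c ∧ ∀ b ∈ R, Ray N (m * b) c → b = b1 := by
  obtain ⟨a, ha, h1⟩ := ray_inv hN hm
  obtain ⟨h2, h3⟩ := rep_spec hR (pn_mul ha hc)
  have h4 : Ray N (m * rep N R (a * c)) c := by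
    have h5 : Ray N (m * rep N R (a * c)) (m * (a * c)) :=
      ray_mul hN (ray_refl hN m) (ray_symm hN h3)
    have h6 : Ray N (m * (a * c)) (⊤ * c) := by
      rw [← mul_assoc]
      exact ray_mul hN h1 (ray_refl hN c)
    rw [Ideal.top_mul] at h6
    exact ray_trans hN h5 h6
  refine ⟨rep N R (a * c), h2, h4, fun b hb h => ?_⟩
  apply hR.uni b hb _ h2
  exact ray_cancel' hN hm (ray_trans hN h (ray_symm hN h4))

/-- The representative of the inverse class of `m`. -/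
theorem exists_b1 {N : ℕ} (hN : 0 < N) {m : Ideal (OO n t)} (hm : PN N m)
    {R : Finset (Ideal (OO n t))} (hR : IsRC N R) :
    ∃ b1 ∈ R, Ray N (m * b1) ⊤ ∧ ∀ b ∈ R, Ray N (m * b) ⊤ → b = b1 :=
  exists_rep hN hm hR (pn_top N)

/-! ## Complex conjugation on `Om` -/

theorem cj_wO {c : Gal(Om/ℚ)} (hc : IsCj c) : c (wO n t) = t - wO n t := by
  apply io_inj
  rw [hc, io_wO, map_sub, map_natCast, io_wO, conj_wC]

theorem cj_cj {c : Gal(Om/ℚ)} (hc : IsCj c) (x : Om) : c (c x) = x := by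
  apply io_inj
  rw [hc, hc, Complex.conj_conj]

theorem cj_toO {c : Gal(Om/ℚ)} (hc : IsCj c) (v : OO n t) : c (toO v) = toO (cjO v) := by
  apply io_inj
  rw [hc, io_toO, io_toO, conj_toC]

/-- The definition of `Kf`. -/
theorem kf_mem {N : ℕ} {x : Om} :
    x ∈ Kf n t N ↔ ∀ τ ∈ GK n t, ∀ a : Ideal (OO n t), Psi τ N a → Ray N a ⊤ → τ x = x := Iff.rfl

/-! ## Fractions -/

theorem g0_cop {N : ℤ} {d : ℤ} (hd : N ∣ d - 1) : IsCoprime d N := by
  obtain ⟨e, he⟩ := hd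
  exact ⟨1, -e, by linear_combination he⟩

theorem g0_ne {N : ℤ} (hN : 2 ≤ N) {d : ℤ} (hd : N ∣ d - 1) : d ≠ 0 := by
  rintro rfl
  have h1 := g0_cop hd
  have h2 : IsUnit N := isCoprime_zero_left.1 h1
  rw [Int.isUnit_iff] at h2
  omega

/-- The denominator of `b / d` is prime to `N`, if `d = 1` modulo `M` and `N ∣ M`. -/
theorem den_cop {M : ℤ} {N : ℕ} {b d : ℤ} (hd : M ∣ d - 1) (hN : (N : ℤ) ∣ M) :
    ((b : ℚ) / d).den.Coprime N := by
  have h1 : IsCoprime d M := g0_cop hd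
  have h2 : (((b : ℚ) / d).den : ℤ) ∣ d := by
    have h3 := Rat.den_dvd b d
    have e : Rat.divInt b d = (b : ℚ) / d := by
      rw [Rat.divInt_eq_div]
    rw [e] at h3
    exact h3
  have h3 : IsCoprime (((b : ℚ) / d).den : ℤ) (N : ℤ) :=
    (h1.of_isCoprime_of_dvd_left h2).of_isCoprime_of_dvd_right hN
  exact Nat.isCoprime_iff_coprime.1 h3

theorem g0_dvd {M N : ℤ} (hN : N ∣ M) {a b c d : ℤ} (h : G0 M a b c d) : G0 N a b c d :=
  ⟨h.1, hN.trans h.2⟩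

/-- The matrix `g' = (a -b; -c d)`. -/
theorem g0_inv {M : ℤ} {a b c d : ℤ} (h : G0 M a b c d) : G0 M a (-b) (-c) d :=
  ⟨by linear_combination h.1, (dvd_neg).2 h.2⟩

/-- The action of `g'`: `- conj (g z) = g' (- conj z)`. -/
theorem g0_conj (a b c d : ℤ) (z : ℂ) :
    -(starRingEnd ℂ) ((a * z + b) / (c * z + d)) =
      (a * (-(starRingEnd ℂ) z) - b) / (-c * (-(starRingEnd ℂ) z) + d) := by
  rw [map_div₀, map_add, map_add, map_mul, map_mul, map_intCast, map_intCast, map_intCast,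
    map_intCast, ← neg_div]
  congr 1 <;> ring

end Pool.Agent.DN.F
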