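import Pool.Agent.Lib.DI.F.SpecF
import Pool.Agent.Lib.DI.F.Frac
import Pool.Agent.Lib.DI.F.ResFin

set_option autoImplicit false

/-!
# Theorem DN, part F: linear algebra over a subfield of the residue field (complete)
-/

noncomputable section

namespace Pool.Agent.DN.F

open Pool.Agent.MuZ Pool.Agent.DI Pool.Agent.DI.F

private theorem ded {R F ι : Type} [CommRing R] [Field F] [Fintype ι] (r : ι → R →+* F)
    (hr : Function.Injective r) (g : ι → F) (h : ∀ x : R, ∑ i, g i * r i x = 0) : g = 0 := by
  have h1 := (linearIndependent_monoidHom R F).comp (fun i => ((r i : R →+* F) : R →* F)) (by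
    intro i j hij
    apply hr
    ext x
    exact DFunLike.congr_fun hij x)
  have h2 := Fintype.linearIndependent_iff.1 h1 g (by
    funext x
    rw [Finset.sum_apply, Pi.zero_apply, ← h x]
    rfl)
  funext i
  exact h2 i

/-- **Linear algebra of F1** over a subfield `K0` of `F` which is in the diagonal image of `R`. -/
theorem tLin4 {R F ι : Type} [CommRing R] [Field F] [Fintype ι] (K0 : Subfield F)
    (r : ι → R →+* F) (hr : Function.Injective r)
    (hfin : (Set.range fun (x : R) (i : ι) => r i x).Finite)
    (hdiag : ∀ c ∈ K0, ∃ x : R, ∀ i, r i x = c)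
    (hval : ∀ x : R, ∑ i, r i x ∈ K0)
    (k : ι → F) (S : Set R) (hk : ∃ i, k i ≠ 0) (hS : ∀ w ∈ S, ∑ i, k i * r i w = 0) :
    ∃ b : R, (∃ i, r i b ≠ 0) ∧ ∀ w ∈ S, ∑ i, r i b * r i w = 0 := by
  classical
  have hinj : Function.Injective (algebraMap K0 F) := (algebraMap K0 F).injective
  -- the image
  let Φ : R →+ (ι → F) :=
    { toFun := fun x i => r i x
      map_zero' := by
        funext i
        exact map_zero (r i)
      map_add' := by
        intro x y
        funext i
        exact map_add (r i) x y }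
  have hΦ : ∀ x i, Φ x i = r i x := fun _ _ => rfl
  let U : Submodule K0 (ι → F) :=
    { carrier := Set.range Φ
      add_mem' := by
        rintro _ _ ⟨x, rfl⟩ ⟨y, rfl⟩
        exact ⟨x + y, map_add Φ x y⟩
      zero_mem' := ⟨0, map_zero Φ⟩
      smul_mem' := by
        rintro c _ ⟨x, rfl⟩
        obtain ⟨y, hy⟩ := hdiag c.1 c.2
        refine ⟨y * x, ?_⟩
        funext i
        rw [hΦ, map_mul, hy]
        rfl }
  have hmem : ∀ v : ι → F, v ∈ U ↔ ∃ x, Φ x = v := fun v => Iff.rfl
  have : Finite U := by
    have h1 : (U : Set (ι → F)) = Set.range fun (x : R) (i : ι) => r i x := rfl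
    have h2 : (U : Set (ι → F)).Finite := by
      rw [h1]
      exact hfin
    exact h2.to_subtype
  have : Module.Finite K0 U := Module.Finite.of_finite
  -- the form
  have hform : ∀ u v : U, ∃ c : K0, algebraMap K0 F c = ∑ i, u.1 i * v.1 i := by
    intro u v
    obtain ⟨x, hx⟩ := (hmem u.1).1 u.2
    obtain ⟨y, hy⟩ := (hmem v.1).1 v.2
    have h1 : ∑ i, u.1 i * v.1 i = ∑ i, r i (x * y) := by
      refine Finset.sum_congr rfl fun i _ => ?_
      rw [← hx, ← hy, hΦ, hΦ, map_mul]
    rw [h1]
    exact ⟨⟨_, hval (x * y)⟩, rfl⟩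
  choose B hB using hform
  let t : U →ₗ[K0] Module.Dual K0 U := LinearMap.mk₂ K0 B
    (by
      intro u u' v
      apply hinj
      rw [map_add, hB, hB, hB, ← Finset.sum_add_distrib]
      refine Finset.sum_congr rfl fun i _ => ?_
      simp only [Submodule.coe_add, Pi.add_apply]
      ring)
    (by
      intro c u v
      apply hinj
      rw [smul_eq_mul, map_mul, hB, hB, Finset.mul_sum]
      refine Finset.sum_congr rfl fun i _ => ?_
      simp only [Submodule.coe_smul, Pi.smul_apply, Algebra.smul_def]
      ring)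
    (by
      intro u v v'
      apply hinj
      rw [map_add, hB, hB, hB, ← Finset.sum_add_distrib]
      refine Finset.sum_congr rfl fun i _ => ?_
      simp only [Submodule.coe_add, Pi.add_apply]
      ring)
    (by
      intro c u v
      apply hinj
      rw [smul_eq_mul, map_mul, hB, hB, Finset.mul_sum]
      refine Finset.sum_congr rfl fun i _ => ?_
      simp only [Submodule.coe_smul, Pi.smul_apply, Algebra.smul_def]
      ring)
  have ht : ∀ u v, algebraMap K0 F (t u v) = ∑ i, u.1 i * v.1 i := fun u v => hB u v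
  have htinj : Function.Injective t := by
    rw [injective_iff_map_eq_zero]
    intro u hu
    have h1 : u.1 = 0 := by
      apply ded r hr u.1
      intro x
      have h2 := ht u ⟨Φ x, (hmem _).2 ⟨x, rfl⟩⟩
      rw [hu, LinearMap.zero_apply, map_zero] at h2
      exact h2.symm
    exact Subtype.ext h1
  have htsurj : Function.Surjective t :=
    (LinearMap.injective_iff_surjective_of_finrank_eq_finrank
      (Subspace.dual_finrank_eq (K := K0) (V := U)).symm).1 htinj
  -- the functional
  obtain ⟨x0, hx0⟩ : ∃ x0 : R, ∑ i, k i * r i x0 ≠ 0 := by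
    by_contra hne
    push Not at hne
    obtain ⟨i, hi⟩ := hk
    have h1 := ded r hr k hne
    exact hi (congrFun h1 i)
  obtain ⟨m, hm⟩ : ∃ m : Module.Dual K0 F, m (∑ i, k i * r i x0) ≠ 0 := by
    by_contra hne
    push Not at hne
    exact hx0 ((Module.forall_dual_apply_eq_zero_iff K0 _).1 hne)
  let kap : U →ₗ[K0] F :=
    { toFun := fun v => ∑ i, k i * v.1 i
      map_add' := by
        intro v v'
        rw [← Finset.sum_add_distrib]
        refine Finset.sum_congr rfl fun i _ => ?_
        simp only [Submodule.coe_add, Pi.add_apply]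
        ring
      map_smul' := by
        intro c v
        rw [RingHom.id_apply, Algebra.smul_def, Finset.mul_sum]
        refine Finset.sum_congr rfl fun i _ => ?_
        simp only [Submodule.coe_smul, Pi.smul_apply, Algebra.smul_def]
        ring }
  obtain ⟨u, hu⟩ := htsurj (m.comp kap)
  obtain ⟨b, hb⟩ := (hmem u.1).1 u.2
  refine ⟨b, ?_, ?_⟩
  · by_contra hne
    push Not at hne
    have h1 : u = 0 := by
      apply Subtype.ext
      rw [← hb]
      funext i
      exact hne i
    rw [h1, map_zero] at hu
    have h2 := LinearMap.congr_fun hu ⟨Φ x0, (hmem _).2 ⟨x0, rfl⟩⟩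
    apply hm
    rw [LinearMap.zero_apply] at h2
    exact h2.symm
  · intro w hw
    have h1 := ht u ⟨Φ w, (hmem _).2 ⟨w, rfl⟩⟩
    have h2 : t u ⟨Φ w, (hmem _).2 ⟨w, rfl⟩⟩ = m (∑ i, k i * r i w) := by
      rw [hu]
      rfl
    rw [h2, hS w hw, map_zero, map_zero] at h1
    rw [h1]
    refine Finset.sum_congr rfl fun i _ => ?_
    rw [← hb]
    rfl

end Pool.Agent.DN.F
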