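import Pool.Agent.Lib.DN.F.Base
import Pool.Agent.Lib.DI.F.VPB
import Pool.Agent.Lib.DI.F5.All

/-!
# Theorem DN, part F, module Asm: assembly of Proposition F (helper79)
-/

set_option autoImplicit false
set_option linter.unusedSectionVars false

open scoped Pointwise Topology MatrixGroups
open Filter CongruenceSubgroup

noncomputable section

namespace Pool.Agent.DN.F

open Pool.Agent.MuZ Pool.Agent.FW NumberField IsDedekindDomain Pool.Agent.DN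
open Pool.Agent.DI (io ofC io_inj exists_io io_ofC ofC_io VP MP UP TP ex)

private theorem Asm_qq (z : UpperHalfPlane) : DIF5.qq z = ex (z : ℂ) := rfl

private theorem Asm_g0 {M : ℕ} {γ : SL(2, ℤ)} (hγ : γ ∈ Gamma1 (4 * M)) :
    G0 (4 * M) (γ 0 0) (γ 0 1) (γ 1 0) (γ 1 1) ∧ (4 * M : ℤ) ∣ γ 1 1 - 1 := by
  obtain ⟨g1, g2, g3⟩ := (Gamma1_mem _ γ).mp hγ
  have hdet : γ 0 0 * γ 1 1 - γ 0 1 * γ 1 0 = 1 := by
    have h := γ.det_coe
    rw [Matrix.det_fin_two] at h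
    exact h
  have hc : ((4 * M : ℕ) : ℤ) ∣ γ 1 0 := (ZMod.intCast_zmod_eq_zero_iff_dvd _ _).mp g3
  have hd : ((4 * M : ℕ) : ℤ) ∣ γ 1 1 - 1 := by
    have h : ((γ 1 1 - 1 : ℤ) : ZMod (4 * M)) = 0 := by
      push_cast
      rw [g2, sub_self]
    exact (ZMod.intCast_zmod_eq_zero_iff_dvd _ _).mp h
  push_cast at hc hd
  exact ⟨⟨hdet, hc⟩, hd⟩

private theorem Asm_co (γ : SL(2, ℤ)) (z : UpperHalfPlane) : ((γ • z : UpperHalfPlane) : ℂ) =
    ((γ 0 0 : ℤ) * (z : ℂ) + (γ 0 1 : ℤ)) / ((γ 1 0 : ℤ) * (z : ℂ) + (γ 1 1 : ℤ)) := by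
  rw [UpperHalfPlane.coe_specialLinearGroup_apply]
  simp

/-- `ψ ≠ 0`. -/
private theorem Asm_ne {a b e : Om} {u T W ψ : PowerSeries Om} (h : _root_.DN.F4.TWr a b u T W)
    (hu : PowerSeries.coeff 1 u ≠ 0)
    (hr : ψ ^ 2 * W = PowerSeries.X ^ 2 * (T - PowerSeries.C e * W)) : ψ ≠ 0 := by
  rintro rfl
  have h0 : T - PowerSeries.C e * W = 0 := by
    have h1 : (PowerSeries.X : PowerSeries Om) ^ 2 * (T - PowerSeries.C e * W) = 0 := by
      rw [← hr]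
      ring
    exact (mul_eq_zero.1 h1).resolve_left (pow_ne_zero 2 PowerSeries.X_ne_zero)
  have hT := (PowerSeries.X_dvd_iff (φ := T)).2 (by
    rw [← PowerSeries.coeff_zero_eq_constantCoeff_apply]
    exact h.T0)
  have hW := (PowerSeries.X_dvd_iff (φ := W)).2 (by
    rw [← PowerSeries.coeff_zero_eq_constantCoeff_apply]
    exact h.W0)
  have hW2 : PowerSeries.X ^ 2 ∣ W := by
    obtain ⟨T', hT'⟩ := hT
    obtain ⟨W', hW'⟩ := hW
    refine ⟨PowerSeries.X * T' ^ 3 + PowerSeries.C a * T' * W' + PowerSeries.C b * W' ^ 2, ?_⟩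
    have h2 := h.curve
    rw [h2]
    rw [hT', hW']
    ring
  have h3 : PowerSeries.coeff 1 W = 0 := (PowerSeries.X_pow_dvd_iff).1 hW2 1 (by norm_num)
  have h4 : T = PowerSeries.C e * W := sub_eq_zero.1 h0
  apply hu
  rw [← h.T1, h4, PowerSeries.coeff_C_mul, h3, mul_zero]

theorem tAsm (hKf : S_Kf) (hF2 : S_F2) (hPsi : S_Psi) (hFH : S_FH) : S_F := by
  intro n t _ f M k m R hm hR hRC hlw hmt χ hχ P hP hk hty
  by_contra hcon
  have hcon' : ∀ a b c d : ℤ, G0 M a b c d → (M : ℤ) ∣ d - 1 →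
      MP P (xs P f k m R χ (b / d) - xs P f k m R χ 0) := by
    intro a b c d h1 h2
    by_contra h3
    exact hcon ⟨a, b, c, d, h1, h2, h3⟩
  have hPp : P.IsPrime := hP.1.1
  obtain ⟨hlv, R2, hR2, hRC2, hlv2⟩ := hlw
  obtain ⟨-, -, ⟨σ, hσ⟩, -, -, -, -, ⟨c, hc⟩, -⟩ := hKf n t f hm.odd hm.dvd
  obtain ⟨N0, β, hβ, hV, hU, hper⟩ :=
    hF2 n t f M k m R R2 hm hmt hR hRC hlv hR2 hRC2 hlv2 χ hχ P hP hk hty σ hσ c hc hcon'
  have hU0 : cF f m R2 σ c N0 β 1 ≠ 0 := by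
    intro h
    have h1 := DI.UP.ne_zero hU
    rw [h, zero_div] at h1
    exact h1 rfl
  obtain ⟨Ψ, hmero, hinv, hcusp, T, W, ψ, Y, j, L, hL, hψL, hTW, hrel, hsum⟩ :=
    hPsi n t f M m R2 hm hR2 hRC2 hlv2 σ hσ c hc N0 β hβ hU0
  have hψ0 : ψ ≠ 0 := Asm_ne hTW (by
    unfold uF
    rw [PowerSeries.coeff_mk]
    exact hU0) hrel
  have hM : NeZero (4 * M) := ⟨by
    have := hlv.odd.pos
    omega⟩
  obtain ⟨L', -, hfin', Q1, Q2, -, hQ2, hQ, hco⟩ := DIF5.tW2 (4 * M) io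
    (DI.F.VS hP.1.1 hP.1.2) L Ψ ψ j Y hmero
    (fun g hg z => by
      obtain ⟨h1, h2⟩ := Asm_g0 hg
      obtain ⟨α, α', hpar, hz⟩ := hper _ _ _ _ h1 h2
      have hz' : 0 < (-(starRingEnd ℂ) (z : ℂ)).im := by
        rw [Complex.neg_im, Complex.conj_im, neg_neg]
        exact z.im_pos
      have e1 := (hz (z : ℂ) z.im_pos).1
      have e2 := (hz _ hz').2
      rw [← g0_conj, ← Asm_co] at e2
      rw [← Asm_co] at e1
      exact hinv (z : ℂ) _ z.im_pos (g • z).im_pos α α' hpar e1 e2)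
    hcusp hψ0 hψL
    (fun z hz => by
      have h := hsum (z : ℂ) hz
      rw [Asm_qq]
      exact h)
  exact hFH n t f k m R2 hm hR2 hRC2 P hP hk σ hσ c hc N0 β hβ hV hU T W ψ Q1 Q2 hTW
    hrel hQ2 hQ L' hfin' (fun i => (hco i).1) (fun i => (hco i).2.2.1) (fun i => (hco i).2.1)
    (fun i => (hco i).2.2.2)

end Pool.Agent.DN.F
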