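import Pool.Agent.Lib.DN.F.SpecL

set_option autoImplicit false

noncomputable section

namespace Pool.Agent.DN.F

open Pool.Agent.MuZ Pool.Agent.FW NumberField IsDedekindDomain Pool.Agent.DN
open Pool.Agent.DI (io ofC io_inj exists_io io_ofC ofC_io VP MP UP TP ex)

/-- The framing is not `0`. -/
theorem fr_ne (hR1 : S_R1) {n t : ℕ} [Ine n t] {b : Ideal (OO n t)} (hb : G15 b) : fr b ≠ 0 := by
  obtain ⟨h1, h2⟩ := ((hR1.1 n t).1 b hb).2.2.2 b hb
  intro h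
  apply h2
  apply io_inj
  rw [h1, h, div_zero, map_zero]

/-- The quotients of the framings. -/
theorem rO_io (hR1 : S_R1) {n t : ℕ} [Ine n t] {b b' : Ideal (OO n t)} (hb : G15 b) (hb' : G15 b') :
    io (rO b b') = fr b' / fr b := (((hR1.1 n t).1 b hb).2.2.2 b' hb').1

theorem rO_ne (hR1 : S_R1) {n t : ℕ} [Ine n t] {b b' : Ideal (OO n t)} (hb : G15 b) (hb' : G15 b') :
    rO b b' ≠ 0 := (((hR1.1 n t).1 b hb).2.2.2 b' hb').2

theorem rO_mul (hR1 : S_R1) {n t : ℕ} [Ine n t] {b b' : Ideal (OO n t)} (hb : G15 b) (hb' : G15 b') :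
    rO b b' * rO b' b = 1 := by
  apply io_inj
  have h1 := fr_ne hR1 hb
  have h2 := fr_ne hR1 hb'
  rw [map_mul, rO_io hR1 hb hb', rO_io hR1 hb' hb, map_one]
  field_simp

theorem tCls (hR1 : S_R1) (hHm : S_Hm) (hAl : S_Al) : S_Cls := by
  intro n t _ f m b b' hm hb hb' hR j
  obtain ⟨α, α', h1, h2, h3, h4, h5⟩ := ray_norm hR
  obtain ⟨-, hf1, hc1⟩ := hHm n t f m b hm hb α h1 h3
  obtain ⟨-, hf2, hc2⟩ := hHm n t f m b' hm hb' α' h2 h4
  have hG := fb_15 hm.dvd hb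
  have hG' := fb_15 hm.dvd hb'
  have hn := fr_ne hR1 hG
  have hn' := fr_ne hR1 hG'
  apply io_inj
  rw [map_mul, map_mul, rO_io hR1 hG Eb.g15_top, rO_io hR1 hG' Eb.g15_top,
    (hAl n t f m b hm hb j).2, (hAl n t f m b' hm hb' j).2]
  have e1 : toC α * fr b = toC α' * fr b' := by rw [← hf1, ← hf2, h5]
  have e2 : toC α * cM (2 * f) m b j = toC α' * cM (2 * f) m b' j := by rw [← hc1 j, ← hc2 j, h5]
  have hα : toC α ≠ 0 := fun h => h1 (toC_eq_zero.1 h)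
  rw [div_mul_eq_mul_div, div_mul_eq_mul_div, div_eq_div_iff hn hn']
  refine mul_left_cancel₀ hα ?_
  linear_combination (fr (⊤ : Ideal (OO n t)) * fr b') * e2 -
    (fr (⊤ : Ideal (OO n t)) * cM (2 * f) m b' j) * e1

end Pool.Agent.DN.F
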