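import Pool.Agent.Lib.DN.F.SpecG

/-!
# Theorem DN, part F, module `Cus`: the cusps (adapted from `DT/F/Cus.lean`)
-/

set_option autoImplicit false
set_option linter.unusedSectionVars false

open scoped Pointwise Topology
open Filter

noncomputable section

namespace Pool.Agent.DN.F

open Pool.Agent.MuZ Pool.Agent.FW NumberField IsDedekindDomain Pool.Agent.DN
open Pool.Agent.DI (io ofC io_inj exists_io io_ofC ofC_io VP MP UP TP ex)

private theorem Cus_analytic (c0 : ℂ) (cf : ℕ → ℂ) (C : ℝ) (h : ∀ j, ‖cf j‖ ≤ C * (j + 1) ^ 3) :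
    AnalyticAt ℂ (fun s : ℂ => c0 + ∑' j : ℕ, cf j * s ^ (j + 1)) 0 := by
  have hs0 : Summable fun j : ℕ => (j : ℝ) ^ 3 * (1 / 2 : ℝ) ^ j :=
    summable_pow_mul_geometric_of_norm_lt_one 3 (by norm_num)
  have hs1 : Summable fun j : ℕ => ((j + 1 : ℕ) : ℝ) ^ 3 * (1 / 2 : ℝ) ^ (j + 1) :=
    (summable_nat_add_iff (f := fun j : ℕ => (j : ℝ) ^ 3 * (1 / 2 : ℝ) ^ j) 1).2 hs0
  have hs2 : Summable fun j : ℕ => C * (((j + 1 : ℕ) : ℝ) ^ 3 * (1 / 2 : ℝ) ^ (j + 1)) :=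
    hs1.mul_left C
  have hd : DifferentiableOn ℂ (fun s : ℂ => ∑' j : ℕ, cf j * s ^ (j + 1))
      (Metric.ball (0 : ℂ) (1 / 2)) := by
    refine Complex.differentiableOn_tsum_of_summable_norm hs2 (fun j => ?_) Metric.isOpen_ball ?_
    · fun_prop
    · intro j w hw
      rw [mem_ball_zero_iff] at hw
      rw [norm_mul, norm_pow]
      have h1 := h j
      have h2 : ‖w‖ ^ (j + 1) ≤ (1 / 2 : ℝ) ^ (j + 1) :=
        pow_le_pow_left₀ (norm_nonneg _) hw.le _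
      calc ‖cf j‖ * ‖w‖ ^ (j + 1) ≤ (C * (j + 1) ^ 3) * (1 / 2 : ℝ) ^ (j + 1) :=
            mul_le_mul h1 h2 (by positivity) ((norm_nonneg _).trans h1)
        _ = C * (((j + 1 : ℕ) : ℝ) ^ 3 * (1 / 2 : ℝ) ^ (j + 1)) := by
            push_cast
            ring
  have ha : AnalyticAt ℂ (fun s : ℂ => ∑' j : ℕ, cf j * s ^ (j + 1)) 0 :=
    hd.analyticAt (Metric.isOpen_ball.mem_nhds (Metric.mem_ball_self (by norm_num)))
  exact analyticAt_const.add ha

private theorem Cus_ex (j : ℕ) (z : ℂ) (M : ℂ) :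
    ex ((j + 1) * z / M) = (ex (z / M)) ^ (j + 1) := by
  unfold ex
  rw [← Complex.exp_nat_mul]
  congr 1
  push_cast
  ring

theorem tCus (hC3 : S_C3) : S_Cus := by
  intro n t _ f M m R hm hR hL σ N0 β a b c d hdet
  have h : ∀ b' ∈ R, ∃ al : ℂ → ℂ, AnalyticAt ℂ al 0 ∧ ∀ z : ℂ, 0 < z.im →
      ThM (2 * f) m b' ((a * z + b) / (c * z + d)) = al (ex (z / (4 * M : ℕ))) := by
    intro b' hb'
    obtain ⟨c0, cf, C, hcf, hsum⟩ :=
      hC3 n t f M m b' hm (hR b' hb') (lv_one hL hb') a b c d hdet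
    refine ⟨_, Cus_analytic c0 cf C hcf, fun z hz => ?_⟩
    have h1 := (hsum z hz).tsum_eq
    simp only [Cus_ex] at h1
    rw [h1]
    ring
  choose! al hal1 hal2 using h
  refine ⟨fun s => N0 * ∑ b' ∈ R, io (σ b' β) * al b' s, ?_, fun z hz => ?_⟩
  · refine analyticAt_const.mul (Finset.analyticAt_fun_sum R fun b' hb' => ?_)
    exact analyticAt_const.mul (hal1 b' hb')
  · unfold AF
    congr 1
    refine Finset.sum_congr rfl fun b' hb' => ?_
    rw [hal2 b' hb' z hz]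

end Pool.Agent.DN.F
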