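import Pool.Agent.Lib.DN.F.SpecA

/-!
# Theorem DN, part F: module `F1` (`S_F1`)
-/

set_option autoImplicit false
set_option linter.unusedSectionVars false

open scoped Pointwise Topology MatrixGroups
open Filter

noncomputable section

namespace Pool.Agent.DN.FA

open Pool.Agent.MuZ Pool.Agent.FW NumberField IsDedekindDomain Pool.Agent.DN
open Pool.Agent.DI (io ofC io_inj exists_io io_ofC ofC_io VP MP UP TP ex)

private theorem F1_neg (b d : ℤ) : -((b : ℚ) / d) = ((-b : ℤ) : ℚ) / d := by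
  push_cast
  ring

private theorem F1_two (b d : ℤ) : 2 * ((b : ℚ) / d) = ((2 * b : ℤ) : ℚ) / d := by
  push_cast
  ring

theorem tF1 (hE1 : S_E1) (hKf : S_Kf) (hKp : S_Kp) (hKP : S_KP) (hGc : S_Gc) (hYE : S_YE)
    (hKap : S_Kap) (hSm : S_Sm) (hBet : S_Bet) (hPb : S_Pb) : S_F1 := by
  intro n t _ f M k m R R2 hm hFR hR hLv hFR2 hR2 hLv2 χ hχ P hP hk hTy σ hσ hyp
  have hPp : P.IsPrime := hP.1.1
  have hf := hm.odd
  have h15 := hm.dvd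
  obtain ⟨k1, -⟩ := hKf n t f hf h15
  obtain ⟨-, -, hst, -⟩ := k1 f (Or.inl rfl)
  obtain ⟨-, -, -, hgal2⟩ := k1 (2 * f) (Or.inr rfl)
  obtain ⟨g1, g2, g3, g4, g5⟩ := hGc n t f hf h15
  have hpsi : ∀ τ ∈ GK n t, ∃ a : Ideal (OO n t), Psi τ (2 * f) a := fun τ hτ =>
    (hE1 n t (2 * f) (two_f hf) (Dvd.dvd.mul_left h15 2)).1 τ hτ
  obtain ⟨kap1, -, -⟩ := hKap n t f k hf h15 χ hχ P hP hk hTy
  have hM3 : 3 ≤ M := hLv.three
  have hkfull : Kf n t f ≤ Kf n t (2 * f) := (hKf n t f hf h15).2.1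
  -- the numbers `w_g`
  have hden : ∀ b d : ℤ, (M : ℤ) ∣ d - 1 → ((b : ℚ) / d).den.Coprime M := fun b d hd => den_cop hd b
  have h0 : (0 : ℚ).den.Coprime M := by
    rw [Rat.den_zero]
    exact Nat.coprime_one_left M
  have hwK : ∀ b d : ℤ, (M : ℤ) ∣ d - 1 → wg f k m b d ∈ Kf n t f := by
    intro b d hd
    have e1 := (hYE n t f M k m R hm hFR hLv hk _ (hden b d hd)).1
    have e2 := (hYE n t f M k m R hm hFR hLv hk _ (hden (-b) d hd)).1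
    have e3 := (hYE n t f M k m R hm hFR hLv hk _ h0).1
    rw [← F1_neg] at e2
    unfold wg
    exact sub_mem (add_mem e1 e2) (mul_mem (by exact_mod_cast natCast_mem (Kf n t f) 2) e3)
  have hwV : ∀ b d : ℤ, (M : ℤ) ∣ d - 1 → ∀ Q : Ideal ZZ, Ab2 Q → ∀ τ ∈ GK n t,
      VP Q (τ (wg f k m b d)) := by
    intro b d hd Q hQ τ hτ
    have hQp : Q.IsPrime := hQ.1.1
    have e1 := (hYE n t f M k m R hm hFR hLv hk _ (hden b d hd)).2.1 Q hQ τ hτ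
    have e2 := (hYE n t f M k m R hm hFR hLv hk _ (hden (-b) d hd)).2.1 Q hQ τ hτ
    have e3 := (hYE n t f M k m R hm hFR hLv hk _ h0).2.1 Q hQ τ hτ
    rw [← F1_neg] at e2
    unfold wg
    rw [map_sub, map_add, map_mul, map_ofNat]
    exact DI.VP.sub (DI.VP.add e1 e2) (DI.VP.mul (by exact_mod_cast DI.VP.nat 2) e3)
  -- the units `rO ⊤ a`
  have hrU : ∀ a : Ideal (OO n t), FB f a → ∀ Q : Ideal ZZ, Ab2 Q → ∀ τ ∈ GK n t,
      UP Q (τ (rO ⊤ a)) := by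
    intro a ha Q hQ τ hτ
    obtain ⟨a', ha'⟩ := hpsi τ hτ
    have e1 := (g1 τ hτ a' ha' ⊤ (fb_top f)).2 a ha
    rw [Ideal.mul_top] at e1
    rw [e1, mul_comm a' a]
    exact (g4 a ha).2.2.1 a' (fb_psi ha') Q hQ
  have hrU1 : ∀ a : Ideal (OO n t), FB f a → ∀ Q : Ideal ZZ, Ab2 Q → ∀ τ ∈ GK n t,
      UP Q (τ (rO ⊤ a ^ (1 + 2 * k))) := by
    intro a ha Q hQ τ hτ
    have hQp : Q.IsPrime := hQ.1.1
    rw [map_pow]
    exact DI.UP.pow (hrU a ha Q hQ τ hτ) _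
  -- the set `S`
  let S : Set Om := {w | ∃ τ ∈ GK n t, ∃ a' : Ideal (OO n t), Psi τ (2 * f) a' ∧
    ∃ a b c d : ℤ, G0 M a b c d ∧ (M : ℤ) ∣ d - 1 ∧ w = rO ⊤ a' ^ (1 + 2 * k) * τ (wg f k m b d)}
  have hS1 : ∀ w ∈ S, w ∈ Kf n t f ∧ ∀ Q : Ideal ZZ, Ab2 Q → ∀ τ ∈ GK n t, VP Q (τ w) := by
    rintro w ⟨τ', hτ', a', ha', a, b, c, d, h1, h2, rfl⟩
    refine ⟨mul_mem (pow_mem (g4 a' (fb_psi ha')).1 _) (hst τ' hτ' _ (hwK b d h2)),
      fun Q hQ τ hτ => ?_⟩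
    have hQp : Q.IsPrime := hQ.1.1
    rw [map_mul]
    exact DI.VP.mul (hrU1 a' (fb_psi ha') Q hQ τ hτ).1
      (hwV b d h2 Q hQ (τ * τ') (mul_mem hτ hτ'))
  have hS2 : ∀ τ ∈ GK n t, ∃ μ ∈ Kf n t f,
      (∀ Q : Ideal ZZ, Ab2 Q → ∀ τ' ∈ GK n t, UP Q (τ' μ)) ∧ ∀ w ∈ S, μ * τ w ∈ S := by
    intro τ hτ
    obtain ⟨a'', ha''⟩ := hpsi τ hτ
    refine ⟨rO ⊤ a'' ^ (1 + 2 * k), pow_mem (g4 a'' (fb_psi ha'')).1 _,
      fun Q hQ τ' hτ' => hrU1 a'' (fb_psi ha'') Q hQ τ' hτ', ?_⟩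
    rintro w ⟨τ', hτ', a', ha', a, b, c, d, h1, h2, rfl⟩
    refine ⟨τ * τ', mul_mem hτ hτ', a'' * a', Eb.psi_mul ha'' ha', a, b, c, d, h1, h2, ?_⟩
    have e1 := (g1 τ hτ a'' ha'' ⊤ (fb_top f)).2 a' (fb_psi ha')
    rw [Ideal.mul_top] at e1
    have e2 := (g4 ⊤ (fb_top f)).2.2.2.1 a'' (a'' * a') (fb_psi ha'')
      (fb_mul (fb_psi ha'') (fb_psi ha'))
    rw [map_mul, map_pow, e1, ← mul_assoc, ← mul_pow, e2]
    rfl
  have hS3 : ∀ w ∈ S, MP P (∑ b ∈ R, kpp k χ b * σ b w) := by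
    rintro w ⟨τ, hτ, a', ha', a, b, c, d, h1, h2, rfl⟩
    exact hSm n t f M k m R hm hFR hR hLv χ hχ P hP hk hTy σ hσ a b c d h1 h2
      (hyp a b c d h1 h2) τ hτ a' ha'
  -- the class of the leading coefficient
  obtain ⟨b1', hb1', hb1r⟩ : ∃ b1' ∈ R, Ray f (m * b1') ⊤ := by
    obtain ⟨m', hm', hm'', e1⟩ := ray_inv (f_pos hf) hm.ne hm.cop
    obtain ⟨b1', h1, h2⟩ := hR.ex m' hm' hm''
    exact ⟨b1', h1, ray_trans (f_pos hf) (ray_mul (f_pos hf) (ray_refl (f_pos hf) m)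
      (ray_symm (f_pos hf) h2)) e1⟩
  obtain ⟨β₀, hβK, hβ1, hβ2, hβ3⟩ := hBet n t f R hf h15 hFR hR P hP σ hσ (kpp k χ) S
    (fun b hb => (kap1 b (hFR b hb)).2) hS1 hS2 hS3 b1' hb1'
  obtain ⟨N0, hN0, hper⟩ := hPb n t f M k m R R2 hm hFR hR hLv hFR2 hR2 hLv2 hk P hP σ hσ β₀ hβK hβ2
  have h2K : (2 : Om) ∈ Kf n t (2 * f) := by exact_mod_cast natCast_mem (Kf n t (2 * f)) 2
  have hbet : ∀ τ ∈ GK n t, ∀ a : Ideal (OO n t), Psi τ (2 * f) a →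
      2 * τ (bet n t k β₀) / c3 ^ k = (kp a / c3) ^ k * τ β₀ := by
    intro τ hτ a ha
    have e1 := (g1 τ hτ a ha ⊤ (fb_top f)).1
    rw [Ideal.mul_top] at e1
    unfold bet
    rw [map_div₀, map_mul, map_pow, e1, map_ofNat, div_pow]
    ring
  refine ⟨N0, bet n t k β₀, hN0, div_mem (mul_mem (pow_mem g3 k) (hkfull hβK)) h2K, ?_, ?_, ?_⟩
  · intro Q hQ τ hτ
    have hQp : Q.IsPrime := hQ.1.1
    obtain ⟨a, ha⟩ := hpsi τ hτ
    rw [hbet τ hτ a ha]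
    exact DI.VP.mul (DI.VP.pow ((hKp n t Q hQ a ha.ne (fb_30 h15 (fb_psi ha))).1.1) k) (hβ2 Q hQ τ hτ)
  · intro b1 hb1 hray
    have hfb := hFR2 b1 hb1
    rw [hbet _ (hσ.mem b1 hfb) b1 (hσ.psi b1 hfb)]
    have h3 : Ray f b1 b1' := by
      refine ray_cancel' (f_pos hf) hm.ne hm.cop ?_
      exact ray_trans (f_pos hf) (ray_f hf hray) (ray_symm (f_pos hf) hb1r)
    rw [(g5 σ hσ f (Or.inl rfl) β₀ hβK).1 b1 b1' hfb (hFR b1' hb1') h3]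
    exact DI.UP.mul (DI.UP.pow (hKp n t P hP b1 hfb.ne (fb_30 h15 hfb)).1 k) hβ1
  · intro a b c d h1 h2
    obtain ⟨α, hα1, hα2⟩ := hper a b c d h1 h2
    obtain ⟨α', hα'1, hα'2⟩ := hper a (-b) (-c) d (g0_inv h1) h2
    refine ⟨α, α', ?_, fun z hz => ⟨hα2 z hz, ?_⟩⟩
    · rw [← (hKP n t P hP).2.1, toO_add, ← hα1, ← hα'1]
      obtain ⟨c', h3, h4⟩ := g0_half h1 h2
      have e1 : (N0 : Om) * perA f k m R σ β₀ b d + (N0 : Om) * perA f k m R σ β₀ (-b) d =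
          (N0 : Om) * ∑ b' ∈ R, σ b' (β₀ * wg f k m (2 * b) d) := by
        unfold perA
        rw [← mul_add, ← Finset.sum_add_distrib]
        congr 1
        refine Finset.sum_congr rfl fun b' _ => ?_
        rw [← map_add, F1_two, F1_two]
        unfold wg
        rw [F1_neg]
        congr 1
        rw [show 2 * -b = -(2 * b) from by ring]
        ring
      rw [e1]
      refine DI.MP.mul_left (DI.VP.nat N0) ?_
      refine hβ3 _ ⟨1, one_mem _, ⊤, Eb.psi_top _, a, 2 * b, c', d, h3, h4, ?_⟩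
      rw [(g4 ⊤ (fb_top f)).2.1, one_pow, one_mul]
      rfl
    · have h3 := hα'2 z hz
      rw [Int.cast_neg, Int.cast_neg, ← sub_eq_add_neg] at h3
      exact h3

end Pool.Agent.DN.FA
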