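import Pool.Agent.Lib.DN.F.SpecA
import Pool.Agent.Lib.DN.F.FHm

/-!
# Theorem DN, part F: `S_F2` (the leading coefficient of `C`)
-/

set_option autoImplicit false
set_option linter.unusedSectionVars false

open scoped Pointwise Topology MatrixGroups
open Filter

noncomputable section

namespace Pool.Agent.DN.FA

open Pool.Agent.MuZ Pool.Agent.FW NumberField IsDedekindDomain Pool.Agent.DN
open Pool.Agent.DI (io ofC io_inj exists_io io_ofC ofC_io VP MP UP TP ex)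
open Pool.Agent.DN.FHm (c3_cube c3_ne c3_mp)

/-- `τ • Q` is above `2`. -/
private theorem F2_ab (τ : Gal(Om/ℚ)) {Q : Ideal ZZ} (hQ : Ab2 Q) : Ab2 (τ • Q) := by
  refine ⟨⟨hQ.1.1.smul _, ?_⟩, ?_⟩
  · intro h
    apply hQ.1.2
    have h1 : Q = τ⁻¹ • (τ • Q) := (inv_smul_smul τ Q).symm
    rw [h1, h, Ideal.pointwise_smul_def, Ideal.map_bot]
  · have h1 := (DI.MP.smul (P := Q) τ (x := (2 : Om))).2 hQ.2
    rwa [map_ofNat] at h1

/-- the valuation of the conjugate of `x`, `x / c3 ^ k` integral at the conjugate prime -/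
private theorem F2_cj {c : Gal(Om/ℚ)} (hcc : c * c = 1) {P : Ideal ZZ} (hP : Ab2 P) {k : ℕ} {x : Om}
    (hx : VP (c • P) (x / c3 ^ k)) : VP P (c x / c3 ^ k) := by
  have hPp : P.IsPrime := hP.1.1
  have hQ := F2_ab c hP
  have hQp : (c • P).IsPrime := hQ.1.1
  have hcinv : ∀ y : Om, c (c y) = y := by
    intro y
    have h1 := congrArg (fun g : Gal(Om/ℚ) => g y) hcc
    exact h1
  have hci : c⁻¹ = c := inv_eq_of_mul_eq_one_left hcc
  -- `c3 / c c3` is a unit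
  have hcc3 : c c3 ^ 3 = 2 := by rw [← map_pow, c3_cube, map_ofNat]
  have hcc0 : c c3 ≠ 0 := fun h => c3_ne ((map_eq_zero c).1 h)
  have hr : (c3 / c c3) ^ 3 = 1 := by
    rw [div_pow, c3_cube, hcc3]
    norm_num
  have hru : UP (c • P) (c3 / c c3) := by
    refine DI.UP.of_pow (n := 3) (by norm_num) ?_
    rw [hr]
    exact DI.UP.one
  have h1 : VP (c • P) (x / c c3 ^ k) := by
    have e : x / c c3 ^ k = x / c3 ^ k * (c3 / c c3) ^ k := by
      have h3 := c3_ne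
      rw [div_pow]
      field_simp
    rw [e]
    exact DI.VP.mul hx (DI.VP.pow hru.1 k)
  have h2 := (DI.VP.smul (P := c • P) c (x := x / c c3 ^ k)).2 h1
  rw [smul_smul, hcc, one_smul, map_div₀, map_pow, hcinv] at h2
  exact h2

private theorem F2_toC (n t : ℕ) [Ine n t] {f : ℕ} {m : Ideal (OO n t)} {R : Finset (Ideal (OO n t))}
    (hFR : FR f R) {σ : Ideal (OO n t) → Gal(Om/ℚ)} (hσ : IsSig n t f σ) (N0 : ℕ) (β : Om) :
    (∀ z : ℂ, AF f m R σ N0 (wO n t * β) z = wC n t * AF f m R σ N0 β z) ∧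
    ∀ j : ℕ, aF f m R σ N0 (wO n t * β) j = wO n t * aF f m R σ N0 β j := by
  have key : ∀ b ∈ R, σ b (wO n t * β) = wO n t * σ b β := by
    intro b hb
    rw [map_mul, mem_GK_iff.1 (hσ.mem b (hFR b hb))]
  constructor
  · intro z
    unfold AF
    rw [Finset.mul_sum, Finset.mul_sum, Finset.mul_sum]
    refine Finset.sum_congr rfl fun b hb => ?_
    rw [key b hb, map_mul, io_wO]
    ring
  · intro j
    unfold aF
    rw [Finset.mul_sum, Finset.mul_sum, Finset.mul_sum]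
    refine Finset.sum_congr rfl fun b hb => ?_
    rw [key b hb]
    ring

/-- **S_F2.** -/
theorem tF2 (hKf : S_Kf) (hF1 : S_F1) (hLead : S_Lead) : S_F2 := by
  intro n t _ f M k m R R2 hm hmt hFR hR hLv hFR2 hR2 hLv2 χ hχ P hP hk hTy σ hσ c hc hyp
  have hPp : P.IsPrime := hP.1.1
  have hf := hm.odd
  have h15 := hm.dvd
  obtain ⟨N0, β, hN0, hβ, hV, hU, hper⟩ :=
    hF1 n t f M k m R R2 hm hFR hR hLv hFR2 hR2 hLv2 χ hχ P hP hk hTy σ hσ hyp
  obtain ⟨k1, -, -, -, -, -, -, -, k9⟩ := hKf n t f hf h15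
  obtain ⟨-, kw, -, -⟩ := k1 (2 * f) (Or.inr rfl)
  obtain ⟨hcc, hcw⟩ := k9 c hc
  have ht1 : (t : Om) = 1 := by
    rw [(inferInstance : Ine n t).one, Nat.cast_one]
  have hwI : IsIntegral ℤ (wO n t) := by
    rw [← toO_wI]
    exact toO_integral _
  have hwV : ∀ Q : Ideal ZZ, Q.IsPrime → VP Q (wO n t) := fun Q hQ => by
    rw [← toO_wI]
    exact toO_VP _
  -- integrality, for `β` and `w β`
  have hL : ∀ β' ∈ Kf n t (2 * f), (∀ Q : Ideal ZZ, Ab2 Q → ∀ τ ∈ GK n t, VP Q (2 * τ β' / c3 ^ k)) →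
      ∀ j : ℕ, VP P (aF f m R2 σ N0 β' j / c3 ^ k) ∧ VP P (c (aF f m R2 σ N0 β' j) / c3 ^ k) := by
    intro β' hβ' h1 j
    obtain ⟨-, -, -, l4, -⟩ := hLead n t f m R2 hm hFR2 hR2 σ hσ N0 β' hβ'
    have h2 : ∀ Q : Ideal ZZ, Ab2 Q → VP Q (aF f m R2 σ N0 β' j / c3 ^ k) := fun Q hQ =>
      l4 Q hQ (c3 ^ k) (pow_ne_zero k c3_ne)
        (fun b hb => h1 Q hQ (σ b) (hσ.mem b (hFR2 b hb))) j
    exact ⟨h2 P hP, F2_cj hcc hP (h2 _ (F2_ab c hP))⟩
  obtain ⟨-, -, -, -, l5⟩ := hLead n t f m R2 hm hFR2 hR2 σ hσ N0 β hβ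
  obtain ⟨b1, hb1, hb1r, u, hu1, hu2⟩ := l5 hmt hN0
  have ha1 : UP P (aF f m R2 σ N0 β 1 / c3 ^ k) := by
    rw [hu1, mul_div_assoc]
    exact DI.UP.mul (hu2 P hP) (hU b1 hb1 hb1r)
  obtain ⟨w1, w2⟩ := F2_toC n t (m := m) hFR2 hσ N0 β
  by_cases hcase : UP P (cF f m R2 σ c N0 β 1 / c3 ^ k)
  · refine ⟨N0, β, hβ, fun j => ?_, hcase, hper⟩
    obtain ⟨v1, v2⟩ := hL β hβ hV j
    unfold cF
    rw [add_div]
    exact DI.VP.add v1 v2
  · -- `w β`
    have hV' : ∀ Q : Ideal ZZ, Ab2 Q → ∀ τ ∈ GK n t, VP Q (2 * τ (wO n t * β) / c3 ^ k) := by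
      intro Q hQ τ hτ
      have hQp : Q.IsPrime := hQ.1.1
      have e : 2 * τ (wO n t * β) / c3 ^ k = wO n t * (2 * τ β / c3 ^ k) := by
        rw [map_mul, mem_GK_iff.1 hτ]
        ring
      rw [e]
      exact DI.VP.mul (hwV Q hQ.1.1) (hV Q hQ τ hτ)
    have hβ' : wO n t * β ∈ Kf n t (2 * f) := mul_mem kw hβ
    refine ⟨N0, wO n t * β, hβ', fun j => ?_, ?_, ?_⟩
    · obtain ⟨v1, v2⟩ := hL _ hβ' hV' j
      unfold cF
      rw [add_div]
      exact DI.VP.add v1 v2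
    · obtain ⟨v1, v2⟩ := hL β hβ hV 1
      have hm1 : MP P (cF f m R2 σ c N0 β 1 / c3 ^ k) := by
        by_contra h
        apply hcase
        refine ⟨?_, h⟩
        unfold cF
        rw [add_div]
        exact DI.VP.add v1 v2
      -- modulo `P`
      refine DI.UP.congr (x := -(aF f m R2 σ N0 β 1 / c3 ^ k)) ha1.neg ?_
      have e : cF f m R2 σ c N0 (wO n t * β) 1 / c3 ^ k - -(aF f m R2 σ N0 β 1 / c3 ^ k) =
          (1 - wO n t) * (cF f m R2 σ c N0 β 1 / c3 ^ k) +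
            2 * (wO n t * (aF f m R2 σ N0 β 1 / c3 ^ k)) := by
        unfold cF
        rw [w2, map_mul, hcw, ht1]
        ring
      rw [e]
      exact DI.MP.add (DI.MP.mul_left (DI.VP.sub DI.VP.one (hwV P hPp)) hm1)
        (DI.MP.mul_right hP.2 (DI.VP.mul (hwV P hPp) ha1.1))
    · intro a b c' d h1 h2
      obtain ⟨α, α', h3, h4⟩ := hper a b c' d h1 h2
      refine ⟨wI n t * α, wI n t * α', ?_, fun z hz => ?_⟩
      · rw [← mul_add]
        exact h3.mul_left _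
      · obtain ⟨h5, h6⟩ := h4 z hz
        rw [w1, w1, w1, h5, h6, toC_mul, toC_mul, toC_wI]
        exact ⟨by ring, by ring⟩

end Pool.Agent.DN.FA
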