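import Pool.Agent.Lib.DN.F.SpecA

/-!
# Theorem DN, part F, module `Gc`: the Galois action on the numbers `kp` and on the quotients of the framings
-/

set_option autoImplicit false

open scoped Pointwise

noncomputable section

namespace Pool.Agent.DN.FA

open Pool.Agent.MuZ Pool.Agent.FW NumberField IsDedekindDomain Pool.Agent.DN
open Pool.Agent.DI (io ofC io_inj exists_io io_ofC ofC_io VP MP UP TP ex)

private theorem Gc_half {n t : ℕ} [SqN n t] (f : ℕ) (b : Ideal (OO n t)) :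
    ((2 * f : ℕ) : ℂ) * (1 / 2) ∈ Lam b := by
  have e : ((2 * f : ℕ) : ℂ) * (1 / 2) = toC ((f : ℕ) : OO n t) := by
    rw [toC_nat]
    push_cast
    ring
  rw [e]
  have h5 : toC ((f : ℕ) : OO n t) ∈ Lam (⊤ : Ideal (OO n t)) := lam_top.2 ⟨_, rfl⟩
  exact lam_anti le_top h5

private theorem Gc_kp {n t : ℕ} [SqN n t] {f : ℕ} {τ : Gal(Om/ℚ)} {a b : Ideal (OO n t)}
    (h : Psi τ (2 * f) a) (hb : G15 b) : τ (kp b) = kp (a * b) := by
  unfold kp
  rw [map_add, map_mul, map_div₀, map_pow, map_ofNat, map_ofNat, h.a1 b hb.ne hb.cop,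
    h.xx b hb.ne hb.cop _ (Gc_half f b)]

theorem tGc (hE1 : S_E1) (hE7 : S_E7) (hE10 : S_E10) (hB7 : S_B7) (hR1 : S_R1) (hD2 : S_D2)
    (hKf : S_Kf) : S_Gc := by
  intro n t _ f hf h15
  have h2f : 0 < 2 * f := two_f hf
  have hf0 : 0 < f := f_pos hf
  have h152 : 15 ∣ 2 * f := h15.mul_left 2
  obtain ⟨-, -, e3, -, -⟩ := hE1 n t (2 * f) h2f h152
  have gtop : G15 (⊤ : Ideal (OO n t)) := Eb.g15_top
  have hB : ∀ b b' : Ideal (OO n t), FB f b → FB f b' → Ray (2 * f) b b' → kp b = kp b' := by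
    intro b b' hb _ hr
    obtain ⟨τ, -, hτ⟩ := hE7 n t (2 * f) b h2f h152 hb.ne hb.cop
    have h1 := Gc_kp hτ gtop
    have h2 := Gc_kp (e3 τ b b' hτ hr) gtop
    rw [Ideal.mul_top] at h1 h2
    rw [← h1, h2]
  refine ⟨fun τ _ a ha b hb => ⟨Gc_kp ha (fb_g15 h15 hb), fun b' hb' => ?_⟩, hB, ?_, ?_, ?_⟩
  · exact ((hE10 n t τ (2 * f) a h2f h152 ha).1 b (fb_g15 h15 hb)).2 b' (fb_g15 h15 hb')
  · intro τ _ a ha hr
    have h1 := Gc_kp ha gtop
    rw [Ideal.mul_top] at h1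
    rw [h1]
    exact hB a ⊤ (fb_psi ha) (fb_top f) hr
  · intro b hb
    have gb : G15 b := fb_g15 h15 hb
    have hfr : ∀ c c' : Ideal (OO n t), G15 c → G15 c' → io (rO c c') = fr c' / fr c ∧ fr c ≠ 0 := by
      intro c c' hc hc'
      obtain ⟨-, -, -, r4⟩ := (hR1.1 n t).1 c hc
      obtain ⟨h1, h2⟩ := r4 c' hc'
      refine ⟨h1, fun h3 => h2 ?_⟩
      apply io_inj
      rw [h1, h3, div_zero, map_zero]
    refine ⟨?_, ?_, ?_, ?_, ?_⟩
    · intro τ _ a ha hr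
      obtain ⟨-, -, e3', -, -⟩ := hE1 n t f hf0 h15
      have h1 := ((hE10 n t τ f ⊤ hf0 h15 (e3' τ a ⊤ ha hr)).1 ⊤ gtop).2 b gb
      rw [Ideal.top_mul, Ideal.top_mul] at h1
      exact h1
    · apply io_inj
      obtain ⟨h1, h2⟩ := hfr b b gb gb
      rw [h1, div_self h2, map_one]
    · intro a ha Q hQ
      obtain ⟨-, -, -, -, -, -, h7⟩ := hD2 n t Q hQ a (fb_g15 h15 ha)
      exact h7 b hb.ne (fb_two hb) gb.cop
    · intro b' b'' hb' hb''
      obtain ⟨h1, h2⟩ := hfr b b' gb (fb_g15 h15 hb')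
      obtain ⟨h3, h4⟩ := hfr b' b'' (fb_g15 h15 hb') (fb_g15 h15 hb'')
      obtain ⟨h5, -⟩ := hfr b b'' gb (fb_g15 h15 hb'')
      apply io_inj
      rw [map_mul, h1, h3, h5]
      field_simp
    · intro α hα hd
      have hα15 : (15 : OO n t) ∣ α - 1 := by
        refine dvd_trans ?_ hd
        obtain ⟨j, hj⟩ := h15
        exact ⟨j, by rw [hj]; push_cast; ring⟩
      have hα3 : (3 : OO n t) ∣ α - 1 := dvd_trans ⟨5, by norm_num⟩ hα15
      have hα5 : (5 : OO n t) ∣ α - 1 := dvd_trans ⟨3, by norm_num⟩ hα15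
      obtain ⟨-, -, h7⟩ := hB7 n t b gb.ne
      obtain ⟨h8, -⟩ := (h7 gb.cop).1 α hα hα3 (Or.inl hα5)
      have gs : G15 (sp α * b) := by
        refine Eb.g15_mul ⟨Eb.ne_sp hα, ?_⟩ gb
        refine ((aO6 n t).2.2.2.1 15 α (by norm_num)).2 ?_
        refine cop_congr (a := 1) ?_ (cop_one 15)
        have e : (1 : OO n t) - α = -(α - 1) := by ring
        rw [e]
        exact (dvd_neg).2 (by exact_mod_cast hα15)
      obtain ⟨h1, h2⟩ := hfr b (sp α * b) gb gs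
      apply io_inj
      rw [h1, h8, io_toO, mul_div_assoc, div_self h2, mul_one]
  · intro σ hσ N hN x hx
    obtain ⟨hK, -⟩ := hKf n t f hf h15
    obtain ⟨-, -, -, hiff⟩ := hK N hN
    have hN0 : 0 < N := by
      rcases hN with rfl | rfl
      · exact hf0
      · exact h2f
    have hND : N ∣ 2 * f := by
      rcases hN with rfl | rfl
      · exact Dvd.intro_left 2 rfl
      · exact dvd_rfl
    refine ⟨fun b b' hb hb' hr => ?_, fun τ hτ a ha b hb => ⟨?_, ?_⟩⟩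
    · exact (hiff (σ b) (hσ.mem b hb) (σ b') (hσ.mem b' hb') b b' (Eb.psi_level (hσ.psi b hb) hND)
        (Eb.psi_level (hσ.psi b' hb') hND)).2 hr x hx
    · have hab : FB f (a * b) := fb_mul (fb_psi ha) hb
      exact (hiff (τ * σ b) (mul_mem hτ (hσ.mem b hb)) (σ (a * b)) (hσ.mem _ hab) (a * b) (a * b)
        (Eb.psi_level (Eb.psi_mul ha (hσ.psi b hb)) hND)
        (Eb.psi_level (hσ.psi _ hab) hND)).2 (ray_refl hN0 _) x hx
    · have hab : FB f (a * b) := fb_mul (fb_psi ha) hb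
      have h1 : Psi (σ b * τ) (2 * f) (a * b) := by
        rw [mul_comm a b]
        exact Eb.psi_mul (hσ.psi b hb) ha
      exact (hiff (σ b * τ) (mul_mem (hσ.mem b hb) hτ) (σ (a * b)) (hσ.mem _ hab) (a * b) (a * b)
        (Eb.psi_level h1 hND) (Eb.psi_level (hσ.psi _ hab) hND)).2 (ray_refl hN0 _) x hx

end Pool.Agent.DN.FA
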