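import Pool.Agent.Lib.DN.F.SpecG

/-!
# Theorem DN, part F, module `Gt`: the function `G`, `G(v)² = X(2 v) - X(1/2)`
-/

set_option autoImplicit false
set_option linter.unusedSectionVars false

open scoped Pointwise Topology MatrixGroups
open Filter

noncomputable section

namespace Pool.Agent.DN.F

open Pool.Agent.MuZ Pool.Agent.FW NumberField IsDedekindDomain Pool.Agent.DN
open Pool.Agent.DI (io ofC io_inj exists_io io_ofC ofC_io VP MP UP TP ex)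

namespace Gt

theorem open_compl {n t : ℕ} [SqN n t] {b : Ideal (OO n t)} (hb : b ≠ ⊥) : IsOpen ((Lam b)ᶜ : Set ℂ) := by
  have h : ((LP b).lattice : Set ℂ) = Lam b := aL1 n t b hb
  rw [← h]
  exact (LP b).isClosed_lattice.isOpen_compl

/-- `2 z ∈ Lam b` gives `wdC b z = 0`. -/
theorem wd_zero (hB1 : S_B1) {n t : ℕ} [SqN n t] {b : Ideal (OO n t)} (hb : b ≠ ⊥) {z : ℂ}
    (hz : 2 * z ∈ Lam b) : wdC b z = 0 := by
  obtain ⟨-, -, h3, -, h5, -⟩ := hB1 n t b hb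
  by_cases h : z ∈ Lam b
  · exact (h3 z h).2
  · exact (h5 z h).2 hz

/-- The points near `v`. -/
theorem ev {n t : ℕ} [SqN n t] {b : Ideal (OO n t)} (hb : b ≠ ⊥) {p v : ℂ}
    (hv : v ∉ Lam b) (hvp : v + p ∉ Lam b) : ∀ᶠ y in 𝓝 v, y ∉ Lam b ∧ y + p ∉ Lam b := by
  have hO := open_compl hb
  have h1 : ∀ᶠ y in 𝓝 v, y ∉ Lam b := hO.mem_nhds hv
  have hc : Tendsto (fun y : ℂ => y + p) (𝓝 v) (𝓝 (v + p)) :=
    (continuous_id.add continuous_const).tendsto v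
  have h2 : ∀ᶠ y in 𝓝 v, y + p ∉ Lam b := hc.eventually (hO.mem_nhds hvp)
  exact h1.and h2

/-- Differentiation of a constant product. -/
theorem der {F G : ℂ → ℂ} {F' G' v c : ℂ} (hF : HasDerivAt F F' v) (hG : HasDerivAt G G' v)
    (h : ∀ᶠ y in 𝓝 v, F y * G y = c) : F' * G v + F v * G' = 0 := by
  have h1 : HasDerivAt (fun y => F y * G y) (F' * G v + F v * G') v := hF.mul hG
  have h2 : HasDerivAt (fun _ : ℂ => c) 0 v := hasDerivAt_const v c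
  exact h1.unique (h2.congr_of_eventuallyEq h)

variable {n t : ℕ} [Ine n t]

/-- The points of order two. -/
theorem two_pts :
    (2 * (1 / 2 : ℂ) ∈ Lam (⊤ : Ideal (OO n t)) ∧ (1 / 2 : ℂ) ∉ Lam (⊤ : Ideal (OO n t))) ∧
    (2 * (wC n t / 2 : ℂ) ∈ Lam (⊤ : Ideal (OO n t)) ∧ wC n t / 2 ∉ Lam (⊤ : Ideal (OO n t))) ∧
    (1 + wC n t) / 2 ∉ Lam (⊤ : Ideal (OO n t)) ∧ (1 / 2 : ℂ) - wC n t / 2 ∉ Lam (⊤ : Ideal (OO n t)) ∧
    (1 / 2 : ℂ) + wC n t / 2 = (1 + wC n t) / 2 := by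
  obtain ⟨h1, h2, h3, -⟩ := aL7 n t ⊤ Eb.ne_top (Eb.pri_top 2)
  refine ⟨⟨?_, h1⟩, ⟨?_, h2⟩, h3, ?_, by ring⟩
  · rw [lam_top]
    exact ⟨1, by rw [toC_one]; ring⟩
  · rw [lam_top]
    exact ⟨wI n t, by rw [toC_wI]; ring⟩
  · intro h
    apply h3
    have h4 : wC n t ∈ Lam (⊤ : Ideal (OO n t)) := lam_top.2 ⟨wI n t, by rw [toC_wI]⟩
    have h5 := lam_add h h4
    have e : (1 / 2 : ℂ) - wC n t / 2 + wC n t = (1 + wC n t) / 2 := by ring
    rwa [e] at h5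

/-- The relations between the `eᵢ` and `g₂`, `g₃`. -/
theorem rel (hB1 : S_B1) (hB2 : S_B2) (hB4 : S_B4) :
    e1C n t + e2C n t + e3C n t = 0 ∧ e1C n t ≠ e2C n t ∧ e1C n t ≠ e3C n t ∧
    (LP (⊤ : Ideal (OO n t))).g₂ = 4 * (e1C n t ^ 2 + e1C n t * e2C n t + e2C n t ^ 2) ∧
    (LP (⊤ : Ideal (OO n t))).g₃ = -4 * e1C n t * e2C n t * (e1C n t + e2C n t) := by
  obtain ⟨⟨a1, a2⟩, ⟨b1, b2⟩, c2, d2, e⟩ := two_pts (n := n) (t := t)
  have hn : (⊤ : Ideal (OO n t)) ≠ ⊥ := Eb.ne_top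
  obtain ⟨h1, h2, -, -⟩ := hB4 n t ⊤ hn (1 / 2) (wC n t / 2) a1 a2 b1 b2 d2
  have c1 : 2 * ((1 + wC n t) / 2) ∈ Lam (⊤ : Ideal (OO n t)) := by
    rw [lam_top]
    exact ⟨1 + wI n t, by rw [toC_add, toC_one, toC_wI]; ring⟩
  obtain ⟨-, g2, -, -⟩ := hB4 n t ⊤ hn (1 / 2) ((1 + wC n t) / 2) a1 a2 c1 c2 (by
    intro h
    apply b2
    have h3 := lam_neg h
    have e3 : -((1 / 2 : ℂ) - (1 + wC n t) / 2) = wC n t / 2 := by ring
    rwa [e3] at h3)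
  rw [e] at h1
  have p1 := (hB2 n t ⊤ hn (1 / 2) a2).1.1
  have p2 := (hB2 n t ⊤ hn (wC n t / 2) b2).1.1
  rw [wd_zero hB1 hn a1] at p1
  rw [wd_zero hB1 hn b1] at p2
  have q : (e1C n t - e2C n t) *
      ((LP (⊤ : Ideal (OO n t))).g₂ - 4 * (e1C n t ^ 2 + e1C n t * e2C n t + e2C n t ^ 2)) = 0 := by
    unfold e1C e2C
    linear_combination p1 - p2
  have q2 : (LP (⊤ : Ideal (OO n t))).g₂ = 4 * (e1C n t ^ 2 + e1C n t * e2C n t + e2C n t ^ 2) :=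
    sub_eq_zero.1 ((mul_eq_zero.1 q).resolve_left (sub_ne_zero.2 h2))
  refine ⟨h1, h2, g2, q2, ?_⟩
  have p1' : (0 : ℂ) ^ 2 = 4 * e1C n t ^ 3 - (LP (⊤ : Ideal (OO n t))).g₂ * e1C n t -
      (LP (⊤ : Ideal (OO n t))).g₃ := p1
  linear_combination p1' - (e1C n t) * q2

end Gt

open Gt in
theorem tGt (hB1 : S_B1) (hB2 : S_B2) (hB3 : S_B3) (hB4 : S_B4) : S_Gt := by
  intro n t _
  have hn : (⊤ : Ideal (OO n t)) ≠ ⊥ := Eb.ne_top
  obtain ⟨r1, r2, r3, r4, r5⟩ := rel (n := n) (t := t) hB1 hB2 hB4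
  have hfr : fr (⊤ : Ideal (OO n t)) ≠ 0 := ((hB1 n t ⊤ hn).2.2.2.2.2 (Eb.pri_top 15)).1
  refine ⟨?_, fun v hv => ?_, fun v α => ?_, fun v => ?_⟩
  · -- meromorphic
    have h1 : Meromorphic (wpC (⊤ : Ideal (OO n t))) := (LP ⊤).meromorphic_weierstrassP
    have h2 : Meromorphic (wdC (⊤ : Ideal (OO n t))) := (LP ⊤).meromorphic_derivWeierstrassP
    intro z
    have h3 : MeromorphicAt (fun v => (wpC (⊤ : Ideal (OO n t)) v - e1C n t) ^ 2 -
        (e1C n t - e2C n t) * (e1C n t - e3C n t)) z :=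
      (((h1 z).sub (MeromorphicAt.const _ z)).pow 2).sub (MeromorphicAt.const _ z)
    have h4 : MeromorphicAt (fun v => wdC (⊤ : Ideal (OO n t)) v * fr (⊤ : Ideal (OO n t))) z :=
      (h2 z).mul (MeromorphicAt.const _ z)
    exact h3.div h4
  · -- the square
    have hv0 : v ∉ Lam (⊤ : Ideal (OO n t)) := fun h => hv (by
      rw [two_mul]
      exact lam_add h h)
    have hw : wdC (⊤ : Ideal (OO n t)) v ≠ 0 := fun h =>
      hv (((hB1 n t ⊤ hn).2.2.2.2.1 v hv0).1 h)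
    have h1 := ((hB3 n t ⊤ hn).2 v hv).1
    have h2 := (hB2 n t ⊤ hn v hv0).1.1
    have e3 : e3C n t = -(e1C n t + e2C n t) := by linear_combination r1
    have key : (wpC (⊤ : Ideal (OO n t)) (2 * v) - e1C n t) * wdC (⊤ : Ideal (OO n t)) v ^ 2 =
        ((wpC (⊤ : Ideal (OO n t)) v - e1C n t) ^ 2 -
          (e1C n t - e2C n t) * (e1C n t - e3C n t)) ^ 2 := by
      rw [sub_mul, h1, h2, r4, r5, e3]
      ring
    unfold GF XC
    have e1 : wpC (⊤ : Ideal (OO n t)) (1 / 2) = e1C n t := rfl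
    rw [e1, div_pow, mul_pow, ← key]
    field_simp
    ring
  · -- periods
    have h1 := (hB1 n t ⊤ hn).1 v (toC α) (lam_top.2 ⟨α, rfl⟩)
    unfold GF
    rw [h1.1, h1.2]
  · -- the half period
    obtain ⟨⟨a1, a2⟩, ⟨b1, b2⟩, c2, d2, e⟩ := two_pts (n := n) (t := t)
    by_cases hv : 2 * v ∈ Lam (⊤ : Ideal (OO n t))
    · have h2 : 2 * (v + 1 / 2) ∈ Lam (⊤ : Ideal (OO n t)) := by
        rw [mul_add]
        exact lam_add hv a1
      unfold GF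
      rw [wd_zero hB1 hn hv, wd_zero hB1 hn h2]
      simp
    · have hv0 : v ∉ Lam (⊤ : Ideal (OO n t)) := fun h => hv (by
        rw [two_mul]
        exact lam_add h h)
      have hv2 : 2 * (v + 1 / 2) ∉ Lam (⊤ : Ideal (OO n t)) := fun h => hv (by
        have h3 := lam_sub h a1
        have e5 : 2 * (v + 1 / 2) - 2 * (1 / 2 : ℂ) = 2 * v := by ring
        rwa [e5] at h3)
      have hv1 : v + 1 / 2 ∉ Lam (⊤ : Ideal (OO n t)) := fun h => hv2 (by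
        rw [two_mul]
        exact lam_add h h)
      have hw : wdC (⊤ : Ideal (OO n t)) v ≠ 0 := fun h =>
        hv (((hB1 n t ⊤ hn).2.2.2.2.1 v hv0).1 h)
      have hw' : wdC (⊤ : Ideal (OO n t)) (v + 1 / 2) ≠ 0 := fun h =>
        hv2 (((hB1 n t ⊤ hn).2.2.2.2.1 _ hv1).1 h)
      have hT := (hB4 n t ⊤ hn (1 / 2) (wC n t / 2) a1 a2 b1 b2 d2).2.2.2
      rw [e] at hT
      have hev : ∀ᶠ y in 𝓝 v, (wpC (⊤ : Ideal (OO n t)) (y + 1 / 2) - e1C n t) *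
          (wpC (⊤ : Ideal (OO n t)) y - e1C n t) =
            (e1C n t - e2C n t) * (e1C n t - e3C n t) := by
        filter_upwards [ev hn hv0 hv1] with y hy
        have h := hT y hy.1 hy.2
        have h' : (wpC (⊤ : Ideal (OO n t)) (y + 1 / 2) - e1C n t) *
            (wpC (⊤ : Ideal (OO n t)) y - e1C n t) =
            (e2C n t - e1C n t) * (e3C n t - e1C n t) := h
        rw [h']
        ring
      have hd1 : HasDerivAt (fun y => wpC (⊤ : Ideal (OO n t)) (y + 1 / 2) - e1C n t)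
          (wdC (⊤ : Ideal (OO n t)) (v + 1 / 2)) v :=
        (((hB2 n t ⊤ hn _ hv1).1.2.2.2.1).comp_add_const v (1 / 2)).sub_const _
      have hd2 : HasDerivAt (fun y => wpC (⊤ : Ideal (OO n t)) y - e1C n t)
          (wdC (⊤ : Ideal (OO n t)) v) v :=
        ((hB2 n t ⊤ hn _ hv0).1.2.2.2.1).sub_const _
      have hd := der hd1 hd2 hev
      have hD := hev.self_of_nhds
      unfold GF
      rw [← hD, div_eq_div_iff (mul_ne_zero hw' hfr) (mul_ne_zero hw hfr)]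
      generalize wpC (⊤ : Ideal (OO n t)) (v + 1 / 2) - e1C n t = p' at hd ⊢
      generalize wpC (⊤ : Ideal (OO n t)) v - e1C n t = p at hd ⊢
      linear_combination (p' - p) * fr (⊤ : Ideal (OO n t)) * hd

end Pool.Agent.DN.F
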