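import Pool.Agent.Lib.DN.F.Cls

/-!
# Theorem DN, part F, module `Has`: the `q`-expansion
-/

set_option autoImplicit false

open scoped Pointwise Topology

noncomputable section

namespace Pool.Agent.DN.F

open Pool.Agent.MuZ Pool.Agent.FW NumberField IsDedekindDomain Pool.Agent.DN
open Pool.Agent.DI (io ofC io_inj exists_io io_ofC ofC_io VP MP UP TP ex)

private theorem Has_ex (j : ℕ) (z : ℂ) : ex (j * z) = ex z ^ j := by
  unfold ex
  rw [← Complex.exp_nat_mul]
  congr 1
  ring

theorem tHas (hR1 : S_R1) (hC7 : S_C7) (hAl : S_Al) : S_Has := by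
  intro n t _ f m R hm hR σ N0 β
  refine ⟨fun z hz => ?_, ?_⟩
  · have h1 : ∀ b ∈ R, HasSum (fun j : ℕ => io (σ b β) * (fr (⊤ : Ideal (OO n t)) / fr b) *
        cM (2 * f) m b j * ex z ^ j)
        (io (σ b β) * (fr (⊤ : Ideal (OO n t))) * ThM (2 * f) m b z) := by
      intro b hb
      have h2 := ((hC7 n t f m b hm (rc_fb hR hb)).2.2.2.2.2 z hz).mul_left
        (io (σ b β) * fr (⊤ : Ideal (OO n t)))
      have e : (fun j : ℕ => io (σ b β) * fr (⊤ : Ideal (OO n t)) *
          (cM (2 * f) m b j / fr b * ex (j * z))) = fun j : ℕ =>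
          io (σ b β) * (fr (⊤ : Ideal (OO n t)) / fr b) * cM (2 * f) m b j * ex z ^ j := by
        funext j
        rw [Has_ex]
        ring
      rw [e] at h2
      exact h2
    have h2 := (hasSum_sum h1).mul_left (N0 : ℂ)
    have e1 : (N0 : ℂ) * ∑ b ∈ R, io (σ b β) * (fr (⊤ : Ideal (OO n t))) * ThM (2 * f) m b z =
        fr (⊤ : Ideal (OO n t)) * AF f m R σ N0 β z := by
      unfold AF
      rw [Finset.mul_sum, Finset.mul_sum, Finset.mul_sum]
      exact Finset.sum_congr rfl fun b _ => by ring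
    rw [e1] at h2
    have e2 : (fun j : ℕ => io (aF f m R σ N0 β j) * ex z ^ j) = fun j : ℕ => (N0 : ℂ) *
        ∑ b ∈ R, io (σ b β) * (fr (⊤ : Ideal (OO n t)) / fr b) * cM (2 * f) m b j * ex z ^ j := by
      funext j
      unfold aF
      rw [map_mul, map_natCast, map_sum, mul_assoc, Finset.sum_mul]
      congr 1
      refine Finset.sum_congr rfl fun b hb => ?_
      have hfb := rc_fb hR hb
      rw [map_mul, map_mul, (hAl n t f m b hm hfb j).2, rO_io hR1 (fb_15 hm.dvd hfb) Eb.g15_top]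
    rw [e2]
    exact h2
  · unfold aF
    have h1 : ∀ b ∈ R, σ b β * rO b ⊤ * ofC (cM (2 * f) m b 0) = 0 := by
      intro b hb
      have h2 : cM (2 * f) m b 0 = 0 := by
        unfold cM
        rw [(hC7 n t f m b hm (rc_fb hR hb)).2.2.1 0 rfl, Finset.sum_empty]
      have h3 : ofC (0 : ℂ) = 0 := by
        have := ofC_io (0 : Om)
        rwa [map_zero] at this
      rw [h2, h3, mul_zero]
    rw [Finset.sum_eq_zero h1, mul_zero]

end Pool.Agent.DN.F
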