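import Pool.Agent.Lib.DN.F.SpecA

/-!
# Theorem DN, part F, module Kap: the numbers `kpp`
-/

set_option autoImplicit false

open scoped Pointwise

noncomputable section

namespace Pool.Agent.DN.FA

open Pool.Agent.MuZ Pool.Agent.FW NumberField IsDedekindDomain Pool.Agent.DN
open Pool.Agent.DI (io ofC io_inj exists_io io_ofC ofC_io VP MP UP TP ex)

private theorem Kap_pow {P : Ideal ZZ} (hP : P.IsPrime) {x y : Om} (hx : VP P x) (hy : VP P y)
    (h : MP P (x - y)) (k : ℕ) : MP P (x ^ k - y ^ k) := by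
  induction k with
  | zero =>
    rw [pow_zero, pow_zero, sub_self]
    exact DI.MP.zero
  | succ k ih =>
    have e : x ^ (k + 1) - y ^ (k + 1) = (x ^ k - y ^ k) * x + y ^ k * (x - y) := by ring
    rw [e]
    exact DI.MP.add (DI.MP.mul_right ih hx) (DI.MP.mul_left (DI.VP.pow hy k) h)

private theorem Kap_chi {n t : ℕ} [Ine n t] {f : ℕ} {χ : Ideal (OO n t) → Om} (hχ : IsChi (2 * f) χ)
    {P : Ideal ZZ} (hP : P.IsPrime) {b : Ideal (OO n t)} (hb : FB f b) : UP P (χ b) := by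
  obtain ⟨j, hj, h⟩ := hχ.odd
  have hj0 : 0 < j := by
    obtain ⟨i, rfl⟩ := hj
    omega
  apply DI.UP.of_pow hj0
  rw [h b hb.ne hb.cop]
  exact DI.UP.one

theorem tKap (hKp : S_Kp) (hOd : S_Od) (hGc : S_Gc) : S_Kap := by
  intro n t _ f k hf h15 χ hχ P hP hk hTy
  have hPr : P.IsPrime := hP.1.1
  obtain ⟨-, -, -, hr, -⟩ := hGc n t f hf h15
  have htop : FB f (⊤ : Ideal (OO n t)) := fb_top f
  have hr1 : ∀ b : Ideal (OO n t), FB f b → UP P (rO ⊤ b) := by
    intro b hb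
    have h := (hr b hb).2.2.1 ⊤ htop P hP
    rwa [Ideal.mul_top] at h
  have hX : ∀ b : Ideal (OO n t), FB f b → UP P (kp b / c3) := fun b hb =>
    (hKp n t P hP b hb.ne (fb_30 h15 hb)).1
  have h1 : ∀ b : Ideal (OO n t), FB f b → UP P (χ b) ∧ UP P (kpp k χ b) := by
    intro b hb
    refine ⟨Kap_chi hχ hPr hb, ?_⟩
    unfold kpp
    exact DI.UP.mul (DI.UP.mul (Kap_chi hχ hPr hb) (hr1 b hb)) (DI.UP.inv (DI.UP.pow (hX b hb) k))
  have h2 : ∀ a b : Ideal (OO n t), FB f a → FB f b →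
      MP P (kpp k χ (a * b) - χ a * rO b (a * b) ^ (1 + 2 * k) * kpp k χ b) := by
    intro a b ha hb
    have hab : FB f (a * b) := fb_mul ha hb
    have hu : UP P (rO b (a * b)) := (hr a ha).2.2.1 b hb P hP
    have hc : rO ⊤ b * rO b (a * b) = rO ⊤ (a * b) := (hr ⊤ htop).2.2.2.1 b (a * b) hb hab
    have hx := hX b hb
    have hy := hX (a * b) hab
    have h3 := (hKp n t P hP b hb.ne (fb_30 h15 hb)).2 a ha.ne (fb_30 h15 ha)
    have hx0 := hx.ne_zero
    have hy0 := hy.ne_zero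
    have hc3 : (c3 : Om) ≠ 0 := by
      intro h
      rw [h, div_zero] at hx0
      exact hx0 rfl
    have hk0 : kp b ≠ 0 := by
      intro h
      rw [h, zero_div] at hx0
      exact hx0 rfl
    have h4 : MP P (kp b / c3 - kp (a * b) / c3 * rO b (a * b) ^ 2) := by
      have e : kp b / c3 - kp (a * b) / c3 * rO b (a * b) ^ 2 =
          -(kp b / c3 * (kp (a * b) * rO b (a * b) ^ 2 / kp b - 1)) := by
        field_simp
        ring
      rw [e]
      exact DI.MP.neg (DI.MP.mul_left hx.1 h3)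
    have h5 := Kap_pow hPr hx.1 (DI.VP.mul hy.1 (DI.VP.pow hu.1 2)) h4 k
    have e : kpp k χ (a * b) - χ a * rO b (a * b) ^ (1 + 2 * k) * kpp k χ b =
        χ a * χ b * rO ⊤ b * rO b (a * b) * (((kp (a * b) / c3) ^ k)⁻¹ * ((kp b / c3) ^ k)⁻¹) *
          ((kp b / c3) ^ k - (kp (a * b) / c3 * rO b (a * b) ^ 2) ^ k) := by
      unfold kpp
      rw [hχ.mul, ← hc, mul_pow, ← pow_mul, pow_add, pow_one]
      have hxk : (kp b / c3) ^ k ≠ 0 := pow_ne_zero _ hx0
      have hyk : (kp (a * b) / c3) ^ k ≠ 0 := pow_ne_zero _ hy0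
      generalize (kp b / c3) ^ k = X at *
      generalize (kp (a * b) / c3) ^ k = Y at *
      generalize rO b (a * b) ^ (2 * k) = r
      field_simp
    rw [e]
    refine DI.MP.mul_left (DI.VP.mul (DI.VP.mul (DI.VP.mul (DI.VP.mul ?_ ?_) ?_) ?_) ?_) h5
    · exact (h1 a ha).1.1
    · exact (h1 b hb).1.1
    · exact (hr1 b hb).1
    · exact hu.1
    · exact DI.VP.mul (DI.UP.inv (DI.UP.pow hy k)).1 (DI.UP.inv (DI.UP.pow hx k)).1
  refine ⟨h1, h2, ?_⟩
  have key : ∀ (b : Ideal (OO n t)) (α : OO n t), FB f b → α ≠ 0 → Cop α 2 → (f : OO n t) ∣ α - 1 →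
      MP P (kpp k χ (sp α * b) - kpp k χ b) := by
    intro b α hb h0 hα2 hα
    have ha : FB f (sp α) := fb_sp hf (cop_of hα hα2)
    have h3 := h2 (sp α) b ha hb
    rw [(hr b hb).2.2.2.2 α h0 hα] at h3
    have h4 := hTy α hα hα2
    have hvα : VP P (toO α) := toO_VP α
    -- the cube
    obtain ⟨u, hu⟩ := (aO4 n t).2.2.2.2.2.1 α hα2
    have h5 : MP P (toO α ^ 3 - 1) := by
      have e : toO α ^ 3 - 1 = 2 * toO u := by
        rw [← toO_pow, ← toO_one (n := n) (t := t), ← toO_sub, hu, toO_mul]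
        congr 1
        have := toO_nat (n := n) (t := t) 2
        exact_mod_cast this
      rw [e]
      exact DI.MP.mul_right hP.2 (toO_VP u)
    have h6 := Kap_pow hPr (DI.VP.pow hvα 3) DI.VP.one h5 k
    rw [one_pow, ← pow_mul] at h6
    have hkk : (k - 1) + (1 + 2 * k) = 3 * k := by
      rcases hk with rfl | rfl <;> norm_num
    have e : kpp k χ (sp α * b) - kpp k χ b =
        (kpp k χ (sp α * b) - χ (sp α) * toO α ^ (1 + 2 * k) * kpp k χ b) +
        ((χ (sp α) - toO α ^ (k - 1)) * (toO α ^ (1 + 2 * k) * kpp k χ b) +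
          (toO α ^ (3 * k) - 1) * kpp k χ b) := by
      rw [← hkk, pow_add]
      ring
    rw [e]
    have hv := (h1 b hb).2.1
    exact DI.MP.add h3 (DI.MP.add
      (DI.MP.mul_right h4 (DI.VP.mul (DI.VP.pow hvα _) hv)) (DI.MP.mul_right h6 hv))
  intro b b' hb hb' hR
  obtain ⟨α, α', g1, g2, g3, g4, g5, g6, g7⟩ := hOd n t f hf h15 b b' hb hb' hR
  have k1 := key b α hb g1 g3 g5
  have k2 := key b' α' hb' g2 g4 g6
  rw [g7] at k1
  have e : kpp k χ b - kpp k χ b' = (kpp k χ (sp α' * b') - kpp k χ b') -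
      (kpp k χ (sp α' * b') - kpp k χ b) := by ring
  rw [e]
  exact DI.MP.sub k2 k1

end Pool.Agent.DN.FA
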