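import Pool.Agent.Lib.DN.F.SpecA

/-!
# Theorem DN, part F, module Od: classes modulo `f` of ideals prime to `2 f`
-/

set_option autoImplicit false

open scoped Pointwise

noncomputable section

namespace Pool.Agent.DN.FA

open Pool.Agent.MuZ Pool.Agent.FW NumberField IsDedekindDomain Pool.Agent.DN

variable {n t : ℕ}

private theorem Od_split [Ine n t] (N : ℕ) : ∀ β : OO n t, β ≠ 0 → (Nm β).toNat ≤ N →
    ∃ (i : ℕ) (γ : OO n t), β = 2 ^ i * γ ∧ ¬ (2 : OO n t) ∣ γ := by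
  induction N with
  | zero =>
    intro β hβ h
    have := Nm_pos hβ
    omega
  | succ N ih =>
    intro β hβ h
    by_cases h2 : (2 : OO n t) ∣ β
    · obtain ⟨u, rfl⟩ := h2
      have hu : u ≠ 0 := right_ne_zero_of_mul hβ
      have h4 : Nm (2 * u) = 4 * Nm u := by
        have h5 := Nm_nat (n := n) (t := t) 2
        push_cast at h5
        rw [Nm_mul, h5]
      obtain ⟨i, γ, e, hγ⟩ := ih u hu (by
        have := Nm_pos hu
        omega)
      exact ⟨i + 1, γ, by rw [e]; ring, hγ⟩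
    · exact ⟨0, β, by rw [pow_zero, one_mul], h2⟩

private theorem Od_pow {i j : ℕ} {A B : ℤ} (hA : ¬ (2 : ℤ) ∣ A) (h : 4 ^ i * A = 4 ^ j * B) : j ≤ i := by
  by_contra h1
  push Not at h1
  obtain ⟨k, rfl⟩ : ∃ k, j = i + 1 + k := ⟨j - i - 1, by omega⟩
  have h2 : (4 : ℤ) ^ i * A = 4 ^ i * (4 * 4 ^ k * B) := by
    rw [h]
    ring
  have h3 := mul_left_cancel₀ (pow_ne_zero i (by norm_num : (4 : ℤ) ≠ 0)) h2
  exact hA ⟨2 * 4 ^ k * B, by rw [h3]; ring⟩

/-- **Od.** -/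
theorem tOd : S_Od := by
  intro n t _ f hf h15 b b' hb hb' hr
  have hf0 : 0 < f := f_pos hf
  have hf1 : 1 < f := by
    have := Nat.le_of_dvd hf0 h15
    omega
  obtain ⟨β, β', hβ, hβ', h1, h1', e⟩ := ray_norm hf1 hr
  obtain ⟨-, -, o1, o2, -⟩ := aO4 n t
  obtain ⟨i, γ, rfl, hγ⟩ := Od_split _ β hβ le_rfl
  obtain ⟨j, γ', rfl, hγ'⟩ := Od_split _ β' hβ' le_rfl
  have hodd : ∀ (v : OO n t) (a : Ideal (OO n t)), ¬ (2 : OO n t) ∣ v → PrI a 2 → ¬ (2 : ℤ) ∣ Nm v * NI a := by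
    intro v a hv ha h
    have h2 := (o2 v).1 ((o1 v).2 hv)
    have h3 := ((aO6 n t).2.2.1 2 a (by norm_num)).1 ha
    rcases Int.prime_two.dvd_or_dvd h with h4 | h4
    · exact h2 h4
    · have h5 : 2 ∣ NI a := by exact_mod_cast h4
      have h6 := Nat.dvd_gcd h5 (dvd_refl 2)
      rw [h3] at h6
      norm_num at h6
  have hN : ∀ (k : ℕ) (v : OO n t) (a : Ideal (OO n t)), ((NI (sp (2 ^ k * v) * a) : ℕ) : ℤ) = 4 ^ k * (Nm v * NI a) := by
    intro k v a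
    rw [NI_mul, Nat.cast_mul, NI_sp, Nm_mul]
    have h5 : Nm ((2 : OO n t) ^ k) = 4 ^ k := by
      have h6 := Nm_nat (n := n) (t := t) (2 ^ k)
      push_cast at h6
      rw [h6, ← pow_mul, mul_comm, pow_mul]
      norm_num
    rw [h5]
    ring
  have hNN : (4 : ℤ) ^ i * (Nm γ * NI b) = 4 ^ j * (Nm γ' * NI b') := by
    rw [← hN, ← hN, e]
  have hij : i = j := le_antisymm (Od_pow (hodd γ' b' hγ' (fb_two hb')) hNN.symm)
    (Od_pow (hodd γ b hγ (fb_two hb)) hNN)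
  subst hij
  have h20 : (2 : OO n t) ^ i ≠ 0 := left_ne_zero_of_mul hβ
  have hγ0 : γ ≠ 0 := right_ne_zero_of_mul hβ
  have hγ0' : γ' ≠ 0 := right_ne_zero_of_mul hβ'
  have e1 : sp γ * b = sp γ' * b' := by
    rw [sp_mul, sp_mul, mul_assoc, mul_assoc] at e
    exact (Ideal.span_singleton_mul_right_inj h20).1 e
  -- `f` divides `γ - γ'`
  have hcop : IsCoprime (f : OO n t) ((2 : OO n t) ^ i) := by
    have h2 : IsCoprime (f : ℤ) ((2 : ℤ) ^ i) := by
      refine IsCoprime.pow_right ?_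
      rw [Int.isCoprime_iff_gcd_eq_one]
      have h3 : Nat.Coprime f 2 := (Nat.coprime_two_right).2 hf
      exact_mod_cast h3
    have h3 := h2.map (Int.castRingHom (OO n t))
    simpa using h3
  have hd : (f : OO n t) ∣ γ - γ' := by
    have h2 : (f : OO n t) ∣ 2 ^ i * (γ - γ') := by
      have e2 : 2 ^ i * (γ - γ') = (2 ^ i * γ - 1) - (2 ^ i * γ' - 1) := by ring
      rw [e2]
      exact dvd_sub h1 h1'
    exact hcop.dvd_of_dvd_mul_left h2
  have hcf : Cop γ f := by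
    have h2 : Cop (2 ^ i * γ) f := by
      refine cop_congr (a := 1) ?_ (cop_one f)
      have e2 : (1 : OO n t) - 2 ^ i * γ = -(2 ^ i * γ - 1) := by ring
      rw [e2]
      exact (dvd_neg).2 h1
    unfold Cop at h2 ⊢
    rw [Nm_mul] at h2
    exact h2.of_mul_left_right
  have hc2 : Cop γ 2 := (o1 γ).2 hγ
  have hc : Cop γ (2 * f) := by
    unfold Cop at hcf hc2 ⊢
    push_cast
    exact IsCoprime.mul_right (by exact_mod_cast hc2) hcf
  obtain ⟨δ, hδ, hδ'⟩ := cop_inv hc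
  have hδ0 : δ ≠ 0 := by
    rintro rfl
    unfold Cop at hδ
    rw [Nm_zero] at hδ
    have h9 := isCoprime_zero_left.1 hδ
    rw [Int.isUnit_iff] at h9
    omega
  have hδ2 : Cop δ 2 := cop_dvd hδ (Dvd.intro _ rfl)
  have hfd : (f : OO n t) ∣ δ * γ - 1 := by
    have h2 : (f : OO n t) ∣ ((2 * f : ℕ) : OO n t) := by
      push_cast
      exact Dvd.intro_left _ rfl
    rw [mul_comm δ γ]
    exact h2.trans hδ'
  refine ⟨δ * γ, δ * γ', mul_ne_zero hδ0 hγ0, mul_ne_zero hδ0 hγ0', cop_mul hδ2 hc2,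
    cop_mul hδ2 ((o1 γ').2 hγ'), hfd, ?_, ?_⟩
  · have e2 : δ * γ' - 1 = (δ * γ - 1) - (γ - γ') * δ := by ring
    rw [e2]
    exact dvd_sub hfd (hd.mul_right δ)
  · rw [sp_mul, sp_mul, mul_assoc, mul_assoc, e1]

end Pool.Agent.DN.FA
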