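import Pool.Agent.Lib.DN.F.SpecA

/-!
# Theorem DN, part F, module `YE`: the numbers `yE`
-/

set_option autoImplicit false

open scoped Pointwise

noncomputable section

namespace Pool.Agent.DN.FA

open Pool.Agent.MuZ Pool.Agent.FW NumberField IsDedekindDomain Pool.Agent.DN
open Pool.Agent.DI (io ofC io_inj exists_io io_ofC ofC_io VP MP UP TP ex)

/-- The translate of a prime above `2`. -/
private theorem YE_smul (σ : Gal(Om/ℚ)) {P : Ideal ZZ} (hP : Ab2 P) : Ab2 (σ • P) := by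
  have hp : P.IsPrime := hP.1.1
  have hp' : (σ • P).IsPrime := inferInstance
  refine ⟨⟨hp', fun h => hP.1.2 ?_⟩, ?_⟩
  · rw [eq_bot_iff]
    intro x hx
    have h1 : σ • x ∈ σ • P := (DI.smul_mem_smul_iff σ x).2 hx
    rw [h, Ideal.mem_bot] at h1
    have h3 : σ⁻¹ • σ • x = 0 := by rw [h1, smul_zero]
    rw [inv_smul_smul] at h3
    rw [h3]
    exact Ideal.zero_mem _
  · have h1 := (DI.MP.smul (P := P) σ (x := (2 : Om))).2 hP.2
    rwa [map_ofNat] at h1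

private theorem YE_den {r : ℚ} {j : ℕ} (hj : Odd j) (h : r.den.Coprime j) : (r / 2).den.Coprime j := by
  have h1 : (r / 2).den ∣ r.den * 2 := by
    have h2 := Rat.mul_den_dvd r (1 / 2)
    have e : (1 / 2 : ℚ).den = 2 := by norm_num
    have e2 : r * (1 / 2) = r / 2 := by ring
    rw [e, e2] at h2
    exact h2
  exact Nat.Coprime.coprime_dvd_left h1 (Nat.coprime_mul_iff_left.2 ⟨h, Nat.coprime_two_left.2 hj⟩)

private theorem YE_act (hC8 : S_C8) (hTm : S_Tm) (hGc : S_Gc) {n t : ℕ} [Ine n t] {f k : ℕ}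
    {m : Ideal (OO n t)} (hm : FM f m) {r : ℚ} (hr : (r / 2).den.Coprime (NI m)) {τ : Gal(Om/ℚ)}
    (hτ : τ ∈ GK n t) {a b : Ideal (OO n t)} (ha : Psi τ (2 * f) a) (hb : FB f b) :
    τ (yE f k m b r) = yE f k m (a * b) r := by
  obtain ⟨g1, -⟩ := hGc n t f hm.odd hm.dvd
  obtain ⟨t1, -⟩ := hTm n t f hm.odd hm.dvd
  unfold yE
  rw [map_mul, map_div₀, map_one, map_ofNat, map_sum]
  refine congrArg (fun x => 1 / 2 * x) (Finset.sum_congr rfl fun α hα => ?_)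
  have hs : FB f (sp α * b) := fb_mul (fb_sp hm.odd (t1 α hα).2.2.2) hb
  rw [map_mul, map_pow, (g1 τ hτ a ha _ hs).1, hC8 n t f m _ hm hs (r / 2) hr τ hτ a ha,
    mul_left_comm]

theorem tYE (hC6 : S_C6) (hC8 : S_C8) (hC11 : S_C11) (hE1 : S_E1) (hTm : S_Tm) (hGc : S_Gc) :
    S_YE := by
  intro n t _ f M k m R hm hR hlv hk r hr
  have h2f : 0 < 2 * f := two_f hm.odd
  have hf0 : 0 < f := f_pos hm.odd
  have h152 : 15 ∣ 2 * f := hm.dvd.mul_left 2
  have hNm : Odd (NI m) := Odd.of_dvd_nat hlv.odd (lv_m hlv)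
  have hr' : (r / 2).den.Coprime (NI m) :=
    YE_den hNm (Nat.Coprime.coprime_dvd_right (lv_m hlv) hr)
  obtain ⟨g1, g2, -⟩ := hGc n t f hm.odd hm.dvd
  obtain ⟨t1, t2, -⟩ := hTm n t f hm.odd hm.dvd
  have hact : ∀ τ ∈ GK n t, ∀ a : Ideal (OO n t), Psi τ (2 * f) a →
      τ (yE f k m ⊤ r) = yE f k m a r := by
    intro τ hτ a ha
    have h1 := YE_act hC8 hTm hGc (k := k) hm hr' hτ ha (fb_top f)
    rw [Ideal.mul_top] at h1
    exact h1
  have hcl : ∀ b : Ideal (OO n t), FB f b → Ray f b ⊤ → yE f k m b r = yE f k m ⊤ r := by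
    intro b hb hray
    have h1 := (t2 Om (fun c => kp c ^ k * etaM (2 * f) m c (r / 2)) fun c c' hc hc' hcc => by
      simp only [g2 c c' hc hc' hcc, ((hC6 n t f m c hm hc).1 c' hc' hcc).2 (r / 2)]).2 b ⊤ hb
        (fb_top f) hray
    unfold yE
    exact congrArg (fun x => 1 / 2 * x) h1
  refine ⟨?_, ?_, hact, ?_⟩
  · intro τ hτ a ha hray
    obtain ⟨e1, -, -, -, -⟩ := hE1 n t (2 * f) h2f h152
    obtain ⟨-, e2, -, -, -⟩ := hE1 n t f hf0 hm.dvd
    obtain ⟨a', ha'⟩ := e1 τ hτ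
    have ha'f : Psi τ f a' := Eb.psi_level ha' (Dvd.intro_left 2 rfl)
    have hr1 : Ray f a' ⊤ := ray_trans hf0 (e2 τ a' a ha'f ha) hray
    rw [hact τ hτ a' ha']
    exact hcl a' (fb_psi ha') hr1
  · intro Q hQ τ _
    have hQ' : Ab2 (τ⁻¹ • Q) := YE_smul τ⁻¹ hQ
    have h1 := ((hC11 n t (τ⁻¹ • Q) hQ' ⊤ Eb.ne_top (Eb.pri_top _)).2 f M k m hm (fb_top f)
      (lv_top hlv) hk r hr).1
    have h2 := (DI.VP.smul (P := τ⁻¹ • Q) τ (x := yE f k m ⊤ r)).2 h1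
    rwa [smul_inv_smul] at h2
  · intro P hP b hb
    have hb' : FB f b := hR b hb
    exact (hC11 n t P hP b hb'.ne (fb_30 hm.dvd hb')).2 f M k m hm hb' (lv_one hlv hb) hk r hr

end Pool.Agent.DN.FA
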