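import Pool.Agent.Lib.DN.F.Hm
import Pool.Agent.Lib.DN.F.Al
import Pool.Agent.Lib.DN.F.Cls
import Pool.Agent.Lib.DN.F.CoL
import Pool.Agent.Lib.DN.F.Has
import Pool.Agent.Lib.DN.F.V1a
import Pool.Agent.Lib.DN.F.V1b
import Pool.Agent.Lib.DN.F.Lead
import Pool.Agent.Lib.DN.F.Gt
import Pool.Agent.Lib.DN.F.Cus
import Pool.Agent.Lib.DN.F.PsG
import Pool.Agent.Lib.DN.F.PsE
import Pool.Agent.Lib.DN.F.FHm
import Pool.Agent.Lib.DN.F.KP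
import Pool.Agent.Lib.DN.F.Od
import Pool.Agent.Lib.DN.F.Tm
import Pool.Agent.Lib.DN.F.Gc
import Pool.Agent.Lib.DN.F.YE
import Pool.Agent.Lib.DN.F.Kap
import Pool.Agent.Lib.DN.F.Sm
import Pool.Agent.Lib.DN.F.Bet
import Pool.Agent.Lib.DN.F.Pa
import Pool.Agent.Lib.DN.F.Pb
import Pool.Agent.Lib.DN.F.F1
import Pool.Agent.Lib.DN.F.F2
import Pool.Agent.Lib.DN.F.Asm
import Pool.Agent.Lib.DN.B.All

/-!
# Theorem DN, part F: Proposition F (`S_F`) from the statements of parts R, D, E, C (helper12)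
-/

set_option autoImplicit false

noncomputable section

namespace Pool.Agent.DN.F

open Pool.Agent.DN

/-- `S_Lead`. -/
theorem xLead (hC7 : S_C7) (hR1 : S_R1) (hD2 : S_D2) (hE10 : S_E10) (hKf : S_Kf) : S_Lead :=
  have hHm : S_Hm := tHm aB7 hC7
  have hAl : S_Al := tAl hC7
  tLead hR1 hD2 hC7 (tCoL hKf hE10 hR1 hHm hAl) (tHas hR1 hC7 hAl) (tV1b hC7 (tV1a hC7))

/-- `S_Psi`. -/
theorem xPsi (hC3 : S_C3) (hC7 : S_C7) (hR1 : S_R1) (hKf : S_Kf) (hLead : S_Lead) : S_Psi :=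
  sPsi (tGt aB1 aB2 aB3 aB4) (tPsG hC7 (tCus hC3)) (tPsE hKf hLead aB1 aB7 hR1)

/-- `S_F1`. -/
theorem xF1 (hC2 : S_C2) (hC6 : S_C6) (hC8 : S_C8) (hC11 : S_C11) (hKp : S_Kp) (hR1 : S_R1)
    (hD2 : S_D2) (hE1 : S_E1) (hE7 : S_E7) (hE10 : S_E10) (hKf : S_Kf) : S_F1 :=
  have hOd : FA.S_Od := FA.tOd
  have hTm : FA.S_Tm := FA.tTm hOd
  have hGc : FA.S_Gc := FA.tGc hE1 hE7 hE10 aB7 hR1 hD2 hKf
  have hYE : FA.S_YE := FA.tYE hC6 hC8 hC11 hE1 hTm hGc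
  have hKap : FA.S_Kap := FA.tKap hKp hOd hGc
  have hPa : FA.S_Pa := FA.tPa hC2 hC6 hC8 hE1 hKf hTm hGc hYE
  FA.tF1 hE1 hKf hKp FA.tKP hGc hYE hKap (FA.tSm hYE hGc hKap) (FA.tBet hE1 hKf FA.tKP hGc)
    (FA.tPb FA.tKP hPa)

/-- **Proposition F**, from the statements of the other parts and `S_Kf`. -/
theorem xF (hC2 : S_C2) (hC3 : S_C3) (hC6 : S_C6) (hC7 : S_C7) (hC8 : S_C8) (hC11 : S_C11)
    (hKp : S_Kp) (hR1 : S_R1) (hR2 : S_R2) (hD2 : S_D2) (hE1 : S_E1) (hE7 : S_E7) (hE10 : S_E10)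
    (hKf : S_Kf) : S_F :=
  have hLead : S_Lead := xLead hC7 hR1 hD2 hE10 hKf
  tAsm hKf (FA.tF2 hKf (xF1 hC2 hC6 hC8 hC11 hKp hR1 hD2 hE1 hE7 hE10 hKf) hLead)
    (xPsi hC3 hC7 hR1 hKf hLead) (tFH aL6 aB1 aB2 hR1 hR2 hKf hLead)

end Pool.Agent.DN.F
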