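import Pool.Agent.Lib.DN.F.SpecA

/-!
# Theorem DN, part F, module KP: the field `K` at the primes above `2` (helper63)

Adapted from `DT/F/KP.lean`.
-/

set_option autoImplicit false

open scoped Pointwise

noncomputable section

namespace Pool.Agent.DN.FA

open Pool.Agent.MuZ Pool.Agent.FW NumberField IsDedekindDomain Pool.Agent.DN
open Pool.Agent.DI (io ofC io_inj exists_io io_ofC ofC_io VP MP UP TP ex)

variable {n t : ℕ} {P : Ideal ZZ}

/-- elements of `KQ` are `a + b w` -/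
private theorem KP_form [SqN n t] (x : Om) (hx : x ∈ KQ n t) :
    ∃ a b : ℚ, x = (a : Om) + (b : Om) * wO n t := by
  have hint : IsIntegral ℚ (wO n t) := (Algebra.IsAlgebraic.isAlgebraic (wO n t)).isIntegral
  have h1 : x ∈ Algebra.adjoin ℚ {wO n t} := by
    rw [← IntermediateField.adjoin_simple_toSubalgebra_of_isAlgebraic hint.isAlgebraic]
    exact hx
  clear hx
  induction h1 using Algebra.adjoin_induction with
  | mem y hy =>
      rw [Set.mem_singleton_iff] at hy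
      exact ⟨0, 1, by rw [hy]; simp⟩
  | algebraMap r => exact ⟨r, 0, by simp⟩
  | add y z hy hz ihy ihz =>
      obtain ⟨a, b, h⟩ := ihy
      obtain ⟨a', b', h'⟩ := ihz
      refine ⟨a + a', b + b', ?_⟩
      rw [h, h']
      push_cast
      ring
  | mul y z hy hz ihy ihz =>
      obtain ⟨a, b, h⟩ := ihy
      obtain ⟨a', b', h'⟩ := ihz
      refine ⟨a * a' - n * (b * b'), a * b' + b * a' + t * (b * b'), ?_⟩
      rw [h, h']
      push_cast
      linear_combination ((b : Om) * b') * wO_sq (n := n) (t := t)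

private theorem KP_den [SqN n t] (x : Om) (hx : x ∈ KQ n t) :
    ∃ (N : ℕ) (v : OO n t), 0 < N ∧ x * (N : Om) = toO v := by
  obtain ⟨a, b, h⟩ := KP_form x hx
  refine ⟨a.den * b.den, ⟨a.num * b.den, b.num * a.den⟩, Nat.mul_pos a.pos b.pos, ?_⟩
  have ha : (a : Om) * (a.den : Om) = (a.num : Om) := by
    have h1 := Rat.mul_den_eq_num a
    exact_mod_cast congrArg (fun r : ℚ => (r : Om)) h1
  have hb : (b : Om) * (b.den : Om) = (b.num : Om) := by
    have h1 := Rat.mul_den_eq_num b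
    exact_mod_cast congrArg (fun r : ℚ => (r : Om)) h1
  rw [toO_apply, h]
  push_cast
  linear_combination (b.den : Om) * ha + (a.den : Om) * wO n t * hb

/-- `x / 2 ^ (j + 1)` in `V_P` implies `x` in `M_P` -/
private theorem KP_mp [P.IsPrime] (h2 : MP P 2) {x : Om} {j : ℕ} (h : VP P (x / 2 ^ (j + 1))) :
    MP P x := by
  have e : x = 2 * (2 ^ j * (x / 2 ^ (j + 1))) := by
    field_simp
    ring
  rw [e]
  exact DI.MP.mul_right h2 ((h2.vp.pow j).mul h)

private theorem KP_toO2 [SqN n t] : toO (2 : OO n t) = 2 := by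
  have h := toO_nat (n := n) (t := t) 2
  exact_mod_cast h

private theorem KP_odd [P.IsPrime] (h2 : MP P 2) {m : ℤ} (h : ¬ (2 : ℤ) ∣ m) :
    ¬ MP P (m : Om) := by
  intro hm
  obtain ⟨j, hj⟩ : ∃ j : ℤ, m = 2 * j + 1 := by
    obtain ⟨j, hj⟩ : Odd m := by
      rw [← Int.not_even_iff_odd, even_iff_two_dvd]
      exact h
    exact ⟨j, hj⟩
  have e : (1 : Om) = m - (j : Om) * 2 := by
    rw [hj]
    push_cast
    ring
  apply DI.MP.one_not (P := P)
  rw [e]
  exact hm.sub (DI.MP.mul_left (DI.VP.int j) h2)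

private theorem KP_iff [Ine n t] (hP : Ab2 P) (v : OO n t) :
    MP P (toO v) ↔ (2 : OO n t) ∣ v := by
  have hPp : P.IsPrime := hP.1.1
  constructor
  · intro h
    by_contra hn
    have h1 : Cop v 2 := ((aO4 n t).2.2.1 v).2 hn
    have h3 : ¬ (2 : ℤ) ∣ Nm v := ((aO4 n t).2.2.2.1 v).1 h1
    apply KP_odd hP.2 h3
    rw [← toO_int (n := n) (t := t), ← mul_cjO, toO_mul]
    exact DI.MP.mul_right h (toO_VP _)
  · rintro ⟨u, rfl⟩
    rw [toO_mul, KP_toO2]
    exact DI.MP.mul_right hP.2 (toO_VP _)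

private theorem KP_two [Ine n t] (hP : Ab2 P) (j : ℕ) : ∀ v : OO n t, VP P (toO v / 2 ^ j) →
    ∃ s : OO n t, v = 2 ^ j * s := by
  have hPp : P.IsPrime := hP.1.1
  induction j with
  | zero =>
    intro v _
    exact ⟨v, by rw [pow_zero, one_mul]⟩
  | succ j ih =>
    intro v hv
    obtain ⟨u, rfl⟩ := (KP_iff hP v).1 (KP_mp hP.2 hv)
    have e : toO u / 2 ^ j = toO (2 * u) / 2 ^ (j + 1) := by
      rw [toO_mul, KP_toO2, pow_succ]
      field_simp
    obtain ⟨s, rfl⟩ := ih u (by rwa [e])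
    exact ⟨s, by ring⟩

private theorem KP_nx [Ine n t] (hP : Ab2 P) (x : Om) (hx : x ∈ KQ n t) (hv : VP P x) :
    ∃ N : ℕ, Odd N ∧ ∃ v : OO n t, (N : Om) * x = toO v := by
  have hPp : P.IsPrime := hP.1.1
  obtain ⟨N, v, hN, h⟩ := KP_den x hx
  obtain ⟨j, m, hm, hj⟩ := Nat.exists_eq_pow_mul_and_not_dvd hN.ne' 2 (by norm_num)
  have h2 : (2 : Om) ^ j ≠ 0 := pow_ne_zero j two_ne_zero
  have h3 : (m : Om) * x = toO v / 2 ^ j := by
    rw [eq_div_iff h2, ← h, hj]
    push_cast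
    ring
  obtain ⟨s, hs⟩ := KP_two hP j v (h3 ▸ (DI.VP.nat m).mul hv)
  refine ⟨m, ?_, s, ?_⟩
  · rw [← Nat.not_even_iff_odd, even_iff_two_dvd]
    exact hm
  · rw [h3, hs, toO_mul, toO_pow, KP_toO2, mul_div_cancel_left₀ _ h2]

theorem tKP : S_KP := by
  intro n t _ P hP
  have hPp : P.IsPrime := hP.1.1
  refine ⟨?_, KP_iff hP, KP_nx hP⟩
  intro x hx hv
  obtain ⟨N, ⟨j, hj⟩, v, h⟩ := KP_nx hP x hx hv
  refine ⟨v, ?_⟩
  have e : x - toO v = -((j : Om) * x) * 2 := by
    rw [← h, hj]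
    push_cast
    ring
  rw [e]
  exact DI.MP.mul_left ((DI.VP.nat j).mul hv).neg hP.2

end Pool.Agent.DN.FA
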