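import Pool.Agent.Lib.DN.F.Base
import Pool.Agent.Lib.DN.E.F0
import Pool.Agent.Lib.DN.E.Ab
import Pool.Agent.Lib.DI.FH.Unr
import Pool.Agent.Lib.DI.B.A12
import Pool.Agent.Lib.MuZ.Inst

/-!
# Theorem DN, part F, module `Kf`: Galois theory of the ray class fields `Kf n t f`, `Kf n t (2 * f)`
-/

set_option autoImplicit false

open scoped Pointwise Topology MatrixGroups
open Filter

noncomputable section

namespace Pool.Agent.DN.F

open Pool.Agent.MuZ Pool.Agent.FW NumberField IsDedekindDomain Pool.Agent.DN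
open Pool.Agent.DI (io ofC io_inj exists_io io_ofC ofC_io VP MP UP TP ex)

/-- The ray class group itself. -/
theorem Kf_hg {n t : ℕ} [SqN n t] {N : ℕ} (hN : 0 < N) :
    Eb.HG N (fun a : Ideal (OO n t) => Ray N a ⊤) where
  top := ray_refl hN ⊤
  cop := fun a h => by
    have h1 := pn_ray hN (ray_symm hN h) (pn_top N)
    exact ⟨h1.ne, h1.cop⟩
  ray := fun a a' h h' => ray_trans hN (ray_symm hN h') h
  mul := fun a a' h h' => by
    have h1 := ray_mul hN h h'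
    rwa [Ideal.mul_top] at h1
  cj := fun a h => by
    have h1 := ray_cj h
    rwa [cjI_top] at h1

/-- Inertia above `2` is in `GK n t`. -/
theorem Kf_inertia {n t : ℕ} [Ine n t] {P : Ideal ZZ} (hP : Ab2 P) {τ : Gal(Om/ℚ)}
    (hτ : τ ∈ P.inertia Gal(Om/ℚ)) : τ ∈ GK n t := by
  have : P.IsPrime := hP.1.1
  rw [mem_GK_iff]
  have ht : (t : Om) = 1 := by
    have := Ine.one (n := n) (t := t)
    exact_mod_cast this
  have hv : VP P (wO n t) := by
    have h := toO_VP (P := P) (wI n t)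
    rwa [toO_wI] at h
  have h := DI.VP.inertia hτ hv
  have hsq := wO_sq (n := n) (t := t)
  rw [ht] at hsq
  have h3 : (τ (wO n t) - wO n t) * (τ (wO n t) - (1 - wO n t)) = 0 := by
    have h4 := congrArg τ hsq
    simp only [map_sub, map_mul, map_pow, map_one, map_natCast] at h4
    linear_combination h4 - hsq
  rcases mul_eq_zero.1 h3 with h5 | h5
  · exact sub_eq_zero.1 h5
  · exfalso
    have h6 : τ (wO n t) = 1 - wO n t := sub_eq_zero.1 h5
    rw [h6] at h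
    have h7 : MP P (1 - wO n t - wO n t + 2 * wO n t) := DI.MP.add h (DI.MP.mul_right hP.2 hv)
    have h8 : (1 : Om) - wO n t - wO n t + 2 * wO n t = 1 := by ring
    rw [h8] at h7
    exact DI.MP.one_not h7

/-- The translate of a prime above `2`. -/
theorem ab2_smul (σ : Gal(Om/ℚ)) {P : Ideal ZZ} (hP : Ab2 P) : Ab2 (σ • P) := by
  have hp : P.IsPrime := hP.1.1
  have hp' : (σ • P).IsPrime := inferInstance
  refine ⟨⟨hp', fun h => hP.1.2 ?_⟩, ?_⟩
  · rw [eq_bot_iff]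
    intro x hx
    have h1 : σ • x ∈ σ • P := (DI.smul_mem_smul_iff σ x).2 hx
    rw [h, Ideal.mem_bot] at h1
    have h3 : σ⁻¹ • σ • x = 0 := by rw [h1, smul_zero]
    rw [inv_smul_smul] at h3
    rw [h3]
    exact Ideal.zero_mem _
  · have h1 := (DI.MP.smul (P := P) σ (x := (2 : Om))).2 hP.2
    rwa [map_ofNat] at h1

/-- Galois theory of one ray class field. -/
private theorem Kf_one (hE1 : S_E1) (hE8 : S_E8) {n t : ℕ} [Ine n t] {N : ℕ} (hN : 0 < N)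
    (h15 : 15 ∣ N) : FiniteDimensional ℚ (Kf n t N) ∧ wO n t ∈ Kf n t N ∧
      (∀ τ ∈ GK n t, ∀ x ∈ Kf n t N, τ x ∈ Kf n t N) ∧
      ∀ τ ∈ GK n t, ∀ τ' ∈ GK n t, ∀ a a' : Ideal (OO n t), Psi τ N a → Psi τ' N a' →
        ((∀ x ∈ Kf n t N, τ x = τ' x) ↔ Ray N a a') := by
  have hg := Kf_hg (n := n) (t := t) hN
  obtain ⟨hfd, hle, hfix⟩ :=
    hE8 n t N (fun a : Ideal (OO n t) => Ray N a ⊤) hN h15 hg.top hg.cop hg.ray hg.mul
  refine ⟨hfd, hle (IntermediateField.mem_adjoin_simple_self ℚ (wO n t)),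
    Eb.tAb hE1 aO7 n t N _ hN h15 hg.ray, ?_⟩
  intro τ hτ τ' hτ' a a' ha ha'
  have hρ : τ⁻¹ * τ' ∈ GK n t := mul_mem (inv_mem hτ) hτ'
  obtain ⟨s, hs⟩ := (hE1 n t N hN h15).1 _ hρ
  have h2 := Eb.psi_mul ha hs
  rw [mul_inv_cancel_left] at h2
  have h3 : Ray N (a * s) a' := (hE1 n t N hN h15).2.1 τ' _ _ h2 ha'
  have h4 : (∀ x ∈ Kf n t N, τ x = τ' x) ↔ Ray N s ⊤ := by
    rw [← hfix _ hρ s hs]
    constructor
    · intro h x hx
      have h5 := h x hx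
      rw [AlgEquiv.mul_apply, ← h5, ← AlgEquiv.mul_apply, inv_mul_cancel]
      rfl
    · intro h x hx
      have h5 := h x hx
      have h6 : τ' x = (τ * (τ⁻¹ * τ')) x := by rw [mul_inv_cancel_left]
      rw [h6, AlgEquiv.mul_apply, h5]
  rw [h4]
  constructor
  · intro h
    have h5 : Ray N (a * s) (a * ⊤) := ray_mul hN (ray_refl hN a) h
    rw [Ideal.mul_top] at h5
    exact ray_trans hN (ray_symm hN h5) h3
  · intro h
    have h5 : Ray N (a * s) (a * ⊤) := by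
      rw [Ideal.mul_top]
      exact ray_trans hN h3 (ray_symm hN h)
    exact ray_cancel' hN (pn_psi ha) h5

theorem tKf (hE1 : S_E1)
    (hE4 : ∀ (n t : ℕ) [Ine n t] (P : Ideal ZZ), Ab2 P → ∀ τ ∈ GK n t, τ ∈ P.inertia Gal(Om/ℚ) →
      ∀ N : ℕ, Odd N → 15 ∣ N → Psi τ N (⊤ : Ideal (OO n t)))
    (hE7 : S_E7) (hE8 : S_E8) (hCj : Eb.S_Cj) (hIne : FW.S_Ine) : S_Kf := by
  intro n t _ f hfo h15
  have hf : 0 < f := hfo.pos
  have h2f : 0 < 2 * f := by omega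
  have h15' : 15 ∣ 2 * f := h15.mul_left 2
  have hg := Kf_hg (n := n) (t := t) hf
  have h1 := Kf_one hE1 hE8 (n := n) (t := t) hf h15
  obtain ⟨-, hle, -⟩ := hE8 n t f (fun a : Ideal (OO n t) => Ray f a ⊤) hf h15 hg.top hg.cop hg.ray hg.mul
  have hfd : FiniteDimensional ℚ (Kf n t f) := h1.1
  have hnor : ∀ τ : Gal(Om/ℚ), ∀ x ∈ Kf n t f, τ x ∈ Kf n t f := by
    obtain ⟨c, -, hc⟩ := hCj
    exact (hc n t).2.2 f _ hf h15 hg.ray hg.cj
  have hinr : ∀ P : Ideal ZZ, Ab2 P → ∀ τ ∈ P.inertia Gal(Om/ℚ), ∀ x ∈ Kf n t f, τ x = x := by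
    intro P hP τ hτ x hx
    have hG : τ ∈ GK n t := Kf_inertia hP hτ
    exact hx τ hG ⊤ (hE4 n t P hP τ hG hτ f hfo h15) hg.top
  refine ⟨?_, ?_, ?_, ?_, hinr, ?_, ?_, ?_, ?_⟩
  · rintro N (rfl | rfl)
    · exact h1
    · exact Kf_one hE1 hE8 h2f h15'
  · -- `Kf n t f ≤ Kf n t (2 * f)`
    intro x hx τ hτ a ha hr
    exact hx τ hτ a ((hE1 n t _ h2f h15').2.2.2.2 τ f a ha (Dvd.intro_left _ rfl) h15)
      (ray_dvd h2f (Dvd.intro_left _ rfl) hr)
  · -- representatives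
    choose! σ hσ using fun (b : Ideal (OO n t)) (hb : FB f b) => hE7 n t (2 * f) b h2f h15' hb.ne hb.cop
    exact ⟨σ, fun b hb => (hσ b hb).1, fun b hb => (hσ b hb).2⟩
  · -- the fixed field
    intro x hx
    have h2 : x ∈ IntermediateField.fixedField (KQ n t).fixingSubgroup := by
      rintro ⟨τ, hτ⟩
      exact hx τ hτ
    rwa [InfiniteGalois.fixedField_fixingSubgroup] at h2
  · -- reduction is injective
    intro P hP τ hτ τ' hτ' h x hx
    have hP' := ab2_smul τ'⁻¹ hP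
    have hp : P.IsPrime := hP.1.1
    have hp' : (τ'⁻¹ • P).IsPrime := hP'.1.1
    have hρ : τ'⁻¹ * τ ∈ GK n t := mul_mem (inv_mem hτ') hτ
    obtain ⟨s, hs, -, hsx⟩ := hIne (KQ n t) (Kf n t f) hfd hle (τ'⁻¹ • P) hP'.1.1 hP'.1.2 _ hρ
      (hnor _) (by
      intro y hy
      have h3 := (DI.MP.smul (P := P) τ'⁻¹ (x := τ (y : Om) - τ' (y : Om))).2 (h _ hy y.2)
      have h4 : τ'⁻¹ (τ (y : Om) - τ' (y : Om)) = (((τ'⁻¹ * τ) • y - y : ZZ) : Om) := by
        rw [map_sub, ← AlgEquiv.mul_apply, ← AlgEquiv.mul_apply, inv_mul_cancel]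
        rfl
      rw [h4] at h3
      exact (DI.MP.coe_iff _).1 h3)
    have h5 : (τ'⁻¹ * τ) x = x := by
      rw [← hsx x hx]
      exact hinr _ hP' s hs x hx
    have h6 : τ x = (τ' * (τ'⁻¹ * τ)) x := by rw [mul_inv_cancel_left]
    rw [h6, AlgEquiv.mul_apply, h5]
  · -- unramified at `2`
    intro P hP
    exact DI.FH.unrG (Kf n t f) hfd hnor P hP.1 hP.2 (hinr P hP)
  · -- complex conjugation exists
    obtain ⟨c, hc⟩ := Pool.Agent.DI.tA1
    exact ⟨c, hc⟩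
  · intro c hc
    refine ⟨?_, cj_wO hc⟩
    apply AlgEquiv.ext
    intro x
    rw [AlgEquiv.mul_apply, cj_cj hc]
    rfl

end Pool.Agent.DN.F
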