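import Pool.Agent.Lib.DN.F4.FH
import Pool.Agent.Lib.DI.F.Tay
import Pool.Agent.Lib.DI.F.Co
import Pool.Agent.Lib.DI.F.P01

/-!
# Theorem DN, part F: the functions `T`, `W` near `0` and their Taylor series

The curve `y² + a₁ x y + a₃ y = x³`, `x = ℘ - a₁²/12`. Adapted from `DT/F/TWg.lean`, `DT/F/TWc.lean`.
-/

set_option autoImplicit false

open Filter Topology

noncomputable section

namespace Pool.Agent.DN.F

open Pool.Agent.DI.F (tay Co Cf P0 P1)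

/-- The lattice `Λ` belongs to the curve `y² + a₁ x y + a₃ y = x³`, with `x = ℘ - a₁²/12`. -/
structure IsTW (Λ : PeriodPair) (a1 a3 : ℂ) : Prop where
  g2 : Λ.g₂ = (a1 ^ 4 - 24 * a1 * a3) / 12
  g3 : Λ.g₃ = (-(a1 ^ 6) + 36 * a1 ^ 3 * a3 - 216 * a3 ^ 2) / 216

/-- `u³ (℘' - a₁ (℘ - a₁²/12) - a₃)`, extended to `0`; this is `2 u³ y`. -/
def Dg (Λ : PeriodPair) (a1 a3 u : ℂ) : ℂ := P1 Λ u - a1 * (u * P0 Λ u) + u ^ 3 * (a1 ^ 3 / 12 - a3)

/-- `T = -x/y`, extended to `0`. -/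
def Tg (Λ : PeriodPair) (a1 a3 u : ℂ) : ℂ := -2 * u * (P0 Λ u - u ^ 2 * (a1 ^ 2 / 12)) / Dg Λ a1 a3 u

/-- `W = -1/y`, extended to `0`. -/
def Wg (Λ : PeriodPair) (a1 a3 u : ℂ) : ℂ := -2 * u ^ 3 / Dg Λ a1 a3 u

private def TWg_tt (Λ : PeriodPair) (a1 a3 u : ℂ) : ℂ :=
  (-2) * (P0 Λ u - u * u * (a1 ^ 2 / 12)) * (Dg Λ a1 a3 u)⁻¹

private def TWg_ww (Λ : PeriodPair) (a1 a3 u : ℂ) : ℂ := (-2) * (Dg Λ a1 a3 u)⁻¹

private theorem TWg_Tg_eq (Λ : PeriodPair) (a1 a3 u : ℂ) :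
    Tg Λ a1 a3 u = u * TWg_tt Λ a1 a3 u := by
  unfold Tg TWg_tt
  rw [div_eq_mul_inv]
  ring

private theorem TWg_Wg_eq (Λ : PeriodPair) (a1 a3 u : ℂ) :
    Wg Λ a1 a3 u = u ^ 3 * TWg_ww Λ a1 a3 u := by
  unfold Wg TWg_ww
  rw [div_eq_mul_inv]
  ring

private theorem TWg_algT {x y w t a b : ℂ} (hy : y ≠ 0)
    (h : (2 * y + a * x + b) ^ 2 = 4 * x ^ 3 + (a * x + b) ^ 2)
    (hw : w = -1 / y) (ht : t = -x / y) :
    w = t ^ 3 + a * t * w + b * w ^ 2 := by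
  subst hw ht
  field_simp
  linear_combination (-1 / 4 : ℂ) * h

/-- The functions `T`, `W` near `0`. -/
theorem tTWg (Λ : PeriodPair) (a1 a3 : ℂ) (hTW : IsTW Λ a1 a3) (k : Subfield ℂ) (h1k : a1 ∈ k)
    (h3k : a3 ∈ k) :
    Co k (Tg Λ a1 a3) ∧ Co k (Wg Λ a1 a3) ∧
    (∀ᶠ u in 𝓝 (0 : ℂ), Wg Λ a1 a3 u = Tg Λ a1 a3 u ^ 3 + a1 * Tg Λ a1 a3 u * Wg Λ a1 a3 u +
      a3 * Wg Λ a1 a3 u ^ 2) ∧
    (∀ᶠ u in 𝓝 (0 : ℂ), deriv (Tg Λ a1 a3) u * Wg Λ a1 a3 u - Tg Λ a1 a3 u * deriv (Wg Λ a1 a3) u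
      = (a1 * Tg Λ a1 a3 u - 2 + a3 * Wg Λ a1 a3 u) * Wg Λ a1 a3 u) ∧
    (∃ tt ww : ℂ → ℂ, Co k tt ∧ Co k ww ∧ tt 0 = 1 ∧ ww 0 = 1 ∧
      (∀ u, Tg Λ a1 a3 u = u * tt u) ∧ ∀ u, Wg Λ a1 a3 u = u ^ 3 * ww u) ∧
    (∀ᶠ u in 𝓝[≠] (0 : ℂ), u ∉ Λ.lattice ∧ Wg Λ a1 a3 u ≠ 0 ∧
      Λ.weierstrassP u - a1 ^ 2 / 12 = Tg Λ a1 a3 u / Wg Λ a1 a3 u) := by
  have hCo : Pool.Agent.DI.F.S_Co := Pool.Agent.DI.F.tCo Pool.Agent.DI.F.tTay
  have hP01 : Pool.Agent.DI.F.S_P01 := Pool.Agent.DI.F.tP01 Pool.Agent.DI.F.tTay hCo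
  obtain ⟨⟨cc, cid⟩, c2, -, cinv, -, -, -⟩ := hCo k
  obtain ⟨p1, p2, p3, p4⟩ := hP01 Λ
  have hg2 := hTW.g2
  have hg3 := hTW.g3
  have n12 : (12 : ℂ) ∈ k := ofNat_mem k 12
  have n24 : (24 : ℂ) ∈ k := ofNat_mem k 24
  have n36 : (36 : ℂ) ∈ k := ofNat_mem k 36
  have n216 : (216 : ℂ) ∈ k := ofNat_mem k 216
  have m2 : Λ.g₂ ∈ k := by
    rw [hg2]
    exact k.div_mem (k.sub_mem (k.pow_mem h1k 4) (k.mul_mem (k.mul_mem n24 h1k) h3k)) n12
  have m3 : Λ.g₃ ∈ k := by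
    rw [hg3]
    exact k.div_mem (k.sub_mem (k.add_mem (k.neg_mem (k.pow_mem h1k 6))
      (k.mul_mem (k.mul_mem n36 (k.pow_mem h1k 3)) h3k)) (k.mul_mem n216 (k.pow_mem h3k 2))) n216
  have m4 : (a1 ^ 2 / 12 : ℂ) ∈ k := k.div_mem (k.pow_mem h1k 2) n12
  have m5 : (a1 ^ 3 / 12 - a3 : ℂ) ∈ k := k.sub_mem (k.div_mem (k.pow_mem h1k 3) n12) h3k
  have mm2 : (-2 : ℂ) ∈ k := k.neg_mem (ofNat_mem k 2)
  obtain ⟨hP0, hP1⟩ := p4 k m2 m3
  have cadd : ∀ {f g : ℂ → ℂ}, Co k f → Co k g → Co k fun q => f q + g q :=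
    fun hf hg => (c2 _ _ hf hg).1
  have cmul : ∀ {f g : ℂ → ℂ}, Co k f → Co k g → Co k fun q => f q * g q :=
    fun hf hg => (c2 _ _ hf hg).2.1
  have csub : ∀ {f g : ℂ → ℂ}, Co k f → Co k g → Co k fun q => f q - g q :=
    fun hf hg => (c2 _ _ hf hg).2.2.1
  have hD : Co k (Dg Λ a1 a3) := by
    have e : Dg Λ a1 a3 = fun u => P1 Λ u - a1 * (u * P0 Λ u) + u * u * u * (a1 ^ 3 / 12 - a3) := by
      funext u
      unfold Dg
      ring
    rw [e]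
    exact cadd (csub hP1 (cmul (cc _ h1k) (cmul cid hP0))) (cmul (cmul (cmul cid cid) cid) (cc _ m5))
  have hD0 : Dg Λ a1 a3 0 = -2 := by
    unfold Dg
    rw [p3]
    ring
  have hD0' : Dg Λ a1 a3 0 ≠ 0 := by rw [hD0]; norm_num
  have hDi : Co k fun u => (Dg Λ a1 a3 u)⁻¹ := cinv _ hD hD0'
  have ht : Co k (TWg_tt Λ a1 a3) :=
    cmul (cmul (cc _ mm2) (csub hP0 (cmul (cmul cid cid) (cc _ m4)))) hDi
  have hw : Co k (TWg_ww Λ a1 a3) := cmul (cc _ mm2) hDi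
  have hT : Co k (Tg Λ a1 a3) := by
    have e : Tg Λ a1 a3 = fun u => u * TWg_tt Λ a1 a3 u := funext (TWg_Tg_eq Λ a1 a3)
    rw [e]
    exact cmul cid ht
  have hW : Co k (Wg Λ a1 a3) := by
    have e : Wg Λ a1 a3 = fun u => u * u * u * TWg_ww Λ a1 a3 u := by
      funext u
      rw [TWg_Wg_eq]
      ring
    rw [e]
    exact cmul (cmul (cmul cid cid) cid) hw
  have T0 : Tg Λ a1 a3 0 = 0 := by rw [TWg_Tg_eq, zero_mul]
  have W0 : Wg Λ a1 a3 0 = 0 := by rw [TWg_Wg_eq]; ring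
  have evD : ∀ᶠ u in 𝓝 (0 : ℂ), Dg Λ a1 a3 u ≠ 0 := hD.1.continuousAt.eventually_ne hD0'
  have evL : ∀ᶠ u in 𝓝 (0 : ℂ), u ∉ (Λ.lattice : Set ℂ) \ {0} :=
    Λ.compl_lattice_sdiff_singleton_mem_nhds 0
  -- the last part
  have key : ∀ u : ℂ, u ≠ 0 → Dg Λ a1 a3 u ≠ 0 → Wg Λ a1 a3 u ≠ 0 ∧
      Λ.weierstrassP u - a1 ^ 2 / 12 = Tg Λ a1 a3 u / Wg Λ a1 a3 u ∧
      (Λ.derivWeierstrassP u - a1 * (Λ.weierstrassP u - a1 ^ 2 / 12) - a3) / 2 =
        -1 / Wg Λ a1 a3 u := by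
    intro u hu hd
    obtain ⟨q1, q2⟩ := p1 u hu
    have w0 : Wg Λ a1 a3 u ≠ 0 := by
      unfold Wg
      exact div_ne_zero (mul_ne_zero (by norm_num) (pow_ne_zero _ hu)) hd
    refine ⟨w0, ?_, ?_⟩
    · rw [eq_div_iff w0]
      unfold Wg Tg
      rw [q1]
      field_simp
    · rw [eq_div_iff w0]
      have e : Dg Λ a1 a3 u =
          u ^ 3 * (Λ.derivWeierstrassP u - a1 * (Λ.weierstrassP u - a1 ^ 2 / 12) - a3) := by
        unfold Dg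
        rw [q1, q2]
        ring
      unfold Wg
      rw [mul_div_assoc', div_eq_iff hd, e]
      ring
  have evK : ∀ᶠ u in 𝓝[≠] (0 : ℂ), u ∉ Λ.lattice ∧ Wg Λ a1 a3 u ≠ 0 ∧
      Λ.weierstrassP u - a1 ^ 2 / 12 = Tg Λ a1 a3 u / Wg Λ a1 a3 u ∧
      (Λ.derivWeierstrassP u - a1 * (Λ.weierstrassP u - a1 ^ 2 / 12) - a3) / 2 =
        -1 / Wg Λ a1 a3 u := by
    filter_upwards [evD.filter_mono nhdsWithin_le_nhds, evL.filter_mono nhdsWithin_le_nhds,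
      self_mem_nhdsWithin] with u h1 h2 h3
    exact ⟨fun h => h2 ⟨h, h3⟩, key u h3 h1⟩
  have evA : ∀ᶠ u in 𝓝 (0 : ℂ), AnalyticAt ℂ (Wg Λ a1 a3) u := hW.1.eventually_analyticAt
  refine ⟨hT, hW, ?_, ?_, ⟨TWg_tt Λ a1 a3, TWg_ww Λ a1 a3, ht, hw, ?_, ?_, TWg_Tg_eq Λ a1 a3,
    TWg_Wg_eq Λ a1 a3⟩, evK.mono fun u hu => ⟨hu.1, hu.2.1, hu.2.2.1⟩⟩
  · -- the curve
    rw [eventually_nhdsWithin_iff] at evK
    filter_upwards [evK] with u h
    by_cases hu : u = 0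
    · rw [hu, T0, W0]
      ring
    · obtain ⟨h1, h2, h3, h4⟩ := h hu
      have h5 := Λ.derivWeierstrassP_sq u h1
      rw [hg2, hg3] at h5
      set x := Λ.weierstrassP u - a1 ^ 2 / 12 with hx
      set y := (Λ.derivWeierstrassP u - a1 * x - a3) / 2 with hy
      have y0 : y ≠ 0 := by
        rw [h4]
        exact div_ne_zero (by norm_num) h2
      have e1 : Λ.derivWeierstrassP u = 2 * y + a1 * x + a3 := by rw [hy]; ring
      have e2 : Λ.weierstrassP u = x + a1 ^ 2 / 12 := by rw [hx]; ring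
      rw [e1, e2] at h5
      have hwy : Wg Λ a1 a3 u = -1 / y := by
        rw [h4]
        field_simp
      refine TWg_algT (x := x) y0 ?_ hwy ?_
      · rw [h5]
        ring
      · have : Tg Λ a1 a3 u = x * Wg Λ a1 a3 u := by
          rw [h3]
          field_simp
        rw [this, hwy]
        ring
  · -- the derivative
    have evK2 : ∀ᶠ u in 𝓝 (0 : ℂ), u ≠ 0 → (∀ᶠ v in 𝓝 u, v ∉ Λ.lattice ∧ Wg Λ a1 a3 v ≠ 0 ∧
        Λ.weierstrassP v - a1 ^ 2 / 12 = Tg Λ a1 a3 v / Wg Λ a1 a3 v ∧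
        (Λ.derivWeierstrassP v - a1 * (Λ.weierstrassP v - a1 ^ 2 / 12) - a3) / 2 =
          -1 / Wg Λ a1 a3 v) := by
      rw [eventually_nhdsWithin_iff] at evK
      filter_upwards [eventually_eventually_nhds.2 evK] with u h hu
      filter_upwards [h, isOpen_ne.mem_nhds hu] with v h1 h2
      exact h1 h2
    filter_upwards [evK2, evA] with u h hA
    by_cases hu : u = 0
    · rw [hu, T0, W0]
      ring
    · have h6 := h hu
      obtain ⟨h1, h2, h3, h4⟩ := h6.self_of_nhds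
      have hder : HasDerivAt Λ.weierstrassP (Λ.derivWeierstrassP u) u := by
        have a1 : AnalyticAt ℂ Λ.weierstrassP u := Λ.analyticOnNhd_weierstrassP u h1
        have a2 := a1.differentiableAt.hasDerivAt
        rwa [Λ.deriv_weierstrassP] at a2
      have hWd : HasDerivAt (Wg Λ a1 a3) (deriv (Wg Λ a1 a3) u) u := hA.differentiableAt.hasDerivAt
      have hTd : HasDerivAt (Tg Λ a1 a3) (Λ.derivWeierstrassP u * Wg Λ a1 a3 u +
          (Λ.weierstrassP u - a1 ^ 2 / 12) * deriv (Wg Λ a1 a3) u) u := by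
        refine ((hder.sub_const (a1 ^ 2 / 12 : ℂ)).mul hWd).congr_of_eventuallyEq ?_
        filter_upwards [h6] with v hv
        obtain ⟨-, v2, v3, -⟩ := hv
        simp only [Pi.mul_apply]
        rw [v3]
        field_simp
      rw [hTd.deriv]
      have e1 : Tg Λ a1 a3 u = (Λ.weierstrassP u - a1 ^ 2 / 12) * Wg Λ a1 a3 u := by
        rw [h3]
        field_simp
      rw [eq_div_iff h2] at h4
      rw [e1]
      linear_combination (2 * Wg Λ a1 a3 u) * h4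
  · unfold TWg_tt
    rw [hD0, p2]
    norm_num
  · unfold TWg_ww
    rw [hD0]
    norm_num

/-! ## Taylor series of `T(u(q))`, `W(u(q))` -/

namespace TWcAux

/-- `f` is analytic at `0` with Taylor series `p` -/
private def Rep (f : ℂ → ℂ) (p : PowerSeries ℂ) : Prop := AnalyticAt ℂ f 0 ∧ tay f = p

private theorem Rep.add (h : DI.F.S_Tay) {f g : ℂ → ℂ} {p r : PowerSeries ℂ} (hf : Rep f p)
    (hg : Rep g r) : Rep (fun q => f q + g q) (p + r) :=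
  ⟨hf.1.add hg.1, by rw [h.2.2.1 f g hf.1 hg.1, hf.2, hg.2]⟩

private theorem Rep.mul (h : DI.F.S_Tay) {f g : ℂ → ℂ} {p r : PowerSeries ℂ} (hf : Rep f p)
    (hg : Rep g r) : Rep (fun q => f q * g q) (p * r) :=
  ⟨hf.1.mul hg.1, by rw [h.2.2.2.1 f g hf.1 hg.1, hf.2, hg.2]⟩

private theorem Rep.const (h : DI.F.S_Tay) (c : ℂ) : Rep (fun _ => c) (PowerSeries.C c) :=
  ⟨analyticAt_const, h.2.2.2.2.1.1 c⟩

private theorem Rep.deriv' (h : DI.F.S_Tay) {f : ℂ → ℂ} {p : PowerSeries ℂ} (hf : Rep f p) :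
    Rep (deriv f) (PowerSeries.derivative ℂ p) :=
  ⟨hf.1.deriv, by rw [h.2.2.2.2.2.1 f hf.1, hf.2]⟩

private theorem Rep.eq (h : DI.F.S_Tay) {f g : ℂ → ℂ} {p r : PowerSeries ℂ} (hf : Rep f p)
    (hg : Rep g r) (hfg : f =ᶠ[𝓝 0] g) : p = r := by
  rw [← hf.2, ← hg.2]
  exact h.2.2.2.2.2.2 f g hfg

private theorem coeff_zero_tay (f : ℂ → ℂ) : PowerSeries.coeff 0 (tay f) = f 0 := by
  simp [tay]

private theorem coeff_zero_mul' (p r : PowerSeries ℂ) :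
    PowerSeries.coeff 0 (p * r) = PowerSeries.coeff 0 p * PowerSeries.coeff 0 r := by
  simp only [PowerSeries.coeff_zero_eq_constantCoeff_apply, map_mul]

end TWcAux

open TWcAux

theorem tTWc (Λ : PeriodPair) (a1 a3 : ℂ) (hI : IsTW Λ a1 a3) (K : Subfield ℂ) (h1k : a1 ∈ K)
    (h3k : a3 ∈ K) (u : ℂ → ℂ) (hu : Co K u) (hu0 : u 0 = 0) :
    Co K (fun q => Tg Λ a1 a3 (u q)) ∧ Co K (fun q => Wg Λ a1 a3 (u q)) ∧
    _root_.DN.F4.TWr a1 a3 (tay u) (tay fun q => Tg Λ a1 a3 (u q))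
      (tay fun q => Wg Λ a1 a3 (u q)) := by
  have hTay := DI.F.tTay
  have hCo := DI.F.tCo DI.F.tTay
  obtain ⟨hT, hW, hcurve, hdiff, ⟨t, w, ht, hw, ht0, hw0, hTt, hWw⟩, -⟩ := tTWg Λ a1 a3 hI K h1k h3k
  have hcomp := (hCo K).2.2.2.2.1
  have hTu := hcomp _ _ hT hu hu0
  have hWu := hcomp _ _ hW hu hu0
  have htu := hcomp _ _ ht hu hu0
  refine ⟨hTu, hWu, ?_⟩
  have hcont : Tendsto u (𝓝 0) (𝓝 0) := by
    have h := hu.1.continuousAt
    rw [ContinuousAt, hu0] at h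
    exact h
  have rT : Rep (fun q => Tg Λ a1 a3 (u q)) (tay fun q => Tg Λ a1 a3 (u q)) := ⟨hTu.1, rfl⟩
  have rW : Rep (fun q => Wg Λ a1 a3 (u q)) (tay fun q => Wg Λ a1 a3 (u q)) := ⟨hWu.1, rfl⟩
  have ru : Rep u (tay u) := ⟨hu.1, rfl⟩
  have rt : Rep (fun q => t (u q)) (tay fun q => t (u q)) := ⟨htu.1, rfl⟩
  have rm2 : Rep (fun _ => (-2 : ℂ)) (-2 : PowerSeries ℂ) := by
    have h := Rep.const hTay (-2)
    rwa [map_neg, map_ofNat] at h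
  have r1 := Rep.const hTay a1
  have r3 := Rep.const hTay a3
  have h1 := hcont.eventually hcurve
  have h2 := hcont.eventually hdiff
  -- products
  have eT := Rep.eq hTay rT (ru.mul hTay rt) (Eventually.of_forall fun q => hTt (u q))
  have c0 : PowerSeries.coeff 0 (tay u) = 0 := by rw [coeff_zero_tay, hu0]
  obtain ⟨p, hp⟩ : PowerSeries.X ∣ tay u := by
    rw [PowerSeries.X_dvd_iff, ← PowerSeries.coeff_zero_eq_constantCoeff_apply]
    exact c0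
  have ct : PowerSeries.coeff 0 (tay fun q => t (u q)) = 1 := by
    rw [coeff_zero_tay, hu0, ht0]
  have eT' : (tay fun q => Tg Λ a1 a3 (u q)) = PowerSeries.X * (p * tay fun q => t (u q)) := by
    rw [eT, hp]
    ring
  have c1 : PowerSeries.coeff 1 (tay u) = PowerSeries.coeff 0 p := by
    rw [hp, show (1 : ℕ) = 0 + 1 from rfl, PowerSeries.coeff_succ_X_mul]
  refine ⟨?_, ?_, ?_, ?_, ?_⟩
  · -- curve
    have hR := ((((rT.mul hTay rT).mul hTay rT).add hTay (r1.mul hTay (rT.mul hTay rW))).add hTay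
      (r3.mul hTay (rW.mul hTay rW)))
    have h := Rep.eq hTay rW hR (h1.mono fun q hq => by
      simp only
      linear_combination hq)
    linear_combination h
  · -- differential
    have hL := (rT.deriv' hTay).mul hTay rW
    have hR := (rT.mul hTay (rW.deriv' hTay)).add hTay
      (((((r1.mul hTay rT).add hTay rm2).add hTay (r3.mul hTay rW)).mul hTay rW).mul hTay
        (ru.deriv' hTay))
    have dT : ∀ᶠ q in 𝓝 (0 : ℂ),
        deriv (fun q => Tg Λ a1 a3 (u q)) q = deriv (Tg Λ a1 a3) (u q) * deriv u q := by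
      have a1 := hcont.eventually hT.1.eventually_analyticAt
      filter_upwards [a1, hu.1.eventually_analyticAt] with q hq1 hq2
      exact deriv_comp q hq1.differentiableAt hq2.differentiableAt
    have dW : ∀ᶠ q in 𝓝 (0 : ℂ),
        deriv (fun q => Wg Λ a1 a3 (u q)) q = deriv (Wg Λ a1 a3) (u q) * deriv u q := by
      have a1 := hcont.eventually hW.1.eventually_analyticAt
      filter_upwards [a1, hu.1.eventually_analyticAt] with q hq1 hq2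
      exact deriv_comp q hq1.differentiableAt hq2.differentiableAt
    have h := Rep.eq hTay hL hR (by
      filter_upwards [h2, dT, dW] with q hq hq1 hq2
      simp only [hq1, hq2]
      linear_combination (deriv u q) * hq)
    linear_combination h
  · rw [coeff_zero_tay, hu0, hTt 0, zero_mul]
  · rw [c1, eT', show (1 : ℕ) = 0 + 1 from rfl, PowerSeries.coeff_succ_X_mul, coeff_zero_mul', ct,
      mul_one]
  · rw [coeff_zero_tay, hu0, hWw 0]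
    ring

end Pool.Agent.DN.F
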