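import Pool.Agent.Lib.DN.F.SpecG
import Pool.Agent.Lib.DN.F.TWg
import Pool.Agent.Lib.DK.B.Scl
import Pool.Agent.Lib.DI.F.PsiExp

/-!
# Theorem DN, part F: the lattice `fr(1) O`; the function `u = fr(1) C` of `q`
-/

set_option autoImplicit false

open scoped Pointwise Topology MatrixGroups
open Filter

noncomputable section

namespace Pool.Agent.DN.F

open Pool.Agent.MuZ Pool.Agent.FW NumberField IsDedekindDomain Pool.Agent.DN
open Pool.Agent.DI (io ofC io_inj exists_io io_ofC ofC_io VP MP UP TP ex)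
open Pool.Agent.DI.F (tay Co Cf P0 P1)
open Pool.Agent.DI.F.PsiExpAux (pmap_inj norm_ex ex_ne exists_ex)

/-- The lattice `fr(1) O`. -/
theorem tLaF (hB1 : S_B1) (n t : ℕ) [Ine n t] : fr (⊤ : Ideal (OO n t)) ≠ 0 ∧
    ∃ Λ : PeriodPair, IsTW Λ (A1 (⊤ : Ideal (OO n t))) (A3 (⊤ : Ideal (OO n t))) ∧
      (∀ z : ℂ, z ∈ Lam (⊤ : Ideal (OO n t)) ↔ fr (⊤ : Ideal (OO n t)) * z ∈ Λ.lattice) ∧
      ∀ z : ℂ, XC (⊤ : Ideal (OO n t)) z = Λ.weierstrassP (fr (⊤ : Ideal (OO n t)) * z) -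
        A1 (⊤ : Ideal (OO n t)) ^ 2 / 12 := by
  have ht : (⊤ : Ideal (OO n t)) ≠ ⊥ := Eb.ne_top
  obtain ⟨-, -, -, -, -, b6⟩ := hB1 n t ⊤ ht
  obtain ⟨hφ0, -, -, c4, -, -, -, c8, c9⟩ := b6 (Eb.pri_top 15)
  refine ⟨hφ0, ?_⟩
  obtain ⟨φ, hφ⟩ : ∃ φ, φ = fr (⊤ : Ideal (OO n t)) := ⟨_, rfl⟩
  rw [← hφ] at hφ0 c4 c8 c9 ⊢
  obtain ⟨Λ, hΛ⟩ := DKB.tScl.2.2 (LP (⊤ : Ideal (OO n t))) φ⁻¹ (inv_ne_zero hφ0)
  obtain ⟨s1, -, -, g2, g3⟩ :=
    DKB.tScl.1 (LP (⊤ : Ideal (OO n t))) Λ φ⁻¹ (inv_ne_zero hφ0) hΛ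
  have hlat : ∀ z : ℂ, z ∈ Lam (⊤ : Ideal (OO n t)) ↔ φ * z ∈ Λ.lattice := by
    intro z
    have h := hΛ (φ * z)
    rw [inv_mul_cancel_left₀ hφ0] at h
    have h4 : φ * z ∈ Λ.lattice ↔ z ∈ (LP (⊤ : Ideal (OO n t))).lattice := h
    rw [h4]
    have h5 := aL1 n t ⊤ ht
    rw [← h5]
    exact Iff.rfl
  have hwp : ∀ z : ℂ, Λ.weierstrassP (φ * z) = wpC (⊤ : Ideal (OO n t)) z / φ ^ 2 := by
    intro z
    have h := s1 (φ * z)
    rw [inv_mul_cancel_left₀ hφ0] at h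
    have h4 : Λ.weierstrassP (φ * z) = φ⁻¹ ^ 2 * wpC (⊤ : Ideal (OO n t)) z := h
    rw [h4, inv_pow, div_eq_inv_mul]
  refine ⟨Λ, ⟨?_, ?_⟩, hlat, ?_⟩
  · rw [g2, c8, inv_pow]
    field_simp
  · rw [g3, c9, inv_pow]
    field_simp
  · intro z
    unfold XC
    rw [← hφ, hwp, c4]
    field_simp

private theorem uC_ex (z : ℂ) : ex (-(starRingEnd ℂ) z) = (starRingEnd ℂ) (ex z) := by
  unfold ex
  rw [← Complex.exp_conj]
  congr 1
  simp only [map_mul, Complex.conj_I, Complex.conj_ofReal, map_ofNat]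
  ring

/-- The function `u = fr(1) C` of `q`. -/
theorem tuC (hLead : S_Lead) (hB7 : S_B7) (n t : ℕ) [Ine n t] (f : ℕ) (m : Ideal (OO n t))
    (R : Finset (Ideal (OO n t))) (hm : FM f m) (hR : FR f R) (hRC : IsRC (2 * f) R)
    (σ : Ideal (OO n t) → Gal(Om/ℚ)) (hσ : IsSig n t f σ) (c : Gal(Om/ℚ)) (hc : IsCj c)
    (N0 : ℕ) (β : Om) (hβ : β ∈ Kf n t (2 * f)) (h1ne : cF f m R σ c N0 β 1 ≠ 0)
    (L : IntermediateField ℚ Om) (hL : ∀ j, cF f m R σ c N0 β j ∈ L) :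
    ∃ uC : ℂ → ℂ, Co (L.toSubfield.map io) uC ∧ uC 0 = 0 ∧ deriv uC 0 ≠ 0 ∧
      tay uC = PowerSeries.map io (uF f m R σ c N0 β) ∧
      ∀ z : ℂ, 0 < z.im → uC (ex z) = fr (⊤ : Ideal (OO n t)) * CF f m R σ N0 β z := by
  obtain ⟨-, ha0, hsum, -⟩ := hLead n t f m R hm hR hRC σ hσ N0 β hβ
  obtain ⟨-, -, b2⟩ := hB7 n t ⊤ Eb.ne_top
  obtain ⟨-, b4, -⟩ := b2 (Eb.pri_top 15)
  rw [cjI_top] at b4
  have hcj : ∀ x : Om, io (c x) = (starRingEnd ℂ) (io x) := hc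
  have hsum' : ∀ z : ℂ, 0 < z.im →
      HasSum (fun j : ℕ => io (cF f m R σ c N0 β j) * ex z ^ j)
        (fr (⊤ : Ideal (OO n t)) * CF f m R σ N0 β z) := by
    intro z hz
    have hz' : 0 < (-(starRingEnd ℂ) z).im := by simpa using hz
    have h1 := hsum z hz
    have h2 := (Complex.hasSum_conj' ).2 (hsum _ hz')
    have e1 : (fun j : ℕ => (starRingEnd ℂ)
        (io (aF f m R σ N0 β j) * ex (-(starRingEnd ℂ) z) ^ j)) =
        fun j : ℕ => io (c (aF f m R σ N0 β j)) * ex z ^ j := by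
      funext j
      rw [map_mul, map_pow, uC_ex, Complex.conj_conj, hcj]
    have e2 : (starRingEnd ℂ) (fr (⊤ : Ideal (OO n t)) * AF f m R σ N0 β (-(starRingEnd ℂ) z)) =
        fr (⊤ : Ideal (OO n t)) * (starRingEnd ℂ) (AF f m R σ N0 β (-(starRingEnd ℂ) z)) := by
      rw [map_mul, b4]
    rw [e1, e2] at h2
    have h3 := h1.add h2
    have e3 : (fun j : ℕ => io (aF f m R σ N0 β j) * ex z ^ j +
        io (c (aF f m R σ N0 β j)) * ex z ^ j) =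
        fun j : ℕ => io (cF f m R σ c N0 β j) * ex z ^ j := by
      funext j
      unfold cF
      rw [map_add, add_mul]
    rw [e3] at h3
    unfold CF
    rw [mul_add]
    exact h3
  have hc' : ∀ j : ℕ, PowerSeries.coeff j (uF f m R σ c N0 β) = cF f m R σ c N0 β j := fun j =>
    PowerSeries.coeff_mk j _
  have hc0 : cF f m R σ c N0 β 0 = 0 := by
    unfold cF
    rw [ha0, map_zero, add_zero]
  let uC : ℂ → ℂ := fun q => ∑' j : ℕ, io (cF f m R σ c N0 β j) * q ^ j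
  have hz : ∀ z : ℂ, 0 < z.im → uC (ex z) = fr (⊤ : Ideal (OO n t)) * CF f m R σ N0 β z :=
    fun z hz => (hsum' z hz).tsum_eq
  have h0 : HasSum (fun j : ℕ => io (cF f m R σ c N0 β j) * (0 : ℂ) ^ j) 0 := by
    have e : (fun j : ℕ => io (cF f m R σ c N0 β j) * (0 : ℂ) ^ j) = fun _ => 0 := by
      funext j
      rcases Nat.eq_zero_or_pos j with rfl | hj
      · rw [hc0, map_zero, zero_mul]
      · rw [zero_pow hj.ne', mul_zero]
    rw [e]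
    exact hasSum_zero
  have hu0 : uC 0 = 0 := h0.tsum_eq
  have hev : ∀ᶠ q in 𝓝 (0 : ℂ),
      HasSum (fun j : ℕ => PowerSeries.coeff j (PowerSeries.map io (uF f m R σ c N0 β)) * q ^ j)
        (uC q) := by
    filter_upwards [Metric.ball_mem_nhds (0 : ℂ) one_pos] with q hq
    rw [mem_ball_zero_iff] at hq
    simp only [PowerSeries.coeff_map, hc']
    rcases eq_or_ne q 0 with rfl | hq0
    · rw [hu0]
      exact h0
    · obtain ⟨z, hz1, rfl⟩ := exists_ex q hq0 hq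
      rw [hz z hz1]
      exact hsum' z hz1
  obtain ⟨ha, htt⟩ := DI.F.tTay.2.1 uC _ hev
  refine ⟨uC, ⟨ha, fun j => ?_⟩, hu0, ?_, htt, hz⟩
  · rw [htt, PowerSeries.coeff_map, hc']
    exact ⟨_, hL j, rfl⟩
  · have h5 : PowerSeries.coeff 1 (tay uC) = deriv uC 0 := by
      unfold tay
      rw [PowerSeries.coeff_mk, iteratedDeriv_one]
      simp
    rw [← h5, htt, PowerSeries.coeff_map, hc']
    intro h6
    rw [← map_zero io] at h6
    exact h1ne (io_inj h6)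

end Pool.Agent.DN.F
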