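import Pool.Agent.Lib.DN.IfaceF
import Pool.Agent.Lib.DN.Base
import Pool.Agent.Lib.DN.O.All
import Pool.Agent.Lib.DN.E.SpecB
import Pool.Agent.Lib.DN.F.Lin
import Pool.Agent.Lib.DI.F.VPB

/-!
# Theorem DN (`p = 2`, `2` inert), part F: `S_F1` (statements of the modules with complete proofs), author helper12

Every `def S_.. : Prop` is a statement with a complete proof in its docstring. The module `DN/F/<Name>.lean` (first line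
`import Pool.Agent.Lib.DN.F.SpecA`) proves, in `namespace Pool.Agent.DN.FA`, `theorem t<Name> : S_<Name>` with the
statements named after (from ..) as hypotheses, in this order; all other lemmas `private` or with names starting with the
module name. Some modules are adaptations of `DT/F/<Name>.lean`.

May be used freely (complete): `DN/Base.lean`, `DN/O/All.lean` (`aO2`, .., `aL7`), `DN/E/SpecB.lean` (`Eb.psi_top`,
`Eb.psi_mul`, `Eb.psi_level`, `Eb.ne_..`, `Eb.pri_..`), `DN/F/Lin.lean` (`F.tLin4`), `DI/Val.lean` (`DI.VP.add`, ..; with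
`have : P.IsPrime := hP.1.1`), `DI/F/VPB.lean` (`red`, `RF`), `DI/F/ResFin.lean` (`tResFin`), and the lemmas below.
Everywhere `n t` are the ring parameters, `f` is odd and divisible by `15`, `FB f b`: `b` is prime to `2 f`.
-/

set_option autoImplicit false
set_option linter.unusedSectionVars false

open scoped Pointwise Topology MatrixGroups
open Filter

noncomputable section

namespace Pool.Agent.DN.FA

open Pool.Agent.MuZ Pool.Agent.FW NumberField IsDedekindDomain Pool.Agent.DN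
open Pool.Agent.DI (io ofC io_inj exists_io io_ofC ofC_io VP MP UP TP ex)

variable {n t : ℕ}

/-! ## Complete lemmas: ideals -/

section base

variable [SqN n t]

theorem NI_mul (a b : Ideal (OO n t)) : NI (a * b) = NI a * NI b := (aO2 n t).2.2.2.2.1 a b

theorem NI_sp (v : OO n t) : (NI (sp v) : ℤ) = Nm v := (aO2 n t).2.2.2.1 v

theorem sp_one : sp (1 : OO n t) = ⊤ := Ideal.span_singleton_one

theorem NI_top : NI (⊤ : Ideal (OO n t)) = 1 := by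
  have h := NI_sp (1 : OO n t)
  rw [sp_one, Nm_one] at h
  exact_mod_cast h

theorem NI_pos {a : Ideal (OO n t)} (h : a ≠ ⊥) : 0 < NI a :=
  Nat.pos_of_ne_zero fun h1 => h (((aO2 n t).2.2.2.2.2.1 a).1 h1)

theorem sp_mul (α β : OO n t) : sp (α * β) = sp α * sp β :=
  (Ideal.span_singleton_mul_span_singleton α β).symm

theorem two_f {f : ℕ} (hf : Odd f) : 0 < 2 * f := by
  obtain ⟨j, hj⟩ := hf
  omega

theorem f_pos {f : ℕ} (hf : Odd f) : 0 < f := by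
  obtain ⟨j, hj⟩ := hf
  omega

/-! ## `FB` -/

theorem fb_top (f : ℕ) : FB f (⊤ : Ideal (OO n t)) := ⟨Eb.ne_top, Eb.pri_top _⟩

theorem fb_mul {f : ℕ} {a b : Ideal (OO n t)} (h : FB f a) (h' : FB f b) : FB f (a * b) :=
  ⟨Eb.ne_mul h.ne h'.ne, Eb.pri_mul h.cop h'.cop⟩

theorem fb_psi {f : ℕ} {τ : Gal(Om/ℚ)} {a : Ideal (OO n t)} (h : Psi τ (2 * f) a) : FB f a :=
  ⟨h.ne, Eb.psi_pri h⟩

theorem fm_fb {f : ℕ} {m : Ideal (OO n t)} (h : FM f m) : FB f m := by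
  refine ⟨h.ne, ?_⟩
  exact ((aO6 n t).2.1 2 f m).2 ⟨h.two, h.cop⟩

theorem fb_f {f : ℕ} {a : Ideal (OO n t)} (h : FB f a) : PrI a f := Eb.pri_dvd h.cop (Dvd.intro_left 2 rfl)

theorem fb_two {f : ℕ} {a : Ideal (OO n t)} (h : FB f a) : PrI a 2 := Eb.pri_dvd h.cop (Dvd.intro _ rfl)

theorem fb_30 {f : ℕ} (hf : 15 ∣ f) {a : Ideal (OO n t)} (h : FB f a) : PrI a 30 :=
  Eb.pri_dvd h.cop (by
    obtain ⟨j, rfl⟩ := hf
    exact ⟨j, by ring⟩)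

theorem fb_15 {f : ℕ} (hf : 15 ∣ f) {a : Ideal (OO n t)} (h : FB f a) : PrI a 15 :=
  Eb.pri_dvd (fb_f h) hf

theorem fb_g15 {f : ℕ} (hf : 15 ∣ f) {a : Ideal (OO n t)} (h : FB f a) : G15 a :=
  ⟨h.ne, fb_15 hf h⟩

/-- `sp α`, `α` prime to `2 f`. -/
theorem fb_sp {f : ℕ} (hf : Odd f) {α : OO n t} (h : Cop α (2 * f)) : FB f (sp α) := by
  refine ⟨?_, ((aO6 n t).2.2.2.1 (2 * f) α (two_f hf)).2 h⟩
  refine Eb.ne_sp ?_
  rintro rfl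
  unfold Cop at h
  rw [Nm_zero] at h
  have h1 := isCoprime_zero_left.1 h
  rw [Int.isUnit_iff] at h1
  have := two_f hf
  omega

/-- `α = 1` modulo `f` and prime to `2`: prime to `2 f`. -/
theorem cop_of {f : ℕ} {α : OO n t} (h : (f : OO n t) ∣ α - 1) (h2 : Cop α 2) : Cop α (2 * f) := by
  have h1 : Cop α f := by
    refine cop_congr (a := 1) ?_ (cop_one f)
    have e : (1 : OO n t) - α = -(α - 1) := by ring
    rw [e]
    exact (dvd_neg).2 h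
  unfold Cop at *
  push_cast
  exact IsCoprime.mul_right (by exact_mod_cast h2) h1

/-! ## The level -/

theorem lv_one {f M : ℕ} {m : Ideal (OO n t)} {R : Finset (Ideal (OO n t))} (h : IsLv f m R M)
    {b : Ideal (OO n t)} (hb : b ∈ R) : IsLv f m {b} M := by
  refine ⟨h.odd, h.three, dvd_trans ?_ h.dvd⟩
  unfold lev
  rw [Finset.prod_singleton]
  exact mul_dvd_mul_left _ (pow_dvd_pow_of_dvd (mul_dvd_mul_left _ (Finset.dvd_prod_of_mem _ hb)) 3)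

theorem lv_top {f M : ℕ} {m : Ideal (OO n t)} {R : Finset (Ideal (OO n t))} (h : IsLv f m R M) :
    IsLv f m {(⊤ : Ideal (OO n t))} M := by
  refine ⟨h.odd, h.three, dvd_trans ?_ h.dvd⟩
  unfold lev
  rw [Finset.prod_singleton, NI_top, mul_one]
  exact mul_dvd_mul_left _ (pow_dvd_pow_of_dvd (Dvd.intro _ rfl) 3)

theorem lv_m {f M : ℕ} {m : Ideal (OO n t)} {R : Finset (Ideal (OO n t))} (h : IsLv f m R M) :
    NI m ∣ M := by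
  refine dvd_trans ?_ h.dvd
  unfold lev
  refine Dvd.dvd.mul_left ?_ _
  exact dvd_trans (Dvd.intro _ rfl) (dvd_pow_self _ (by norm_num))

/-! ## The ray class relation modulo `N` -/

variable {N : ℕ}

theorem ray_refl (hN : 0 < N) (a : Ideal (OO n t)) : Ray N a a := (aO7 n t N hN).1 a

theorem ray_symm (hN : 0 < N) {a b : Ideal (OO n t)} (h : Ray N a b) : Ray N b a :=
  (aO7 n t N hN).2.1 a b h

theorem ray_trans (hN : 0 < N) {a b c : Ideal (OO n t)} (h : Ray N a b) (h' : Ray N b c) : Ray N a c :=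
  (aO7 n t N hN).2.2.1 a b c h h'

theorem ray_mul (hN : 0 < N) {a b c d : Ideal (OO n t)} (h : Ray N a b) (h' : Ray N c d) :
    Ray N (a * c) (b * d) := (aO7 n t N hN).2.2.2.1 a b c d h h'

theorem ray_cancel (hN : 0 < N) {a b c : Ideal (OO n t)} (hc : c ≠ ⊥) (hc' : PrI c N)
    (h : Ray N (a * c) (b * c)) : Ray N a b := (aO7 n t N hN).2.2.2.2.1 a b c hc hc' h

theorem ray_cancel' (hN : 0 < N) {a b c : Ideal (OO n t)} (hc : c ≠ ⊥) (hc' : PrI c N)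
    (h : Ray N (c * a) (c * b)) : Ray N a b := ray_cancel hN hc hc' (by rwa [mul_comm a c, mul_comm b c])

theorem ray_level (hN : 0 < N) {M : ℕ} (hM : M ∣ N) {a b : Ideal (OO n t)} (h : Ray N a b) : Ray M a b :=
  (aO7 n t N hN).2.2.2.2.2.2.1 M a b hM h

/-- modulo `2 f` implies modulo `f` -/
theorem ray_f {f : ℕ} (hf : Odd f) {a b : Ideal (OO n t)} (h : Ray (2 * f) a b) : Ray f a b :=
  ray_level (two_f hf) (Dvd.intro_left 2 rfl) h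

theorem ray_inv (hN : 0 < N) {a : Ideal (OO n t)} (ha : a ≠ ⊥) (ha' : PrI a N) :
    ∃ a' : Ideal (OO n t), a' ≠ ⊥ ∧ PrI a' N ∧ Ray N (a * a') ⊤ :=
  (aO7 n t N hN).2.2.2.2.2.2.2.2.2.1 a ha ha'

/-- The normalised form of the relation. -/
theorem ray_norm (hN : 1 < N) {a b : Ideal (OO n t)} (h : Ray N a b) :
    ∃ α α' : OO n t, α ≠ 0 ∧ α' ≠ 0 ∧ (N : OO n t) ∣ α - 1 ∧ (N : OO n t) ∣ α' - 1 ∧
      sp α * a = sp α' * b := by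
  obtain ⟨α, α', h1, h2, h3, h4, h5, h6⟩ := h
  obtain ⟨β, h7, h8⟩ := cop_inv h3
  have hβ : β ≠ 0 := by
    rintro rfl
    unfold Cop at h7
    rw [Nm_zero] at h7
    have h9 := isCoprime_zero_left.1 h7
    rw [Int.isUnit_iff] at h9
    omega
  refine ⟨β * α, β * α', mul_ne_zero hβ h1, mul_ne_zero hβ h2, ?_, ?_, ?_⟩
  · rw [mul_comm β α]
    exact h8
  · have h9 : β * α' - 1 = (α * β - 1) - β * (α - α') := by ring
    rw [h9]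
    exact dvd_sub h8 (h5.mul_left _)
  · rw [sp_mul, sp_mul, mul_assoc, mul_assoc, h6]

theorem ray_of {a b : Ideal (OO n t)} {α α' : OO n t} (h1 : α ≠ 0) (h2 : α' ≠ 0)
    (h3 : (N : OO n t) ∣ α - 1) (h4 : (N : OO n t) ∣ α' - 1) (h : sp α * a = sp α' * b) : Ray N a b := by
  have key : ∀ γ : OO n t, (N : OO n t) ∣ γ - 1 → Cop γ N := by
    intro γ hγ
    refine cop_congr (a := 1) ?_ (cop_one N)
    have e : (1 : OO n t) - γ = -(γ - 1) := by ring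
    rw [e]
    exact (dvd_neg).2 hγ
  refine ⟨α, α', h1, h2, key α h3, key α' h4, ?_, h⟩
  have h7 : α - α' = (α - 1) - (α' - 1) := by ring
  rw [h7]
  exact dvd_sub h3 h4

/-! ## Sums over representatives; `N = f` or `N = 2 f` -/

/-- **Reindexing.** `F` is a class function, `g` is injective on the classes. -/
theorem sum_rep {A : Type} [AddCommMonoid A] {f : ℕ} (hN : 0 < N) (hNf : N ∣ 2 * f)
    {R : Finset (Ideal (OO n t))} (hR : IsRC N R) (hFR : FR f R) (g : Ideal (OO n t) → Ideal (OO n t))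
    (hg : ∀ b, FB f b → FB f (g b))
    (hinj : ∀ b b', FB f b → FB f b' → Ray N (g b) (g b') → Ray N b b')
    (F : Ideal (OO n t) → A) (hF : ∀ b b', FB f b → FB f b' → Ray N b b' → F b = F b') :
    ∑ b ∈ R, F (g b) = ∑ b ∈ R, F b := by
  classical
  have hex : ∀ b, FB f b → ∃ b' ∈ R, Ray N b b' := fun b hb => hR.ex b hb.ne (Eb.pri_dvd hb.cop hNf)
  have hrep : ∀ b ∈ R, ∃ b' ∈ R, Ray N (g b) b' := fun b hb => hex _ (hg b (hFR b hb))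
  choose rp hrp1 hrp2 using hrep
  let rep : Ideal (OO n t) → Ideal (OO n t) := fun b => if h : b ∈ R then rp b h else ⊤
  have e1 : ∀ b, ∀ h : b ∈ R, rep b = rp b h := fun b h => dif_pos h
  have h1 : ∀ b ∈ R, rep b ∈ R := fun b hb => by
    rw [e1 b hb]
    exact hrp1 b hb
  have h2 : ∀ b ∈ R, F (g b) = F (rep b) := fun b hb => by
    rw [e1 b hb]
    exact hF _ _ (hg b (hFR b hb)) (hFR _ (hrp1 b hb)) (hrp2 b hb)
  have h3 : ∀ b ∈ R, ∀ b' ∈ R, rep b = rep b' → b = b' := by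
    intro b hb b' hb' h
    rw [e1 b hb, e1 b' hb'] at h
    apply hR.uni b hb b' hb'
    apply hinj b b' (hFR b hb) (hFR b' hb')
    have h4 := hrp2 b hb
    have h5 := hrp2 b' hb'
    rw [h] at h4
    exact ray_trans hN h4 (ray_symm hN h5)
  rw [Finset.sum_congr rfl h2]
  have h4 : R.image rep = R := by
    apply Finset.eq_of_subset_of_card_le
    · intro b hb
      rw [Finset.mem_image] at hb
      obtain ⟨b', hb', rfl⟩ := hb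
      exact h1 b' hb'
    · rw [Finset.card_image_of_injOn]
      intro b hb b' hb' h
      exact h3 b hb b' hb' h
  conv_rhs => rw [← h4]
  rw [Finset.sum_image (fun b hb b' hb' h => h3 b hb b' hb' h)]

/-- Reindexing by multiplication with `a`. -/
theorem sum_mul {A : Type} [AddCommMonoid A] {f : ℕ} (hN : 0 < N) (hNf : N ∣ 2 * f)
    {R : Finset (Ideal (OO n t))} (hR : IsRC N R) (hFR : FR f R) {a : Ideal (OO n t)} (ha : FB f a)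
    (F : Ideal (OO n t) → A) (hF : ∀ b b', FB f b → FB f b' → Ray N b b' → F b = F b') :
    ∑ b ∈ R, F (a * b) = ∑ b ∈ R, F b :=
  sum_rep hN hNf hR hFR (fun b => a * b) (fun _ hb => fb_mul ha hb)
    (fun _ _ _ _ h => ray_cancel' hN ha.ne (Eb.pri_dvd ha.cop hNf) h) F hF

/-- Reindexing by multiplication with `a`, modulo `P`. -/
theorem sum_mulP {f : ℕ} (hN : 0 < N) (hNf : N ∣ 2 * f) {P : Ideal ZZ} (hP : P.IsPrime)
    {R : Finset (Ideal (OO n t))} (hR : IsRC N R) (hFR : FR f R) {a : Ideal (OO n t)} (ha : FB f a)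
    (F : Ideal (OO n t) → Om) (hF : ∀ b b', FB f b → FB f b' → Ray N b b' → MP P (F b - F b')) :
    MP P (∑ b ∈ R, F (a * b) - ∑ b ∈ R, F b) := by
  let I : AddSubgroup Om :=
    { carrier := {x | MP P x}
      add_mem' := fun hx hy => DI.MP.add hx hy
      zero_mem' := DI.MP.zero
      neg_mem' := fun hx => DI.MP.neg hx }
  have hI : ∀ x y : Om, (QuotientAddGroup.mk x : Om ⧸ I) = QuotientAddGroup.mk y ↔ MP P (x - y) := by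
    intro x y
    rw [QuotientAddGroup.eq]
    constructor
    · intro h
      have h1 : MP P (-x + y) := h
      have h2 := DI.MP.neg h1
      have e : -(-x + y) = x - y := by ring
      rwa [e] at h2
    · intro h
      have h2 := DI.MP.neg h
      have e : -(x - y) = -x + y := by ring
      rw [e] at h2
      exact h2
  have h := sum_mul (A := Om ⧸ I) hN hNf hR hFR ha (fun b => (QuotientAddGroup.mk (F b) : Om ⧸ I))
    (fun b b' h1 h2 h3 => (hI _ _).2 (hF b b' h1 h2 h3))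
  rw [← hI]
  have e : ∀ G : Ideal (OO n t) → Om,
      (QuotientAddGroup.mk (∑ b ∈ R, G b) : Om ⧸ I) = ∑ b ∈ R, (QuotientAddGroup.mk (G b) : Om ⧸ I) :=
    fun G => map_sum (QuotientAddGroup.mk' I) G R
  rw [e, e]
  exact h

end base

/-! ## Fractions -/

/-- The denominator of `j b / d` is prime to `M`, if `d` is `1` modulo `M`. -/
theorem den_cop {M : ℕ} {d : ℤ} (hd : (M : ℤ) ∣ d - 1) (b : ℤ) : ((b : ℚ) / d).den.Coprime M := by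
  have h1 : IsCoprime d (M : ℤ) := by
    obtain ⟨e, he⟩ := hd
    exact ⟨1, -e, by linear_combination he⟩
  have h2 : (((b : ℚ) / d).den : ℤ) ∣ d := by
    have h3 := Rat.den_dvd b d
    have e : Rat.divInt b d = (b : ℚ) / d := by
      rw [Rat.divInt_eq_div]
    rw [e] at h3
    exact h3
  exact Nat.isCoprime_iff_coprime.1 (h1.of_isCoprime_of_dvd_left h2)

/-- The matrix `g' = (a -b; -c d)`. -/
theorem g0_inv {M : ℤ} {a b c d : ℤ} (h : G0 M a b c d) : G0 M a (-b) (-c) d :=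
  ⟨by linear_combination h.1, (dvd_neg).2 h.2⟩

/-- The matrix `(a 2b; c/2 d)`. -/
theorem g0_half {M : ℕ} {a b c d : ℤ} (h : G0 (4 * M) a b c d) (hd : (4 * M : ℤ) ∣ d - 1) :
    ∃ c' : ℤ, G0 M a (2 * b) c' d ∧ (M : ℤ) ∣ d - 1 := by
  obtain ⟨h1, e, he⟩ := h
  refine ⟨2 * M * e, ⟨?_, ⟨2 * e, by ring⟩⟩, dvd_trans ⟨4, by ring⟩ hd⟩
  rw [← h1, he]
  ring

/-! ## The modules -/

/-- MODULE `KP` (120 lines; no hypotheses). THE FIELD `K` AT THE PRIMES ABOVE `2`. Adapt `DT/F/KP.lean`. PROOF. (2) If `2 ∣ v` then `toO v = 2 toO u`, `MP P 2`. If not: `Cop v 2` (`aO4`: `Cop v 2 ↔ ¬ 2 ∣ v ↔ ¬ 2 ∣ Nm v`), `toO v * toO (cjO v) = Nm v` is an odd integer, so `MP P (toO v)` gives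
`MP P 1` (with `MP P 2`). (3) `x = toO v/N`, `N > 0` (elements of `KQ`: `KP_form` in `DT/F/KP.lean`), `N = 2 ^ j N'`, `N'` odd: `toO v/2 ^ j = N' x` is in `V_P`. For all `v`, `j`: if `VP P (toO v/2 ^ j)` then `2 ^ j ∣ v` (induction: `j + 1`: `MP P (toO v)`, so `v = 2 u`, `toO v/2 ^ (j+1) = toO u/2 ^ j`). So
`N' x = toO v''`. (1) With (3): `N x = toO v`, `N = 2 j + 1`: `x - toO v = x - N x = -2 j x`. -/
def S_KP : Prop := ∀ (n t : ℕ) [Ine n t] (P : Ideal ZZ), Ab2 P →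
  (∀ x ∈ KQ n t, VP P x → ∃ v : OO n t, MP P (x - toO v)) ∧
  (∀ v : OO n t, MP P (toO v) ↔ (2 : OO n t) ∣ v) ∧
  ∀ x ∈ KQ n t, VP P x → ∃ N : ℕ, Odd N ∧ ∃ v : OO n t, (N : Om) * x = toO v

/-- MODULE `Od` (70 lines; no hypotheses). CLASSES MODULO `f` OF IDEALS PRIME TO `2 f`. PROOF. `ray_norm` (`1 < f`): `sp β * b = sp β' * b'`, `β, β'` nonzero, `1` modulo `f`. Write `β = 2 ^ i γ`, `β' = 2 ^ j γ'`, `2 ∤ γ`, `2 ∤ γ'` (`finite multiplicity`, or strong induction on `Nm β`).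
Norms: `4 ^ i Nm γ * NI b = 4 ^ j Nm γ' * NI b'`, where `Nm γ`, `Nm γ'` (`aO4`), `NI b`, `NI b'` (`aO6` (3) for `N = 2`) are odd: `i = j`. So `sp γ * b = sp γ' * b'` (cancel `sp (2 ^ i)`, `mul_left_cancel₀` in the domain of ideals), and `2 ^ i (γ - γ')` is divisible by `f`, `f` odd: `f ∣ γ - γ'`
(`2 ^ i u + f s = 1` in `ℤ`). `γ` is prime to `2` and to `f` (`2 ^ i γ = 1` modulo `f`), `δ γ = 1` modulo `2 f` (`cop_inv`), `δ` prime to `2 f`. `α = δ γ`, `α' = δ γ'`: `f ∣ α - 1`, `f ∣ α' - 1`, both prime to `2`. -/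
def S_Od : Prop := ∀ (n t : ℕ) [Ine n t] (f : ℕ), Odd f → 15 ∣ f → ∀ b b' : Ideal (OO n t), FB f b →
  FB f b' → Ray f b b' → ∃ α α' : OO n t, α ≠ 0 ∧ α' ≠ 0 ∧ Cop α 2 ∧ Cop α' 2 ∧
    (f : OO n t) ∣ α - 1 ∧ (f : OO n t) ∣ α' - 1 ∧ sp α * b = sp α' * b'

open Classical in
/-- MODULE `Tm` (150 lines; from `S_Od`). THE CLASSES MODULO `2 f` IN A CLASS MODULO `f`. PROOF. `tm = {1, a, c}`, `a = 1 + f (w - 1)`, `c = 1 + f w`: `f ∣ α - 1`; modulo `2` (`f` odd): `1, w, 1 + w`, so `Cop α 2` (`aO4`, `aO12`) (1). (2) Every `v` with `f ∣ v - 1`, `Cop v 2` is congruent modulo `2 f` to exactly one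
`α ∈ tm` (`aO4`: `v` is `1`, `w` or `1 + w` modulo `2`; `f` odd), and then `Ray (2 f) (sp v) (sp α)` (`aO7` (8) with `e = 1`). (3) The set `R2' = {sp α * b : α ∈ tm, b ∈ R}`: (a) every `b` with `FB f b` has `Ray (2 f) b (sp α * b')`, `b' ∈ R`, `α ∈ tm`: `Ray f b b'`, `S_Od`: `sp γ * b = sp γ' * b'`; `γ'' γ = 1` modulo `2 f`, `v = γ'' γ'`, `f ∣ v - 1`,
(2). (b) `Ray (2 f) (sp α * b) (sp α' * b')`, `b, b' ∈ R`, `α, α' ∈ tm`: modulo `f`: `Ray f (sp α) ⊤`, so `Ray f b b'`, `b = b'`, so `Ray (2 f) (sp α) (sp α')`, `2 f ∣ α - α'` (`aO10` (3)), so `α = α'`. So with `rep : R2 → R2'` (a bijection) `∑_(R2) F = ∑_(R2') F = ∑ ∑ F (sp α * b)` (`Finset.sum_product`, `Finset.sum_bij`; `F` is a class function modulo `2 f`).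
(4) For `Ray f b b'`: `sp γ * b = sp γ' * b'` as above; it is enough to show `∑_α F (sp α * (sp γ * b)) = ∑_α F (sp α * b)` for `f ∣ γ - 1`, `Cop γ 2` (and the same for `γ', b'`): `α ↦` the element of `tm` congruent to `α γ` modulo `2 f` is injective, so bijective on `tm`. -/
def S_Tm : Prop := ∀ (n t : ℕ) [Ine n t] (f : ℕ), Odd f → 15 ∣ f →
  (∀ α ∈ tm n t f, α ≠ 0 ∧ (f : OO n t) ∣ α - 1 ∧ Cop α 2 ∧ Cop α (2 * f)) ∧
  (∀ (A : Type) [AddCommMonoid A] (F : Ideal (OO n t) → A),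
    (∀ b b', FB f b → FB f b' → Ray (2 * f) b b' → F b = F b') →
    (∀ R R2 : Finset (Ideal (OO n t)), IsRC f R → FR f R → IsRC (2 * f) R2 →
      ∑ b ∈ R2, F b = ∑ b ∈ R, ∑ α ∈ tm n t f, F (sp α * b)) ∧
    ∀ b b' : Ideal (OO n t), FB f b → FB f b' → Ray f b b' →
      ∑ α ∈ tm n t f, F (sp α * b) = ∑ α ∈ tm n t f, F (sp α * b')) ∧
  ∀ b : Ideal (OO n t), Ray f b ⊤ → FB f b → ∃ α ∈ tm n t f, Ray (2 * f) b (sp α)

/-- MODULE `Gc` (120 lines; from `S_E1`, `S_E7`, `S_E10`, `S_B7`, `S_R1`, `S_D2`, `S_Kf`). GALOIS ACTION ON `κ`, `fr`. PROOF. Let `τ ∈ GK`, `Psi τ (2 f) a` (so `FB f a`: `fb_psi`). (1) `kp b = 2 xO b (1/2) + a1O b ^ 2/6`; `(2 f)(1/2) = f ∈ Lam b` (`1 ∈ Lam b`: `Lam ⊤` (`lam_top`) and `lam_mono`, `b * ⊤ = b`): `Psi.xx`, `Psi.a1`.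
(2) `S_E7`: `τ` with `Psi τ (2 f) b`, so `Psi τ (2 f) b'` (`S_E1` (3)): `kp b = kp (b * ⊤) = τ (kp ⊤) = kp b'`. (3) by (1), (2): `Psi τ (2 f) a`, `Ray (2 f) a ⊤`. (4) `S_E10` (`N = 2 f`): `τ (rO b b') = rO (a * b) (a * b')`. (5) `rO ⊤ b ∈ Kf f`: `Psi τ f a`, `Ray f a ⊤`: `Psi τ f ⊤` (`S_E1` (3)), `S_E10` for `N = f`, `⊤ * b = b`. (6) `S_D2`: `UP Q (rO b (a * b))`, `a`
prime to `2`, `15`. (7) `rO b b' * rO b' b'' = rO b b''`, `rO b b = 1` (`io`, `S_R1`: `io (rO b b') = fr b'/fr b ≠ 0`, `io_inj`). (8) `S_B7` (`15 ∣ f`): `fr (sp α * b) = toC α * fr b`, `io_toO`. (9) `S_Kf`. -/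
def S_Gc : Prop := ∀ (n t : ℕ) [Ine n t] (f : ℕ), Odd f → 15 ∣ f →
  (∀ τ ∈ GK n t, ∀ a : Ideal (OO n t), Psi τ (2 * f) a → ∀ b : Ideal (OO n t), FB f b →
    τ (kp b) = kp (a * b) ∧ ∀ b' : Ideal (OO n t), FB f b' → τ (rO b b') = rO (a * b) (a * b')) ∧
  (∀ b b' : Ideal (OO n t), FB f b → FB f b' → Ray (2 * f) b b' → kp b = kp b') ∧
  kp (⊤ : Ideal (OO n t)) ∈ Kf n t (2 * f) ∧
  (∀ b : Ideal (OO n t), FB f b → rO ⊤ b ∈ Kf n t f ∧ rO b b = 1 ∧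
    (∀ a : Ideal (OO n t), FB f a → ∀ Q : Ideal ZZ, Ab2 Q → UP Q (rO a (b * a))) ∧
    (∀ b' b'' : Ideal (OO n t), FB f b' → FB f b'' → rO b b' * rO b' b'' = rO b b'') ∧
    ∀ α : OO n t, α ≠ 0 → (f : OO n t) ∣ α - 1 → rO b (sp α * b) = toO α) ∧
  ∀ σ : Ideal (OO n t) → Gal(Om/ℚ), IsSig n t f σ → ∀ N : ℕ, (N = f ∨ N = 2 * f) →
    ∀ x ∈ Kf n t N, (∀ b b' : Ideal (OO n t), FB f b → FB f b' → Ray N b b' → σ b x = σ b' x) ∧
      ∀ τ ∈ GK n t, ∀ a : Ideal (OO n t), Psi τ (2 * f) a → ∀ b : Ideal (OO n t), FB f b →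
        τ (σ b x) = σ (a * b) x ∧ σ b (τ x) = σ (a * b) x

/-- MODULE `YE` (130 lines; from `S_C6`, `S_C8`, `S_C11`, `S_E1`, `S_Tm`, `S_Gc`). THE NUMBERS `yE`. PROOF. `r.den` is prime to `NI m` (`lv_m`), so `(r/2).den ∣ 2 * r.den` is (`NI m` is odd: `NI m ∣ M`). (1) `τ (yE b r) = yE (a * b) r` for `Psi τ (2 f) a`, `FB f b`: `S_Gc` (1), `S_C8`, `a * (sp α * b) = sp α * (a * b)`; `FB f (sp α * b)` (`fb_sp`, `fb_mul`, `S_Tm` (1)).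
(2) `yE ⊤ r ∈ Kf f`: `τ ∈ GK`, `Psi τ f a`, `Ray f a ⊤`. `S_E1` (1): `Psi τ (2 f) a'`, so `Psi τ f a'`, `Ray f a' a` (`S_E1` (2), (5)), `Ray f a' ⊤`. `yE a' r = yE ⊤ r` by `S_Tm` (2) (second part) for the class function `F b = kp b ^ k * etaM b (r/2)` (`S_Gc` (2), `S_C6` (1)). (3) `S_C11` for `b = ⊤` (`lv_top`) at the prime `τ⁻¹ • Q` (`DI.VP.smul`).
(4) for `b ∈ R`: `S_C11` for `b` (`lv_one`). -/
def S_YE : Prop := ∀ (n t : ℕ) [Ine n t] (f M k : ℕ) (m : Ideal (OO n t)) (R : Finset (Ideal (OO n t))),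
  FM f m → FR f R → IsLv f m R M → (k = 1 ∨ k = 2) → ∀ r : ℚ, r.den.Coprime M →
    yE f k m ⊤ r ∈ Kf n t f ∧
    (∀ Q : Ideal ZZ, Ab2 Q → ∀ τ ∈ GK n t, VP Q (τ (yE f k m ⊤ r))) ∧
    (∀ τ ∈ GK n t, ∀ a : Ideal (OO n t), Psi τ (2 * f) a → τ (yE f k m ⊤ r) = yE f k m a r) ∧
    ∀ P : Ideal ZZ, Ab2 P → ∀ b ∈ R, VP P (yE f k m b r) ∧
      MP P (yE f k m b r - (kp b / c3) ^ k * (c3 ^ k / 2 * etE P f k m b r))

/-- The numbers `w_g`. -/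
def wg {n t : ℕ} (f k : ℕ) (m : Ideal (OO n t)) (b d : ℤ) : Om :=
  yE f k m ⊤ (b / d) + yE f k m ⊤ (-(b / d)) - 2 * yE f k m ⊤ 0

/-- `κ_b = χ(b) (fr(b)/fr(1)) (κ(b)/c3)^(-k)`. -/
def kpp {n t : ℕ} (k : ℕ) (χ : Ideal (OO n t) → Om) (b : Ideal (OO n t)) : Om :=
  χ b * rO ⊤ b * ((kp b / c3) ^ k)⁻¹

/-- MODULE `Kap` (130 lines; from `S_Kp`, `S_Od`, `S_Gc`). THE NUMBERS `kpp`. PROOF. (1) `χ b ^ j = 1` (`IsChi.odd`, `j > 0`), `UP.of_pow`; `S_Gc` (`rO ⊤ (b * ⊤)`), `S_Kp`. (2) `kpp (a * b) = χ a * χ b * (rO ⊤ b * rO b (a * b)) * ((kp (a b)/c3)^k)⁻¹` and `kp (a b)/kp b = rO b (a b)^(-2) (1 + μ)`, `μ ∈ M_P` (`S_Kp`), so `((kp (a b)/c3)^k)⁻¹ = ((kp b/c3)^k)⁻¹ rO b (a b)^(2 k) (1 + μ)^(-k)`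
(`k = 1, 2`; units, `(1 + μ)^(-k) - 1 ∈ M_P`). (3) `Ray f b b'`: `S_Od`: `sp α * b = sp α' * b'`; (2) with `a = sp α`: `kpp (sp α * b) = χ(sp α) (toO α)^(1 + 2 k) kpp b` modulo `P`, `χ (sp α) = (toO α)^(k - 1)` (`Ty`), and `(toO α)^(3 k) = 1` modulo `P` (`aO4`: `2 ∣ α ^ 3 - 1`; `toO_pow`, `MP P 2`): `kpp (sp α * b) = kpp b` modulo `P`, the same for `α', b'`. -/
def S_Kap : Prop := ∀ (n t : ℕ) [Ine n t] (f k : ℕ), Odd f → 15 ∣ f → ∀ χ : Ideal (OO n t) → Om,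
  IsChi (2 * f) χ → ∀ P : Ideal ZZ, Ab2 P → (k = 1 ∨ k = 2) → Ty P f χ (k - 1) →
  (∀ b : Ideal (OO n t), FB f b → UP P (χ b) ∧ UP P (kpp k χ b)) ∧
  (∀ a b : Ideal (OO n t), FB f a → FB f b →
    MP P (kpp k χ (a * b) - χ a * rO b (a * b) ^ (1 + 2 * k) * kpp k χ b)) ∧
  ∀ b b' : Ideal (OO n t), FB f b → FB f b' → Ray f b b' → MP P (kpp k χ b - kpp k χ b')

/-- MODULE `Sm` (130 lines; from `S_YE`, `S_Gc`, `S_Kap`). THE SUMS WITH `χ`. PROOF. `w = wg f k m b d ∈ Kf f`. By the last part of `S_YE` (`r = b/d`, `-(b/d) = ((-b)/d)`, `0`; `den_cop`), for `b' ∈ R`: `c3^k/2 (etE b' r + etE b' (-r) - 2 etE b' 0) - ((kp b'/c3)^k)⁻¹ (yE b' r + yE b' (-r) - 2 yE b' 0) ∈ M_P`, and `yE b' r = σ b' (yE ⊤ r)` (`S_YE` (3), `IsSig`).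
So `∑ kpp b' * σ b' w ∈ M_P` (`xs`: `xs 0` has `etE 0 + etE (-0)`; `χ b' * rO ⊤ b'` are in `V_P`). `F b' = kpp b' * σ b' w` is a class function modulo `f`, modulo `P` (`S_Kap` (3), `S_Gc` (5), `VP P (σ b' w)`), so `∑ F (a' * b') ∈ M_P` (`sum_mulP`). `σ (a' * b') w = σ b' (τ w)` (`S_Gc`), `kpp (a' * b') = χ a' * rO b' (a' * b') ^ (1 + 2 k) * kpp b'` modulo `P`, and
`rO b' (a' * b') = σ b' (rO ⊤ a')` (`S_Gc` (1) for `τ = σ b'`: `rO (b' * ⊤) (b' * a')`). Divide by the unit `χ a'`. -/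
def S_Sm : Prop := ∀ (n t : ℕ) [Ine n t] (f M k : ℕ) (m : Ideal (OO n t)) (R : Finset (Ideal (OO n t))),
  FM f m → FR f R → IsRC f R → IsLv f m R M → ∀ χ : Ideal (OO n t) → Om, IsChi (2 * f) χ →
  ∀ P : Ideal ZZ, Ab2 P → (k = 1 ∨ k = 2) → Ty P f χ (k - 1) →
  ∀ σ : Ideal (OO n t) → Gal(Om/ℚ), IsSig n t f σ → ∀ a b c d : ℤ, G0 M a b c d → (M : ℤ) ∣ d - 1 →
    MP P (xs P f k m R χ (b / d) - xs P f k m R χ 0) →
    ∀ τ ∈ GK n t, ∀ a' : Ideal (OO n t), Psi τ (2 * f) a' →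
      MP P (∑ b' ∈ R, kpp k χ b' * σ b' (rO ⊤ a' ^ (1 + 2 * k) * τ (wg f k m b d)))

/-- MODULE `Bet` (200 lines; from `S_E1`, `S_Kf`, `S_KP`, `S_Gc`). THE ELEMENT `β`. Adapt `DT/F/Bet.lean`. PROOF. `L = Kf f`. (1) `A = {x ∈ L : VP Q (τ x) for all Q above 2, τ ∈ GK}`, a subring of `L` which contains the algebraic integers of `L`, stable under `GK`, and `S ⊆ A`. For `b` in the subtype `R`: `r_b(x) = red (σ b x)`, `A → RF` (at `P`).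
INJECTIVE: `S_Kf` (distinctness, `IsRC.uni`). FINITE RANGE: `DI.F.tResFin`. `K0` = the subfield of the `red (toO v)` (inverse: `2 ∣ v ^ 3 - 1` for `2 ∤ v`). DIAGONAL: `x = toO v`. For `x ∈ A` the sum `∑_(b ∈ R) σ b x` is fixed by `GK` (`S_Gc`, `sum_mul`), in `KQ` (`S_Kf`), in `V_P`, so congruent to `toO v` (`S_KP` (1)). `tLin4` with `k_b = red (κ b) ≠ 0`:
`β₀ ∈ A`, `¬ MP P (σ s β₀)`, `s ∈ R`, `MP P (∑ σ b (β₀ w))` for `w ∈ S`. (2) `τ = (σ s)⁻¹ * σ b1 ∈ GK`, `μ` for this `τ`; `β = τ⁻¹ (β₀ μ)`: `σ b1 β = σ s (β₀ μ)`, a unit; `∑ σ b (β w) = ∑ (σ b τ⁻¹) (β₀ μ τ w) = ∑ σ b (β₀ (μ τ w))` (`S_Gc`, `sum_mul`), `μ τ w ∈ S`. -/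
def S_Bet : Prop := ∀ (n t : ℕ) [Ine n t] (f : ℕ) (R : Finset (Ideal (OO n t))), Odd f → 15 ∣ f →
  FR f R → IsRC f R → ∀ P : Ideal ZZ, Ab2 P → ∀ σ : Ideal (OO n t) → Gal(Om/ℚ), IsSig n t f σ →
  ∀ (κ : Ideal (OO n t) → Om) (S : Set Om), (∀ b ∈ R, UP P (κ b)) →
  (∀ w ∈ S, w ∈ Kf n t f ∧ ∀ Q : Ideal ZZ, Ab2 Q → ∀ τ ∈ GK n t, VP Q (τ w)) →
  (∀ τ ∈ GK n t, ∃ μ ∈ Kf n t f, (∀ Q : Ideal ZZ, Ab2 Q → ∀ τ' ∈ GK n t, UP Q (τ' μ)) ∧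
    ∀ w ∈ S, μ * τ w ∈ S) →
  (∀ w ∈ S, MP P (∑ b ∈ R, κ b * σ b w)) →
  ∀ b1 ∈ R, ∃ β ∈ Kf n t f, UP P (σ b1 β) ∧
    (∀ Q : Ideal ZZ, Ab2 Q → ∀ τ ∈ GK n t, VP Q (τ β)) ∧ ∀ w ∈ S, MP P (∑ b ∈ R, σ b (β * w))

/-- `β = κ(1)^k β₀/2`. -/
def bet (n t k : ℕ) (β₀ : Om) : Om := kp (⊤ : Ideal (OO n t)) ^ k * β₀ / 2

/-- The period. -/
def perA {n t : ℕ} (f k : ℕ) (m : Ideal (OO n t)) (R : Finset (Ideal (OO n t)))
    (σ : Ideal (OO n t) → Gal(Om/ℚ)) (β₀ : Om) (b d : ℤ) : Om :=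
  ∑ b' ∈ R, σ b' (β₀ * (yE f k m ⊤ (2 * (b / d)) - yE f k m ⊤ 0))

/-- MODULE `Pa` (130 lines; from `S_C2`, `S_C6`, `S_C8`, `S_E1`, `S_Kf`, `S_Tm`, `S_Gc`, `S_YE`). THE PERIODS OF `A`. Compare `DT/F/Pa.lean`. PROOF. `r = b/d`. `S_C2` for `b' ∈ R2`: `AF(g z) - AF(z) = io (∑_(b' ∈ R2) F b')`, `F b' = kp b' ^ k * σ b' β₀/2 * (etaM b' r - etaM b' 0)` (`σ b' (bet β₀) = kp b' ^ k * σ b' β₀/2` by `S_Gc` (1) for `σ b'`). `F` is a class function modulo `2 f`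
(`S_Gc` (2), (5) with `N = f` and `ray_f`, `S_C6` (1)), so `∑_(R2) F = ∑_(b' ∈ R) ∑_α F (sp α * b')` (`S_Tm`), and `σ (sp α * b') β₀ = σ b' β₀` (`S_Gc` (5), `Ray f (sp α * b') b'`), so the inner sum is `σ b' β₀ * (yE b' (2 r) - yE b' 0)` (definition of `yE`; `(2 r)/2 = r`, `0/2 = 0`), `yE b' (2 r) = σ b' (yE ⊤ (2 r))` (`S_YE` (3)). `IsSig` gives `Psi (σ b') (2 f) b'`.
`perA` is fixed by `GK` (`S_Gc` (5), `sum_mul` with `N = f`), `S_Kf`. Integrality: `S_YE` (2). -/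
def S_Pa : Prop := ∀ (n t : ℕ) [Ine n t] (f M k : ℕ) (m : Ideal (OO n t)) (R R2 : Finset (Ideal (OO n t))),
  FM f m → FR f R → IsRC f R → IsLv f m R M → FR f R2 → IsRC (2 * f) R2 → IsLv f m R2 M →
  (k = 1 ∨ k = 2) → ∀ σ : Ideal (OO n t) → Gal(Om/ℚ), IsSig n t f σ → ∀ β₀ ∈ Kf n t f,
  (∀ Q : Ideal ZZ, Ab2 Q → ∀ τ ∈ GK n t, VP Q (τ β₀)) →
  ∀ a b c' d : ℤ, G0 (4 * M) a b c' d → (4 * M : ℤ) ∣ d - 1 →
    (∀ z : ℂ, 0 < z.im → AF f m R2 σ 1 (bet n t k β₀) ((a * z + b) / (c' * z + d)) =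
      AF f m R2 σ 1 (bet n t k β₀) z + io (perA f k m R σ β₀ b d)) ∧
    perA f k m R σ β₀ b d ∈ KQ n t ∧ ∀ Q : Ideal ZZ, Ab2 Q → VP Q (perA f k m R σ β₀ b d)

/-- MODULE `Pb` (120 lines; from `S_KP`, `S_Pa`). FINITELY MANY GENERATORS. Adapt `DT/F/Pb.lean` (level `4 * M`; no factor `(1 - w) ^ j`); `DI.F.tFg` (`DI/F/Fg.lean`) is complete. -/
def S_Pb : Prop := ∀ (n t : ℕ) [Ine n t] (f M k : ℕ) (m : Ideal (OO n t)) (R R2 : Finset (Ideal (OO n t))),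
  FM f m → FR f R → IsRC f R → IsLv f m R M → FR f R2 → IsRC (2 * f) R2 → IsLv f m R2 M →
  (k = 1 ∨ k = 2) → ∀ P : Ideal ZZ, Ab2 P → ∀ σ : Ideal (OO n t) → Gal(Om/ℚ), IsSig n t f σ →
  ∀ β₀ ∈ Kf n t f, (∀ Q : Ideal ZZ, Ab2 Q → ∀ τ ∈ GK n t, VP Q (τ β₀)) →
  ∃ N0 : ℕ, Odd N0 ∧ ∀ a b c' d : ℤ, G0 (4 * M) a b c' d → (4 * M : ℤ) ∣ d - 1 → ∃ α : OO n t,
    (N0 : Om) * perA f k m R σ β₀ b d = toO α ∧
    ∀ z : ℂ, 0 < z.im → AF f m R2 σ N0 (bet n t k β₀) ((a * z + b) / (c' * z + d)) =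
      AF f m R2 σ N0 (bet n t k β₀) z + toC α

/-- MODULE `F1` (150 lines; from `S_E1`, `S_Kf`, `S_Kp`, `S_KP`, `S_Gc`, `S_YE`, `S_Kap`, `S_Sm`, `S_Bet`, `S_Pb`): `S_F1`. PROOF. `S` = the set of all `rO ⊤ a' ^ (1 + 2 k) * τ (wg f k m b d)`, `τ ∈ GK`, `Psi τ (2 f) a'`, `G0 M a b c d`, `M ∣ d - 1`. `S_Bet` with `κ = kpp k χ`: `S ⊆ Kf`, integral at all `Q` (`S_Gc`, `S_YE`, `S_Kf`);
for `τ' ∈ GK`, `Psi τ' (2 f) a''`: `μ = rO ⊤ a'' ^ (1 + 2 k)`: `μ * τ' (rO ⊤ a' ^ (1 + 2 k) * τ w) = (rO ⊤ a'' * rO a'' (a'' a')) ^ (1 + 2 k) * (τ' τ) w ∈ S` (`S_Gc`); the sums by `S_Sm`. `b1' ∈ R` with `Ray f (m * b1') ⊤` (`ray_inv` and `IsRC.ex`); `β₀` from `S_Bet`, `N0` from `S_Pb`, `β = bet n t k β₀`. `2 τ β/c3^k = (kp a/c3)^k τ β₀` (`S_Gc` (1), `S_E1` (1), `S_Kp`).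
For `b1 ∈ R2` with `Ray (2 f) (m * b1) ⊤`: `Ray f b1 b1'` (`ray_f`, `ray_cancel'`), `σ b1 β₀ = σ b1' β₀`. PERIODS: `α` for `g`, `α'` for `g' = (a, -b; -c, d)` (`g0_inv`). `toO (α + α') = N0 * ∑ σ b' (β₀ * wg f k m (2 b) d)` (`(2 b)/d = 2 (b/d)`, `2 (-b/d) = -((2 b)/d)`), and `wg f k m (2 b) d ∈ S` (`g0_half`; `τ = 1`, `a' = ⊤`, `rO ⊤ ⊤ = 1`), so this is in `M_P`, so `2 ∣ α + α'` (`S_KP` (2)). -/
abbrev M_F1 : Prop := S_F1

end Pool.Agent.DN.FA
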